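import Mathlib
import Pool.Graph.R_pool_sql_team_seeded_f0cf7b00.H945R2.Dvr
import Pool.Graph.R_pool_sql_team_seeded_f0cf7b00.H945R2.Orders

/-! Varieties given by a space of homogeneous coordinates: charts and gluing. -/

set_option linter.unusedSimpArgs false
set_option linter.unusedSectionVars false

noncomputable section

namespace Pool.Agent.H81

open Pool.Agent.H945R2

variable {K : Type} [Field K] [Algebra ℂ K]

/-- The coordinate ring of the chart `l ≠ 0`. -/
def ringOf (E : Submodule ℂ K) (l : K) : Subalgebra ℂ K := Algebra.adjoin ℂ {f | ∃ e ∈ E, f = e / l}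

variable {E : Submodule ℂ K}

lemma div_mem_ringOf {l e : K} (he : e ∈ E) : e / l ∈ ringOf E l :=
  Algebra.subset_adjoin ⟨e, he, rfl⟩

lemma ringOf_le {l : K} {A : Subalgebra ℂ K} (h : ∀ e ∈ E, e / l ∈ A) : ringOf E l ≤ A := by
  rw [ringOf, Algebra.adjoin_le_iff]
  rintro _ ⟨e, he, rfl⟩
  exact h e he

/-- elements with denominator a power of `u` -/
def powSub (B : Subalgebra ℂ K) (u : K) (hu : u ∈ B) : Subalgebra ℂ K where
  carrier := {z | ∃ n : ℕ, z * u ^ n ∈ B}
  mul_mem' := by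
    rintro a b ⟨n, hn⟩ ⟨m, hm⟩
    refine ⟨n + m, ?_⟩
    have := B.mul_mem hn hm
    convert this using 1
    rw [pow_add]; ring
  add_mem' := by
    rintro a b ⟨n, hn⟩ ⟨m, hm⟩
    refine ⟨n + m, ?_⟩
    have := B.add_mem (B.mul_mem hn (B.pow_mem hu m)) (B.mul_mem hm (B.pow_mem hu n))
    convert this using 1
    rw [pow_add]; ring
  algebraMap_mem' c := ⟨0, by simpa using B.algebraMap_mem c⟩

lemma mem_powSub {B : Subalgebra ℂ K} {u : K} {hu : u ∈ B} {z : K} :
    z ∈ powSub B u hu ↔ ∃ n : ℕ, z * u ^ n ∈ B := Iff.rfl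

lemma ringOf_le_powSub {l l' : K} (hl : l ∈ E) (hl0 : l ≠ 0) :
    ringOf E l ≤ powSub (ringOf E l') (l / l') (div_mem_ringOf hl) := by
  refine ringOf_le fun e he => ⟨1, ?_⟩
  have := div_mem_ringOf (l := l') he
  rw [pow_one]
  convert this using 1
  field_simp

lemma frac_ringOf {S : Set K} (hS : ∀ s ∈ S, s ∈ E) (h1 : (1 : K) ∈ E)
    (hgen : ∀ z : K, ∃ p ∈ Algebra.adjoin ℂ S, ∃ q ∈ Algebra.adjoin ℂ S, q ≠ 0 ∧ z * q = p)
    {l : K} (hl0 : l ≠ 0) (z : K) :
    ∃ a b : ringOf E l, b ≠ 0 ∧ z * (b : K) = (a : K) := by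
  obtain ⟨p, hp, q, hq, hq0, h⟩ := hgen z
  have hu : (1 / l) ∈ ringOf E l := div_mem_ringOf h1
  have hu0 : (1 / l) ≠ 0 := one_div_ne_zero hl0
  have hle : Algebra.adjoin ℂ S ≤ powSub (ringOf E l) (1 / l) hu := by
    rw [Algebra.adjoin_le_iff]
    intro s hs
    refine ⟨1, ?_⟩
    have := div_mem_ringOf (l := l) (hS s hs)
    rw [pow_one]
    convert this using 1
    ring
  obtain ⟨n, hn⟩ := hle hp
  obtain ⟨m, hm⟩ := hle hq
  refine ⟨⟨_, (ringOf E l).mul_mem hn ((ringOf E l).pow_mem hu m)⟩,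
    ⟨_, (ringOf E l).mul_mem hm ((ringOf E l).pow_mem hu n)⟩, ?_, ?_⟩
  · intro h
    have := congrArg Subtype.val h
    simp only [ZeroMemClass.coe_zero, mul_eq_zero, pow_eq_zero_iff', hu0, false_and, or_false] at this
    exact hq0 this
  · show _ * (_ * _ * _) = _ * _ * _
    rw [← h]
    ring

lemma isFrac_of {R : Subalgebra ℂ K} (h : ∀ z : K, ∃ a b : R, b ≠ 0 ∧ z * (b : K) = (a : K)) :
    IsFractionRing R K := by
  apply IsFractionRing.of_field
  intro z
  obtain ⟨a, b, hb, h⟩ := h z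
  refine ⟨a, b, ?_⟩
  have hb0 : (b : K) ≠ 0 := fun h => hb (Subtype.ext h)
  show z = (a : K) / (b : K)
  rw [eq_div_iff hb0, h]

/-- change of chart -/
lemma transfer {l l' : K} (hl : l ∈ E) (hl0 : l ≠ 0) (hl' : l' ∈ E) (hl0' : l' ≠ 0)
    {p : Ideal (ringOf E l)} [p.IsPrime] (h : l' / l ∉ locMax (ringOf E l) p) :
    ∃ p' : Ideal (ringOf E l'), p'.IsPrime ∧ locRing (ringOf E l) p = locRing (ringOf E l') p' ∧
      ∀ b : ringOf E l', b ∈ p' ↔ (b : K) ∈ locMax (ringOf E l) p := by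
  have h1 : l' / l ∈ locRing (ringOf E l) p := coe_mem_loc (⟨l' / l, div_mem_ringOf hl'⟩ : ringOf E l)
  obtain ⟨_, h3⟩ := (locMax_or_unit h1).resolve_left h
  apply loc_transfer
  · have h4 : ringOf E l' ≤ locSub (ringOf E l) p := by
      refine ringOf_le fun e he => ?_
      have h5 : e / l ∈ locRing (ringOf E l) p :=
        coe_mem_loc (⟨e / l, div_mem_ringOf he⟩ : ringOf E l)
      have := loc_mul h5 h3
      rw [mem_locSub]
      convert this using 1
      field_simp
    exact fun z hz => h4 hz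
  · intro z hz
    obtain ⟨n, hn⟩ := ringOf_le_powSub (l' := l') hl hl0 hz
    refine ⟨_, hn, (l / l') ^ n, (ringOf E l').pow_mem (div_mem_ringOf hl) n,
      pow_ne_zero _ (div_ne_zero hl0 hl0'), ?_, rfl⟩
    have h5 : ((l / l') ^ n)⁻¹ = (l' / l) ^ n := by
      rw [← inv_pow, inv_div]
    rw [h5]
    exact (locSub (ringOf E l) p).pow_mem h1 n

lemma separated_aux {l l' : K} (hl : l ∈ E) (hl0 : l ≠ 0) (hl' : l' ∈ E) (hl0' : l' ≠ 0)
    (V : ValuationSubring K) (h : ∀ f ∈ ringOf E l, f ∈ V) :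
    locAtCentre (ringOf E l) V ⊆ locAtCentre (ringOf E l') V := by
  rintro z ⟨a, ha, s, hs, hs0, hsV, hz⟩
  obtain ⟨n, hn⟩ := ringOf_le_powSub (l' := l') hl hl0 ha
  obtain ⟨m, hm⟩ := ringOf_le_powSub (l' := l') hl hl0 hs
  have hu : l / l' ∈ ringOf E l' := div_mem_ringOf hl
  have hu0 : l / l' ≠ 0 := div_ne_zero hl0 hl0'
  refine ⟨_, (ringOf E l').mul_mem hn ((ringOf E l').pow_mem hu m), _,
    (ringOf E l').mul_mem hm ((ringOf E l').pow_mem hu n), ?_, ?_, ?_⟩
  · exact mul_ne_zero (mul_ne_zero hs0 (pow_ne_zero _ hu0)) (pow_ne_zero _ hu0)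
  · rw [mul_inv, mul_inv, ← inv_pow, ← inv_pow, inv_div]
    have h3 : l' / l ∈ V := h _ (div_mem_ringOf hl')
    exact V.mul_mem _ _ (V.mul_mem _ _ hsV (pow_mem h3 _)) (pow_mem h3 _)
  · rw [← hz]; ring

/-- if two local rings agree, so do their maximal ideals -/
lemma locMax_congr {R R' : Subalgebra ℂ K} {p : Ideal R} {p' : Ideal R'} [p.IsPrime]
    [p'.IsPrime] (h : locRing R p = locRing R' p') :
    locMax R p = locMax R' p' := by
  ext z
  constructor
  · intro hz
    have h1 : z ∈ locRing R' p' := by rw [← h]; exact locMax_sub hz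
    by_contra h2
    obtain ⟨h3, h4⟩ := (locMax_or_unit h1).resolve_left h2
    rw [← h] at h4
    exact unit_not_mem h3 h4 hz
  · intro hz
    have h1 : z ∈ locRing R p := by rw [h]; exact locMax_sub hz
    by_contra h2
    obtain ⟨h3, h4⟩ := (locMax_or_unit h1).resolve_left h2
    rw [h] at h4
    exact unit_not_mem h3 h4 hz

/-- An element in all localisations at maximal ideals is in the ring. -/
lemma mem_of_forall_loc {R : Subalgebra ℂ K} {z : K}
    (h : ∀ (p : Ideal R), p.IsPrime → z ∈ locRing R p) : z ∈ R := by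
  let I : Ideal R :=
    { carrier := {s | z * (s : K) ∈ R}
      add_mem' := fun {a b} ha hb => by
        show z * ((a + b : R) : K) ∈ R
        push_cast
        rw [mul_add]
        exact R.add_mem ha hb
      zero_mem' := by
        show z * ((0 : R) : K) ∈ R
        simp
      smul_mem' := fun c a ha => by
        show z * ((c * a : R) : K) ∈ R
        push_cast
        have := R.mul_mem c.2 ha
        convert this using 1
        ring }
  have hI : I = ⊤ := by
    by_contra hne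
    obtain ⟨m, hm, hIm⟩ := Ideal.exists_le_maximal I hne
    obtain ⟨a, s, hs, e⟩ := h m hm.isPrime
    apply hs
    apply hIm
    show z * (s : K) ∈ R
    rw [e]
    exact a.2
  have h1 : (1 : R) ∈ I := by rw [hI]; trivial
  have h2 : z * ((1 : R) : K) ∈ R := h1
  simpa using h2

end Pool.Agent.H81
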