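import Mathlib
import Pool.Agent.H81.Emb

/-! Ample anticanonical bundle for varieties given by homogeneous coordinates. -/

set_option linter.unusedSimpArgs false
set_option linter.unusedSectionVars false

noncomputable section

namespace Pool.Agent.H81

open Pool.Agent.H945R2

variable {K : Type} [Field K] [Algebra ℂ K]

/-- the Jacobian of `t` with respect to the vector fields `der`. -/
def jacD {n : ℕ} (der : Fin n → Derivation ℂ K K) (t : Fin n → K) : K :=
  Matrix.det (Matrix.of fun i j => der i (t j))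

lemma jac_step {n : ℕ} (der : Fin n → Derivation ℂ K K) (t t' : Fin n → K) (j : Fin n)
    (c : Fin n → K) (h1 : ∀ k, k ≠ j → t' k = t k)
    (h2 : ∀ D : Derivation ℂ K K, D (t' j) = ∑ k, c k * D (t k)) :
    jacD der t' = c j * jacD der t := by
  have h3 : (Matrix.of fun i k => der i (t' k)) =
      (Matrix.of fun i k => der i (t k)).updateCol j
        (fun i => ∑ k, c k • (Matrix.of fun i k => der i (t k)) i k) := by
    ext i k
    by_cases hk : k = j
    · subst hk
      simp [h2]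
    · rw [Matrix.updateCol_ne hk]
      simp [h1 k hk]
  rw [jacD, h3, Matrix.det_updateCol_sum]
  rfl

/-- the differential of `z` is a combination of the `d t k` with coefficients in `A`. -/
def DerIn {n : ℕ} (t : Fin n → K) (A : Subalgebra ℂ K) (z : K) : Prop :=
  ∃ c : Fin n → K, (∀ k, c k ∈ A) ∧ ∀ D : Derivation ℂ K K, D z = ∑ k, D (t k) * c k

lemma DerIn.self {n : ℕ} (t : Fin n → K) (A : Subalgebra ℂ K) (k : Fin n) : DerIn t A (t k) := by
  refine ⟨fun j => if j = k then 1 else 0, fun j => ?_, fun D => ?_⟩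
  · show (if j = k then (1 : K) else 0) ∈ A
    split_ifs
    · exact A.one_mem
    · exact A.zero_mem
  · simp

lemma DerIn.add {n : ℕ} {t : Fin n → K} {A : Subalgebra ℂ K} {y z : K} (hy : DerIn t A y)
    (hz : DerIn t A z) : DerIn t A (y + z) := by
  obtain ⟨c, hc, h⟩ := hy
  obtain ⟨d, hd, h'⟩ := hz
  refine ⟨fun k => c k + d k, fun k => A.add_mem (hc k) (hd k), fun D => ?_⟩
  rw [map_add, h, h', ← Finset.sum_add_distrib]
  exact Finset.sum_congr rfl fun k _ => by ring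

lemma DerIn.mul {n : ℕ} {t : Fin n → K} {A : Subalgebra ℂ K} {y z : K} (hyA : y ∈ A) (hzA : z ∈ A)
    (hy : DerIn t A y) (hz : DerIn t A z) : DerIn t A (y * z) := by
  obtain ⟨c, hc, h⟩ := hy
  obtain ⟨d, hd, h'⟩ := hz
  refine ⟨fun k => y * d k + z * c k, fun k => A.add_mem (A.mul_mem hyA (hd k))
    (A.mul_mem hzA (hc k)), fun D => ?_⟩
  rw [Derivation.leibniz, h, h', smul_eq_mul, smul_eq_mul, Finset.mul_sum, Finset.mul_sum,
    ← Finset.sum_add_distrib]
  exact Finset.sum_congr rfl fun k _ => by ring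

lemma DerIn.const {n : ℕ} (t : Fin n → K) (A : Subalgebra ℂ K) (r : ℂ) :
    DerIn t A (algebraMap ℂ K r) :=
  ⟨fun _ => 0, fun _ => A.zero_mem, fun D => by simp⟩

/-- `A` is closed under derivations in the sense of the coordinates. -/
def DerClosed {n : ℕ} (t : Fin n → K) (A : Subalgebra ℂ K) : Prop :=
  ∀ z ∈ A, DerIn t A z

lemma derIn_adjoin {n : ℕ} {t : Fin n → K} {A : Subalgebra ℂ K} {S : Set K}
    (hS : ∀ s ∈ S, s ∈ A ∧ DerIn t A s) {z : K} (hz : z ∈ Algebra.adjoin ℂ S) :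
    DerIn t A z := by
  suffices h : z ∈ A ∧ DerIn t A z from h.2
  induction hz using Algebra.adjoin_induction with
  | mem x hx => exact hS x hx
  | algebraMap r => exact ⟨A.algebraMap_mem r, DerIn.const t A r⟩
  | add x y _ _ hx hy => exact ⟨A.add_mem hx.1 hy.1, hx.2.add hy.2⟩
  | mul x y _ _ hx hy => exact ⟨A.mul_mem hx.1 hy.1, DerIn.mul hx.1 hy.1 hx.2 hy.2⟩

lemma derClosed_loc {n : ℕ} {t : Fin n → K} {R : Subalgebra ℂ K} {p : Ideal R} [p.IsPrime]
    (h : ∀ z ∈ R, DerIn t (locSub R p) z) : DerClosed t (locSub R p) := by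
  rintro z ⟨a, s, hs, e⟩
  obtain ⟨ca, hca, ea⟩ := h a a.2
  obtain ⟨cs, hcs, es⟩ := h s s.2
  have hs0 := ne_zero_of_not_mem hs
  have hz : z ∈ locSub R p := ⟨a, s, hs, e⟩
  have hsi : (s : K)⁻¹ ∈ locSub R p := loc_inv hs
  refine ⟨fun k => (ca k - z * cs k) * (s : K)⁻¹, fun k => ?_, fun D => ?_⟩
  · exact Subalgebra.mul_mem _ (Subalgebra.sub_mem _ (hca k)
      (Subalgebra.mul_mem _ hz (hcs k))) hsi
  · have h1 := congrArg D e
    rw [Derivation.leibniz, ea, es, smul_eq_mul, smul_eq_mul] at h1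
    have h2 : D z = (∑ k, D (t k) * ca k - z * ∑ k, D (t k) * cs k) * (s : K)⁻¹ := by
      rw [← h1]
      field_simp
      ring
    rw [h2, Finset.mul_sum, ← Finset.sum_sub_distrib, Finset.sum_mul]
    refine Finset.sum_congr rfl fun k _ => ?_
    ring

lemma jac_of_derClosed {n : ℕ} (der : Fin n → Derivation ℂ K K) {x : Fin n → K}
    {A : Subalgebra ℂ K} (h : DerClosed x A)
    {g : Fin n → K} (hg : ∀ j, g j ∈ A) : ∃ δ ∈ A, jacD der g = jacD der x * δ := by
  choose c hc hcD using fun j => h (g j) (hg j)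
  refine ⟨Matrix.det (Matrix.of fun k j => c j k), ?_, ?_⟩
  · have h1 : (Matrix.of fun k j => c j k) =
        (A.val : A →+* K).mapMatrix (Matrix.of fun k j => (⟨c j k, hc j k⟩ : A)) := by
      ext k j
      rfl
    rw [h1, ← RingHom.map_det]
    exact Subtype.property _
  · rw [jacD, jacD, ← Matrix.det_mul]
    congr 1
    ext i j
    rw [Matrix.mul_apply, Matrix.of_apply, hcD j]
    rfl

/-- A variety given by a space `E` of homogeneous coordinates. -/
structure EAtlas (n : ℕ) (K : Type) [Field K] [Algebra ℂ K] where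
  /-- the homogeneous coordinates -/
  E : Submodule ℂ K
  /-- index set of the charts -/
  ι : Type
  [fin : Finite ι]
  /-- the denominators -/
  l : ι → K
  mem : ∀ i, l i ∈ E
  ne : ∀ i, l i ≠ 0
  frac : ∀ i z, ∃ a b : ringOf E (l i), b ≠ 0 ∧ z * (b : K) = (a : K)
  smooth : ∀ i, Algebra.Smooth ℂ (ringOf E (l i))
  complete : ∀ V : ValuationSubring K, (∀ c : ℂ, algebraMap ℂ K c ∈ V) →
    ∃ i, ∀ f ∈ ringOf E (l i), f ∈ V
  /-- a basis of the derivations of the function field -/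
  der : Module.Basis (Fin n) K (Derivation ℂ K K)

namespace EAtlas

variable {n : ℕ} (A : EAtlas n K)

attribute [instance] EAtlas.fin

/-- The variety. -/
def toVariety : Variety where
  dim := n
  K := K
  ι := A.ι
  chart i := ringOf A.E (A.l i)
  frac i := isFrac_of (A.frac i)
  smooth := A.smooth
  separated i j V h h' := Set.Subset.antisymm
    (separated_aux (A.mem i) (A.ne i) (A.mem j) (A.ne j) V h)
    (separated_aux (A.mem j) (A.ne j) (A.mem i) (A.ne i) V h')
  complete := A.complete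
  der := A.der

lemma mem_points {B : Set K} : B ∈ A.toVariety.points ↔ ∃ i, ∃ p : Ideal (ringOf A.E (A.l i)),
    p.IsPrime ∧ B = locRing (ringOf A.E (A.l i)) p := Iff.rfl

/-- forms, in terms of `K`. -/
def formsK (B : Set K) : Set K :=
  {a | ∃ g : Fin n → K, (∀ j, g j ∈ B) ∧ a = jacD (fun i => A.der i) g}

lemma antican_of {s : K} (h : ∀ i, ∀ a ∈ A.formsK (ringOf A.E (A.l i)),
    s * a ∈ ringOf A.E (A.l i)) : s ∈ A.toVariety.antican 1 := by
  intro i a ha
  have h1 := h i (a 0) (ha 0)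
  have h2 : (∏ k, a k) = a 0 := Fin.prod_univ_one a
  rw [h2]
  exact h1

lemma nonvanish_iff {s : K} {B : Set K} :
    A.toVariety.NonvanishingAt 1 s B ↔ ∃ a ∈ A.formsK B, ∃ b ∈ B, s * a * b = 1 := by
  constructor
  · rintro ⟨a, ha, b, hb, h⟩
    have h2 : (∏ k, a k) = a 0 := Fin.prod_univ_one a
    rw [h2] at h
    exact ⟨a 0, ha 0, b, hb, h⟩
  · rintro ⟨a, ha, b, hb, h⟩
    refine ⟨fun _ => a, fun _ => ha, b, hb, ?_⟩
    have h2 : (∏ _k : Fin 1, a) = a := Fin.prod_univ_one _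
    exact (congrArg (fun t => s * t * b) h2).trans h

/-- At every point there are coordinates in which the canonical form has the divisor given by
`θ * l`. -/
def Canonical (θ : K) : Prop :=
  ∀ i (p : Ideal (ringOf A.E (A.l i))) [p.IsPrime], ∃ t : Fin n → K,
    (∀ k, t k ∈ locSub (ringOf A.E (A.l i)) p) ∧ DerClosed t (locSub (ringOf A.E (A.l i)) p) ∧
    ∃ ε, ε ∈ locRing (ringOf A.E (A.l i)) p ∧ ε ≠ 0 ∧ ε⁻¹ ∈ locRing (ringOf A.E (A.l i)) p ∧
      θ * A.l i * jacD (fun i => A.der i) t = ε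

variable {A} {θ : K} (hA : A.Canonical θ)

include hA in
lemma antican_aux {l : K} (hl : l ∈ A.E) : θ * l ∈ A.toVariety.antican 1 := by
  apply A.antican_of
  rintro i _ ⟨g, hg, rfl⟩
  apply mem_of_forall_loc
  intro p hp
  obtain ⟨t, ht, hcl, ε, hε, hε0, hεi, h⟩ := hA i p
  obtain ⟨δ, hδ, hδ'⟩ := jac_of_derClosed (fun i => A.der i) hcl
    (g := g) (fun j => coe_mem_loc (⟨g j, hg j⟩ : ringOf A.E (A.l i)))
  rw [hδ']
  have h1 : l / A.l i ∈ locRing (ringOf A.E (A.l i)) p :=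
    coe_mem_loc (⟨_, div_mem_ringOf hl⟩ : ringOf A.E (A.l i))
  have h2 := loc_mul (loc_mul h1 hε) hδ
  convert h2 using 1
  rw [← h]
  have := A.ne i
  field_simp

include hA in
lemma nonvanish_aux (i : A.ι) (p : Ideal (ringOf A.E (A.l i))) [p.IsPrime] :
    A.toVariety.NonvanishingAt 1 (θ * A.l i) (locRing (ringOf A.E (A.l i)) p) := by
  obtain ⟨t, ht, hcl, ε, hε, hε0, hεi, h⟩ := hA i p
  refine A.nonvanish_iff.2 ⟨_, ⟨t, ht, rfl⟩, ε⁻¹, hεi, ?_⟩
  rw [h, mul_inv_cancel₀ hε0]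

include hA in
lemma unit_of_nonvanish {l : K} (hl0 : l ≠ 0) (i : A.ι)
    (p : Ideal (ringOf A.E (A.l i))) [p.IsPrime]
    (h : A.toVariety.NonvanishingAt 1 (θ * l) (locRing (ringOf A.E (A.l i)) p)) :
    l / A.l i ∉ locMax (ringOf A.E (A.l i)) p := by
  obtain ⟨a, ⟨g, hg, rfl⟩, b, hb, hab⟩ := A.nonvanish_iff.1 h
  obtain ⟨t, ht, hcl, ε, hε, hε0, hεi, h⟩ := hA i p
  obtain ⟨δ, hδ, hδ'⟩ := jac_of_derClosed (fun i => A.der i) hcl (g := g) hg
  have hne := A.ne i
  have h2 : (l / A.l i) * (ε * δ * b) = 1 := by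
    rw [← hab, hδ', ← h]
    field_simp
  refine unit_not_mem (div_ne_zero hl0 hne) ?_
  rw [inv_eq_of_mul_eq_one_right h2]
  exact loc_mul (loc_mul hε hδ) hb

omit hA in
lemma fg (i : A.ι) : (ringOf A.E (A.l i)).FG := by
  rw [Subalgebra.fg_iff_finiteType]
  have := (A.smooth i).finitePresentation
  exact Algebra.FiniteType.of_finitePresentation

include hA in
theorem isFano : A.toVariety.IsFano := by
  intro B hB
  obtain ⟨i, p, hp, rfl⟩ := A.mem_points.1 hB
  refine ⟨1, le_rfl, θ * A.l i, antican_aux hA (A.mem i), nonvanish_aux hA i p,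
    ringOf A.E (A.l i), fg i, ?_⟩
  ext B'
  constructor
  · rintro ⟨hB', h⟩
    obtain ⟨j, q, hq, rfl⟩ := A.mem_points.1 hB'
    have h3 := unit_of_nonvanish hA (A.ne i) j q h
    obtain ⟨q', hq', hq'', _⟩ := transfer (A.mem j) (A.ne j) (A.mem i) (A.ne i) h3
    exact ⟨q', hq', hq''⟩
  · rintro ⟨q, hq, rfl⟩
    exact ⟨A.mem_points.2 ⟨i, q, hq, rfl⟩, @nonvanish_aux _ _ _ _ A θ hA i q hq⟩

/-! ### the embedding -/

variable (A)

lemma ringOf_eq_adjoin {N : ℕ} {s : Fin (N + 1) → K}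
    (hs : A.E = Submodule.span ℂ (Set.range s)) (l : K) :
    ringOf A.E l = Algebra.adjoin ℂ (Set.range fun j => s j / l) := by
  apply le_antisymm
  · refine ringOf_le fun e he => ?_
    rw [hs] at he
    induction he using Submodule.span_induction with
    | mem z hz => obtain ⟨j, rfl⟩ := hz; exact Algebra.subset_adjoin ⟨j, rfl⟩
    | zero => rw [zero_div]; exact Subalgebra.zero_mem _
    | add a b _ _ ha hb => rw [add_div]; exact Subalgebra.add_mem _ ha hb
    | smul c a _ ha => rw [smul_div_assoc]; exact Subalgebra.smul_mem _ ha c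
  · rw [Algebra.adjoin_le_iff]
    rintro _ ⟨j, rfl⟩
    refine div_mem_ringOf ?_
    rw [hs]
    exact Submodule.subset_span ⟨j, rfl⟩

lemma exists_unit {N : ℕ} {s : Fin (N + 1) → K}
    (hs : A.E = Submodule.span ℂ (Set.range s)) {l : K} (hl : l ∈ A.E) (hl0 : l ≠ 0)
    (p : Ideal (ringOf A.E l)) [p.IsPrime] :
    ∃ i, s i / l ∉ locMax (ringOf A.E l) p := by
  by_contra hcon
  push Not at hcon
  have h1 : ∀ e ∈ A.E, e / l ∈ locMax (ringOf A.E l) p := by
    intro e he
    rw [hs] at he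
    induction he using Submodule.span_induction with
    | mem z hz => obtain ⟨j, rfl⟩ := hz; exact hcon j
    | zero => rw [zero_div]; exact ⟨0, 1, p.zero_mem, one_not_mem, by simp⟩
    | add a b _ _ ha hb => rw [add_div]; exact locMax_add ha hb
    | smul c a _ ha =>
      rw [Algebra.smul_def, mul_div_assoc]
      exact locMax_mul ((locSub (ringOf A.E l) p).algebraMap_mem c) ha
  have h2 := h1 l hl
  rw [div_self hl0] at h2
  exact one_not_mem_locMax h2

lemma emb_aux {N : ℕ} {s : Fin (N + 1) → K}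
    (hs : A.E = Submodule.span ℂ (Set.range s)) (k : A.ι) (p : Ideal (ringOf A.E (A.l k)))
    [p.IsPrime] :
    ∃ i, s i ≠ 0 ∧ (∀ j, s j / s i ∈ locRing (ringOf A.E (A.l k)) p) ∧
    ∀ f ∈ locRing (ringOf A.E (A.l k)) p,
      ∃ a ∈ Algebra.adjoin ℂ (Set.range fun j => s j / s i),
      ∃ b ∈ Algebra.adjoin ℂ (Set.range fun j => s j / s i),
        b ≠ 0 ∧ b⁻¹ ∈ locRing (ringOf A.E (A.l k)) p ∧ f = a / b := by
  obtain ⟨i, hi⟩ := A.exists_unit hs (A.mem k) (A.ne k) p
  have hsE : ∀ j, s j ∈ A.E := fun j => by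
    rw [hs]
    exact Submodule.subset_span ⟨j, rfl⟩
  have hdl : ∀ j, s j / A.l k ∈ locRing (ringOf A.E (A.l k)) p := fun j =>
    coe_mem_loc (⟨_, div_mem_ringOf (hsE j)⟩ : ringOf A.E (A.l k))
  have hi1 := hdl i
  obtain ⟨h0, hinv⟩ := (locMax_or_unit hi1).resolve_left hi
  have hs0 : s i ≠ 0 := by
    intro h
    rw [h, zero_div] at h0
    exact h0 rfl
  have hne := A.ne k
  have hinv' : A.l k / s i ∈ locRing (ringOf A.E (A.l k)) p := by rwa [inv_div] at hinv
  refine ⟨i, hs0, fun j => ?_, ?_⟩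
  · have h1 := loc_mul (hdl j) hinv'
    rwa [div_mul_div_cancel₀ hne] at h1
  · rintro f ⟨a, b, hb, hf⟩
    obtain ⟨n, hn⟩ := ringOf_le_powSub (l' := s i) (A.mem k) hne a.2
    obtain ⟨m, hm⟩ := ringOf_le_powSub (l' := s i) (A.mem k) hne b.2
    have hu : A.l k / s i ∈ ringOf A.E (s i) := div_mem_ringOf (A.mem k)
    have hu0 : A.l k / s i ≠ 0 := div_ne_zero hne hs0
    have hb0 := ne_zero_of_not_mem hb
    have hadj := A.ringOf_eq_adjoin hs (s i)
    refine ⟨_, hadj ▸ Subalgebra.mul_mem _ hn (Subalgebra.pow_mem _ hu m), _,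
      hadj ▸ Subalgebra.mul_mem _ hm (Subalgebra.pow_mem _ hu n), ?_, ?_, ?_⟩
    · exact mul_ne_zero (mul_ne_zero hb0 (pow_ne_zero _ hu0)) (pow_ne_zero _ hu0)
    · rw [mul_inv, mul_inv, ← inv_pow, ← inv_pow, inv_div]
      have h3 : ∀ k' : ℕ, (s i / A.l k) ^ k' ∈ locSub (ringOf A.E (A.l k)) p := fun k' =>
        Subalgebra.pow_mem _ hi1 k'
      exact loc_mul (loc_mul (loc_inv hb) (h3 _)) (h3 _)
    · rw [← hf]
      field_simp

/-- the embedding in the projective space -/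
def embedding {N : ℕ} (s : Fin (N + 1) → K)
    (hs : A.E = Submodule.span ℂ (Set.range s)) : A.toVariety.Embedding N where
  s := s
  closed := by
    intro B hB
    obtain ⟨k, p, hp, rfl⟩ := A.mem_points.1 hB
    exact A.emb_aux hs k p

end EAtlas

end Pool.Agent.H81
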