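import Mathlib
import Pool.Agent.H81.Fano

/-! Affine hypersurfaces `w² = Φ(x)`. -/

set_option linter.unusedSimpArgs false
set_option linter.unusedSectionVars false

noncomputable section

namespace Pool.Agent.H81

open Pool.Agent.H945R2 MvPolynomial

variable {K : Type} [Field K] [Algebra ℂ K]

lemma D_aeval {n : ℕ} (D : Derivation ℂ K K) (x : Fin n → K) (P : MvPolynomial (Fin n) ℂ) :
    D (aeval x P) = ∑ k, aeval x (pderiv k P) * D (x k) := by
  induction P using MvPolynomial.induction_on with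
  | C a => simp
  | add p q hp hq =>
    simp only [map_add, hp, hq, add_mul, Finset.sum_add_distrib]
  | mul_X p i hp =>
    have h1 : ∀ k, aeval x (pderiv k (p * X i)) * D (x k) =
        x i * (aeval x (pderiv k p) * D (x k)) + (if k = i then aeval x p * D (x k) else 0) := by
      intro k
      rw [pderiv_mul, map_add, map_mul, map_mul, aeval_X]
      split_ifs with hk
      · subst hk
        rw [pderiv_X_self, map_one]
        ring
      · rw [pderiv_X_of_ne (Ne.symm hk), map_zero]
        ring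
    rw [Finset.sum_congr rfl fun k _ => h1 k, Finset.sum_add_distrib, ← Finset.mul_sum, ← hp,
      Finset.sum_ite_eq' Finset.univ i, if_pos (Finset.mem_univ i), map_mul, aeval_X,
      Derivation.leibniz, smul_eq_mul, smul_eq_mul]
    ring

lemma totalDegree_pderiv_lt {n : ℕ} (P : MvPolynomial (Fin n) ℂ) (k : Fin n)
    (h : pderiv k P ≠ 0) : (pderiv k P).totalDegree < P.totalDegree := by
  obtain ⟨m, hm, hm'⟩ : ∃ m ∈ (pderiv k P).support, m.degree = (pderiv k P).totalDegree := by
    have h1 : (pderiv k P).support.Nonempty := by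
      rwa [Finset.nonempty_iff_ne_empty, Ne, support_eq_empty]
    obtain ⟨m, hm, h2⟩ := Finset.exists_mem_eq_sup _ h1 (fun s : Fin n →₀ ℕ => s.sum fun _ e => e)
    exact ⟨m, hm, h2.symm⟩
  have h3 : coeff (m + Finsupp.single k 1) P ≠ 0 := by
    intro h4
    rw [mem_support_iff, coeff_pderiv, h4] at hm
    simp at hm
  have h5 : (m + Finsupp.single k 1).degree ≤ P.totalDegree := le_totalDegree (mem_support_iff.2 h3)
  rw [map_add, Finsupp.degree_single, hm'] at h5
  omega

lemma eq_C_of_pderiv {n : ℕ} (P : MvPolynomial (Fin n) ℂ) (h : ∀ k, pderiv k P = 0) :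
    P = C (coeff 0 P) := by
  ext m
  rw [coeff_C]
  split_ifs with hm
  · rw [← hm]
  · obtain ⟨k, hk⟩ : ∃ k, m k ≠ 0 := by
      by_contra h1
      push Not at h1
      exact hm (Finsupp.ext fun k => (h1 k).symm)
    have h2 := congrArg (coeff (m - Finsupp.single k 1)) (h k)
    rw [coeff_pderiv, coeff_zero] at h2
    have h3 : m - Finsupp.single k 1 + Finsupp.single k 1 = m := by
      apply tsub_add_cancel_of_le
      rw [Finsupp.single_le_iff]
      omega
    rw [h3] at h2
    rcases mul_eq_zero.1 h2 with h4 | h4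
    · exact h4
    · exfalso
      exact Nat.cast_add_one_ne_zero _ h4

theorem algInd_of_jac {n : ℕ} (der : Fin n → Derivation ℂ K K) (x : Fin n → K)
    (h : jacD der x ≠ 0) : AlgebraicIndependent ℂ x := by
  rw [algebraicIndependent_iff]
  intro P
  induction hn : P.totalDegree using Nat.strong_induction_on generalizing P with
  | _ n ih =>
    intro hP
    have h1 : ∀ k, aeval x (pderiv k P) = 0 := by
      have h2 : Matrix.mulVec (Matrix.of fun i j => der i (x j)) (fun k => aeval x (pderiv k P)) = 0 := by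
        funext i
        have h3 := D_aeval (der i) x P
        rw [hP, map_zero] at h3
        simp only [Matrix.mulVec, dotProduct, Matrix.of_apply, Pi.zero_apply]
        rw [h3]
        exact Finset.sum_congr rfl fun k _ => mul_comm _ _
      have h4 := Matrix.eq_zero_of_mulVec_eq_zero h h2
      intro k
      exact congrFun h4 k
    have h5 : ∀ k, pderiv k P = 0 := by
      intro k
      by_contra h6
      have h7 := totalDegree_pderiv_lt P k h6
      exact h6 (ih _ (hn ▸ h7) _ rfl (h1 k))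
    rw [eq_C_of_pderiv P h5] at hP ⊢
    rw [aeval_C, map_eq_zero] at hP
    rw [hP, C_0]

/-- first order Taylor expansion -/
lemma taylor {n : ℕ} {B : Type} [CommRing B] [Algebra ℂ B] (y h : Fin n → B)
    (hh : ∀ i j, h i * h j = 0) (P : MvPolynomial (Fin n) ℂ) :
    aeval (fun k => y k + h k) P = aeval y P + ∑ k, h k * aeval y (pderiv k P) := by
  induction P using MvPolynomial.induction_on with
  | C a => simp
  | add p q hp hq =>
    simp only [map_add, hp, hq, mul_add, Finset.sum_add_distrib]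
    ring
  | mul_X p i hp =>
    have h1 : ∀ k, h k * aeval y (pderiv k (p * X i)) =
        y i * (h k * aeval y (pderiv k p)) + (if k = i then h k * aeval y p else 0) := by
      intro k
      rw [pderiv_mul, map_add, map_mul, map_mul, aeval_X]
      split_ifs with hk
      · subst hk
        rw [pderiv_X_self, map_one]
        ring
      · rw [pderiv_X_of_ne (Ne.symm hk), map_zero]
        ring
    have h2 : (∑ k, h k * aeval y (pderiv k p)) * h i = 0 := by
      rw [Finset.sum_mul]
      apply Finset.sum_eq_zero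
      intro k _
      have := hh k i
      linear_combination (aeval y (pderiv k p)) * this
    rw [Finset.sum_congr rfl fun k _ => h1 k, Finset.sum_add_distrib, ← Finset.mul_sum,
      Finset.sum_ite_eq' Finset.univ i, if_pos (Finset.mem_univ i), map_mul, aeval_X, hp, map_mul,
      aeval_X]
    linear_combination h2

/-- The data of an affine hypersurface `w² = Φ(x)` in the function field. -/
structure DC (n : ℕ) (K : Type) [Field K] [Algebra ℂ K] where
  /-- the coordinates of the base -/
  x : Fin n → K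
  /-- the square root -/
  w : K
  /-- the equation -/
  Φ : MvPolynomial (Fin n) ℂ
  rel : w ^ 2 = aeval x Φ
  ind : AlgebraicIndependent ℂ x
  nsq : ∀ h : MvPolynomial (Fin n) ℂ, Φ ≠ h ^ 2

namespace DC

variable {n : ℕ} (A : DC n K)

lemma lin {f g : MvPolynomial (Fin n) ℂ} (h : aeval A.x f + aeval A.x g * A.w = 0) :
    f = 0 ∧ g = 0 := by
  have hinj := A.ind
  rw [algebraicIndependent_iff_injective_aeval] at hinj
  have h1 : f ^ 2 = g ^ 2 * A.Φ := by
    apply hinj
    rw [map_pow, map_mul, map_pow, ← A.rel]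
    linear_combination (aeval A.x f - aeval A.x g * A.w) * h
  by_cases hg : g = 0
  · refine ⟨?_, hg⟩
    rw [hg] at h1
    simpa using h1
  · exfalso
    have h2 : g ^ 2 ∣ f ^ 2 := ⟨_, h1⟩
    rw [IsIntegrallyClosed.pow_dvd_pow_iff two_ne_zero] at h2
    obtain ⟨k, rfl⟩ := h2
    apply A.nsq k
    have h3 : g ^ 2 ≠ 0 := pow_ne_zero _ hg
    apply mul_left_cancel₀ h3
    rw [← h1]
    ring

lemma w_ne : A.w ≠ 0 := by
  intro h
  have h1 := A.lin (f := 0) (g := 1) (by rw [h]; simp)
  exact one_ne_zero h1.2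

/-- the coordinate ring -/
def R : Subalgebra ℂ K := Algebra.adjoin ℂ (Set.range (Fin.cons A.w A.x : Fin (n + 1) → K))

lemma w_mem : A.w ∈ A.R := Algebra.subset_adjoin ⟨0, rfl⟩

lemma x_mem (k : Fin n) : A.x k ∈ A.R := Algebra.subset_adjoin ⟨k.succ, rfl⟩

lemma aeval_mem (f : MvPolynomial (Fin n) ℂ) : aeval A.x f ∈ A.R := by
  induction f using MvPolynomial.induction_on with
  | C a => rw [aeval_C]; exact Subalgebra.algebraMap_mem _ a
  | add p q hp hq => rw [map_add]; exact Subalgebra.add_mem _ hp hq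
  | mul_X p i hp => rw [map_mul, aeval_X]; exact Subalgebra.mul_mem _ hp (A.x_mem i)

/-- `w` as an element of the coordinate ring -/
def wr : A.R := ⟨A.w, A.w_mem⟩
/-- `x k` as an element of the coordinate ring -/
def xr (k : Fin n) : A.R := ⟨A.x k, A.x_mem k⟩

lemma coe_aeval (f : MvPolynomial (Fin n) ℂ) : ((aeval A.xr f : A.R) : K) = aeval A.x f := by
  have : (A.R.val : A.R →ₐ[ℂ] K) (aeval A.xr f) = aeval A.x f := by
    rw [comp_aeval_apply]
    rfl
  exact this

lemma rel' : A.wr ^ 2 = aeval A.xr A.Φ := by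
  apply Subtype.ext
  rw [coe_aeval, ← A.rel]
  rfl

/-- normal form of polynomials modulo the equation -/
lemma nf (Φ : MvPolynomial (Fin n) ℂ) (p : MvPolynomial (Fin (n + 1)) ℂ) :
    ∃ f g : MvPolynomial (Fin n) ℂ, ∀ (B : Type) [CommRing B] [Algebra ℂ B] (y : Fin n → B)
      (v : B), v ^ 2 = aeval y Φ →
        aeval (Fin.cons v y : Fin (n + 1) → B) p = aeval y f + aeval y g * v := by
  induction p using MvPolynomial.induction_on with
  | C a => exact ⟨C a, 0, fun B _ _ y v _ => by simp⟩
  | add p q hp hq =>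
    obtain ⟨f, g, h⟩ := hp
    obtain ⟨f', g', h'⟩ := hq
    refine ⟨f + f', g + g', fun B _ _ y v hv => ?_⟩
    rw [map_add, h B y v hv, h' B y v hv, map_add, map_add]
    ring
  | mul_X p i hp =>
    obtain ⟨f, g, h⟩ := hp
    refine Fin.cases ?_ (fun k => ?_) i
    · refine ⟨g * Φ, f, fun B _ _ y v hv => ?_⟩
      rw [map_mul, h B y v hv, aeval_X, Fin.cons_zero, map_mul, ← hv]
      ring
    · refine ⟨f * X k, g * X k, fun B _ _ y v hv => ?_⟩
      rw [map_mul, h B y v hv, aeval_X, Fin.cons_succ, map_mul, map_mul, aeval_X]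
      ring

lemma exists_rep {z : K} (hz : z ∈ A.R) :
    ∃ f g : MvPolynomial (Fin n) ℂ, z = aeval A.x f + aeval A.x g * A.w := by
  have h1 := hz
  rw [R, Algebra.adjoin_range_eq_range_aeval] at h1
  obtain ⟨p, rfl⟩ := h1
  obtain ⟨f, g, h⟩ := nf A.Φ p
  exact ⟨f, g, h K A.x A.w A.rel⟩

/-- the presentation -/
def π : MvPolynomial (Fin (n + 1)) ℂ →ₐ[ℂ] A.R :=
  aeval (Fin.cons A.wr A.xr : Fin (n + 1) → A.R)

lemma coe_π (p : MvPolynomial (Fin (n + 1)) ℂ) :
    (A.π p : K) = aeval (Fin.cons A.w A.x : Fin (n + 1) → K) p := by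
  have : (A.R.val : A.R →ₐ[ℂ] K) (A.π p) = aeval (Fin.cons A.w A.x : Fin (n + 1) → K) p := by
    rw [π, comp_aeval_apply]
    congr 2
    funext i
    refine Fin.cases rfl (fun k => rfl) i
  exact this

lemma π_surjective : Function.Surjective A.π := by
  rintro ⟨z, hz⟩
  have h1 := hz
  rw [R, Algebra.adjoin_range_eq_range_aeval] at h1
  obtain ⟨p, hp⟩ := h1
  exact ⟨p, Subtype.ext ((A.coe_π p).trans hp)⟩

lemma π_ker {p : MvPolynomial (Fin (n + 1)) ℂ} (hp : A.π p = 0) {B : Type} [CommRing B]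
    [Algebra ℂ B] {y : Fin n → B} {v : B} (hv : v ^ 2 = aeval y A.Φ) :
    aeval (Fin.cons v y : Fin (n + 1) → B) p = 0 := by
  obtain ⟨f, g, h⟩ := nf A.Φ p
  have h1 := A.coe_π p
  rw [hp, h K A.x A.w A.rel] at h1
  obtain ⟨rfl, rfl⟩ := A.lin h1.symm
  rw [h B y v hv]
  simp

/-- Homomorphisms from the coordinate ring. -/
def lift {B : Type} [CommRing B] [Algebra ℂ B] (y : Fin n → B) (v : B)
    (hv : v ^ 2 = aeval y A.Φ) : A.R →ₐ[ℂ] B :=
  (Ideal.Quotient.liftₐ (RingHom.ker A.π) (aeval (Fin.cons v y : Fin (n + 1) → B))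
    fun _ hp => A.π_ker hp hv).comp
    (Ideal.quotientKerAlgEquivOfSurjective A.π_surjective).symm.toAlgHom

lemma lift_π {B : Type} [CommRing B] [Algebra ℂ B] {y : Fin n → B} {v : B}
    (hv : v ^ 2 = aeval y A.Φ) (p : MvPolynomial (Fin (n + 1)) ℂ) :
    A.lift y v hv (A.π p) = aeval (Fin.cons v y : Fin (n + 1) → B) p := by
  have h1 : (Ideal.quotientKerAlgEquivOfSurjective A.π_surjective).symm (A.π p) =
      Ideal.Quotient.mk _ p := by
    rw [AlgEquiv.symm_apply_eq]
    rfl
  show (Ideal.Quotient.liftₐ (RingHom.ker A.π) (aeval (Fin.cons v y : Fin (n + 1) → B))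
    fun _ hp => A.π_ker hp hv) ((Ideal.quotientKerAlgEquivOfSurjective A.π_surjective).symm (A.π p))
      = _
  rw [h1]
  rfl

@[simp] lemma lift_w {B : Type} [CommRing B] [Algebra ℂ B] {y : Fin n → B} {v : B}
    (hv : v ^ 2 = aeval y A.Φ) : A.lift y v hv A.wr = v := by
  have h := A.lift_π hv (X 0)
  rw [aeval_X, Fin.cons_zero, π, aeval_X, Fin.cons_zero] at h
  exact h

@[simp] lemma lift_x {B : Type} [CommRing B] [Algebra ℂ B] {y : Fin n → B} {v : B}
    (hv : v ^ 2 = aeval y A.Φ) (k : Fin n) : A.lift y v hv (A.xr k) = y k := by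
  have h := A.lift_π hv (X k.succ)
  rw [aeval_X, Fin.cons_succ, π, aeval_X, Fin.cons_succ] at h
  exact h

lemma hom_ext {B : Type} [Semiring B] [Algebra ℂ B] {f g : A.R →ₐ[ℂ] B} (hw : f A.wr = g A.wr)
    (hx : ∀ k, f (A.xr k) = g (A.xr k)) : f = g := by
  ext z
  obtain ⟨p, rfl⟩ := A.π_surjective z
  have : f.comp A.π = g.comp A.π := by
    apply MvPolynomial.algHom_ext
    intro i
    simp only [AlgHom.comp_apply, π, aeval_X]
    refine Fin.cases ?_ (fun k => ?_) i
    · simpa using hw
    · simpa using hx k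
  exact DFunLike.congr_fun this p

lemma finiteType : Algebra.FiniteType ℂ A.R := by
  rw [← Subalgebra.fg_iff_finiteType]
  exact ⟨(Set.finite_range (Fin.cons A.w A.x : Fin (n + 1) → K)).toFinset, by simp [R]⟩

/-- The Jacobian criterion. -/
def Cert (Φ : MvPolynomial (Fin n) ℂ) : Prop :=
  ∀ (B : Type) [CommRing B] [Algebra ℂ B] (y : Fin n → B) (v : B), ∃ (c₀ : B) (c : Fin n → B)
    (e : B), 2 * v * c₀ - ∑ k, c k * aeval y (pderiv k Φ) = 1 + e * (v ^ 2 - aeval y Φ)

lemma smooth (hc : Cert A.Φ) : Algebra.Smooth ℂ A.R := by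
  have h1 : Algebra.FinitePresentation ℂ A.R := by
    have := A.finiteType
    exact Algebra.FinitePresentation.of_finiteType.1 this
  refine ⟨?_, h1⟩
  rw [Algebra.FormallySmooth.iff_comp_surjective]
  intro B _ _ I hI f
  obtain ⟨v, hv⟩ := Ideal.Quotient.mk_surjective (f A.wr)
  choose y hy using fun k => Ideal.Quotient.mk_surjective (f (A.xr k))
  obtain ⟨c₀, c, e, h⟩ := hc B y v
  have hmk : ∀ q : MvPolynomial (Fin n) ℂ, Ideal.Quotient.mk I (aeval y q) =
      f (aeval A.xr q) := by
    intro q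
    have e1 : (Ideal.Quotient.mkₐ ℂ I) (aeval y q) =
        aeval (fun k => Ideal.Quotient.mkₐ ℂ I (y k)) q := by
      rw [comp_aeval_apply]
    have e2 : f (aeval A.xr q) = aeval (fun k => f (A.xr k)) q := by
      rw [comp_aeval_apply]
    rw [e2]
    refine e1.trans ?_
    congr 2
    funext k
    exact hy k
  set φ := v ^ 2 - aeval y A.Φ with hφ
  have hφI : φ ∈ I := by
    rw [← Ideal.Quotient.eq_zero_iff_mem, hφ, map_sub, map_pow, hv, hmk, ← map_pow, A.rel',
      sub_self]
  have hφ2 : φ * φ = 0 := by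
    have : φ * φ ∈ I ^ 2 := by rw [pow_two]; exact Ideal.mul_mem_mul hφI hφI
    rw [hI] at this
    exact this
  have hrel : (v + -(c₀ * φ)) ^ 2 = aeval (fun k => y k + -(c k * φ)) A.Φ := by
    rw [taylor]
    · have h3 : ∑ k, -(c k * φ) * aeval y (pderiv k A.Φ) =
          -(φ * ∑ k, c k * aeval y (pderiv k A.Φ)) := by
        rw [Finset.mul_sum, ← Finset.sum_neg_distrib]
        exact Finset.sum_congr rfl fun k _ => by ring
      rw [h3]
      linear_combination (c₀ ^ 2 - e) * hφ2 + (-φ) * h + hφ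
    · intro i j
      linear_combination (c i * c j) * hφ2
  refine ⟨A.lift _ _ hrel, ?_⟩
  apply A.hom_ext
  · rw [AlgHom.comp_apply, lift_w]
    show Ideal.Quotient.mk I _ = _
    rw [map_add, hv]
    have : Ideal.Quotient.mk I (-(c₀ * φ)) = 0 :=
      Ideal.Quotient.eq_zero_iff_mem.2 (I.neg_mem (I.mul_mem_left _ hφI))
    rw [this, add_zero]
  · intro k
    rw [AlgHom.comp_apply, lift_x]
    show Ideal.Quotient.mk I _ = _
    rw [map_add, hy]
    have : Ideal.Quotient.mk I (-(c k * φ)) = 0 :=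
      Ideal.Quotient.eq_zero_iff_mem.2 (I.neg_mem (I.mul_mem_left _ hφI))
    rw [this, add_zero]

lemma D_w (D : Derivation ℂ K K) :
    2 * A.w * D A.w = ∑ k, aeval A.x (pderiv k A.Φ) * D (A.x k) := by
  rw [← D_aeval, ← A.rel, pow_two, Derivation.leibniz, smul_eq_mul]
  ring

end DC

end Pool.Agent.H81
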