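import Mathlib
import Pool.Agent.H81.DC

/-! Canonical forms on affine hypersurfaces `w² = Φ(x)` and on affine spaces. -/

set_option linter.unusedSimpArgs false
set_option linter.unusedSectionVars false

noncomputable section

namespace Pool.Agent.H81

open Pool.Agent.H945R2 MvPolynomial

variable {K : Type} [Field K] [Algebra ℂ K]

/-- local coordinates in which the canonical form is `ζ⁻¹` times a unit. -/
def LocCan {n : ℕ} (der : Fin n → Derivation ℂ K K) (ζ : K) (R : Subalgebra ℂ K) (p : Ideal R)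
    [p.IsPrime] : Prop :=
  ∃ t : Fin n → K, (∀ k, t k ∈ locSub R p) ∧ DerClosed t (locSub R p) ∧
    ∃ ε, ε ∈ locRing R p ∧ ε ≠ 0 ∧ ε⁻¹ ∈ locRing R p ∧ ζ * jacD der t = ε

lemma mem_loc_of {R : Subalgebra ℂ K} (p : Ideal R) [p.IsPrime] {z : K} (hz : z ∈ R) :
    z ∈ locRing R p := coe_mem_loc (⟨z, hz⟩ : R)

/-- the case of an affine space -/
lemma locCan_affine {n : ℕ} (der : Fin n → Derivation ℂ K K) {ζ : K} {x : Fin n → K}
    {κ : ℂ} (hκ : κ ≠ 0) (hJ : ζ * jacD der x = algebraMap ℂ K κ)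
    {R : Subalgebra ℂ K} (hR : R = Algebra.adjoin ℂ (Set.range x)) (p : Ideal R) [p.IsPrime] :
    LocCan der ζ R p := by
  have hx : ∀ k, x k ∈ R := fun k => by
    rw [hR]
    exact Algebra.subset_adjoin ⟨k, rfl⟩
  refine ⟨x, fun k => mem_loc_of p (hx k), ?_, algebraMap ℂ K κ, mem_loc_of p (R.algebraMap_mem κ),
    (map_ne_zero _).2 hκ, ?_, hJ⟩
  · refine derClosed_loc fun z hz => ?_
    rw [hR] at hz
    refine derIn_adjoin (S := Set.range x) ?_ hz
    rintro _ ⟨k, rfl⟩
    exact ⟨mem_loc_of p (hx k), DerIn.self x _ k⟩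
  · rw [← map_inv₀]
    exact mem_loc_of p (R.algebraMap_mem _)

namespace DC

variable {n : ℕ} (A : DC n K)

lemma locCan (hc : Cert A.Φ) (der : Fin n → Derivation ℂ K K) {ζ : K} {κ : ℂ} (hκ : κ ≠ 0)
    (hJ : ζ * jacD der A.x = algebraMap ℂ K κ * (2 * A.w))
    {R : Subalgebra ℂ K} (hR : R = A.R) (p : Ideal R) [p.IsPrime] : LocCan der ζ R p := by
  subst hR
  have hin : ∀ z ∈ A.R, z ∈ locSub A.R p := fun z hz => mem_loc_of p hz
  have hw0 := A.w_ne
  have h20 : (2 : K) ≠ 0 := by
    have : (2 : K) = algebraMap ℂ K 2 := (map_ofNat _ 2).symm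
    rw [this]
    exact (map_ne_zero _).2 two_ne_zero
  have hκ0 : algebraMap ℂ K κ ≠ 0 := (map_ne_zero _).2 hκ
  have hκi : (algebraMap ℂ K κ)⁻¹ ∈ locSub A.R p := by
    rw [← map_inv₀]
    exact Subalgebra.algebraMap_mem _ _
  have h2i : (2 : K)⁻¹ ∈ locSub A.R p := by
    have : (2 : K)⁻¹ = algebraMap ℂ K 2⁻¹ := by rw [map_inv₀, map_ofNat]
    rw [this]
    exact Subalgebra.algebraMap_mem _ _
  have hΦ : ∀ k, aeval A.x (pderiv k A.Φ) ∈ locSub A.R p := fun k => hin _ (A.aeval_mem _)
  by_cases hw : A.wr ∈ p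
  · obtain ⟨m, hm⟩ : ∃ m, aeval A.xr (pderiv m A.Φ) ∉ p := by
      by_contra hcon
      push Not at hcon
      obtain ⟨c₀, c, e, h⟩ := hc A.R A.xr A.wr
      rw [A.rel', sub_self, mul_zero, add_zero] at h
      apply one_not_mem (R := A.R) (p := p)
      rw [← h]
      refine p.sub_mem ?_ (Ideal.sum_mem _ fun k _ => p.mul_mem_left _ (hcon k))
      exact p.mul_mem_right _ (p.mul_mem_left _ hw)
    have hm0 : aeval A.x (pderiv m A.Φ) ≠ 0 := by
      rw [← A.coe_aeval]
      exact ne_zero_of_not_mem hm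
    have hmi : (aeval A.x (pderiv m A.Φ))⁻¹ ∈ locSub A.R p := by
      rw [← A.coe_aeval]
      exact loc_inv hm
    let t : Fin n → K := Function.update A.x m A.w
    have htm : t m = A.w := Function.update_self _ _ _
    have htk : ∀ k, k ≠ m → t k = A.x k := fun k hk => Function.update_of_ne hk _ _
    have hDw := A.D_w
    have hDxm : DerIn t (locSub A.R p) (A.x m) := by
      refine ⟨fun k => if k = m then 2 * A.w * (aeval A.x (pderiv m A.Φ))⁻¹ else
        -(aeval A.x (pderiv k A.Φ) * (aeval A.x (pderiv m A.Φ))⁻¹), fun k => ?_, fun D => ?_⟩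
      · show (if k = m then _ else _) ∈ _
        split_ifs
        · refine Subalgebra.mul_mem _ (Subalgebra.mul_mem _ ?_ (hin _ A.w_mem)) hmi
          have : (2 : K) = algebraMap ℂ K 2 := (map_ofNat _ 2).symm
          rw [this]
          exact Subalgebra.algebraMap_mem _ _
        · exact Subalgebra.neg_mem _ (Subalgebra.mul_mem _ (hΦ k) hmi)
      · rw [← Finset.add_sum_erase Finset.univ _ (Finset.mem_univ m)]
        simp only [if_true, htm]
        have h1 : ∑ k ∈ Finset.univ.erase m, D (t k) * (if k = m then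
            2 * A.w * (aeval A.x (pderiv m A.Φ))⁻¹ else
            -(aeval A.x (pderiv k A.Φ) * (aeval A.x (pderiv m A.Φ))⁻¹)) =
            -((∑ k ∈ Finset.univ.erase m, aeval A.x (pderiv k A.Φ) * D (A.x k)) *
              (aeval A.x (pderiv m A.Φ))⁻¹) := by
          rw [Finset.sum_mul, ← Finset.sum_neg_distrib]
          refine Finset.sum_congr rfl fun k hk => ?_
          have hk' := Finset.ne_of_mem_erase hk
          rw [if_neg hk', htk k hk']
          ring
        rw [h1]
        have h2 := hDw D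
        rw [← Finset.add_sum_erase Finset.univ _ (Finset.mem_univ m)] at h2
        field_simp
        linear_combination -h2
    refine ⟨t, fun k => ?_, ?_, algebraMap ℂ K κ * aeval A.x (pderiv m A.Φ), ?_, ?_, ?_, ?_⟩
    · by_cases hk : k = m
      · rw [hk, htm]
        exact hin _ A.w_mem
      · rw [htk k hk]
        exact hin _ (A.x_mem k)
    · refine derClosed_loc fun z hz => ?_
      refine derIn_adjoin (S := Set.range (Fin.cons A.w A.x : Fin (n + 1) → K)) ?_ hz
      rintro _ ⟨k, rfl⟩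
      refine Fin.cases ?_ (fun k => ?_) k
      · refine ⟨hin _ A.w_mem, ?_⟩
        show DerIn t (locSub A.R p) A.w
        rw [← htm]
        exact DerIn.self t _ m
      · refine ⟨hin _ (A.x_mem k), ?_⟩
        show DerIn t (locSub A.R p) (A.x k)
        by_cases hk : k = m
        · rw [hk]
          exact hDxm
        · rw [← htk k hk]
          exact DerIn.self t _ k
    · exact Subalgebra.mul_mem (locSub A.R p) (Subalgebra.algebraMap_mem _ _) (hΦ m)
    · exact mul_ne_zero hκ0 hm0
    · rw [mul_inv]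
      exact Subalgebra.mul_mem (locSub A.R p) hκi hmi
    · have h1 : jacD der t = (aeval A.x (pderiv m A.Φ) / (2 * A.w)) * jacD der A.x := by
        refine jac_step der A.x t m (fun k => aeval A.x (pderiv k A.Φ) / (2 * A.w))
          (fun k hk => htk k hk) fun D => ?_
        rw [htm]
        have h3 : ∑ k, aeval A.x (pderiv k A.Φ) / (2 * A.w) * D (A.x k) =
            (∑ k, aeval A.x (pderiv k A.Φ) * D (A.x k)) / (2 * A.w) := by
          rw [Finset.sum_div]
          exact Finset.sum_congr rfl fun k _ => by ring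
        rw [h3, ← hDw D]
        field_simp
      rw [h1]
      have : ζ * (aeval A.x (pderiv m A.Φ) / (2 * A.w) * jacD der A.x) =
          aeval A.x (pderiv m A.Φ) / (2 * A.w) * (ζ * jacD der A.x) := by ring
      rw [this, hJ]
      field_simp
  · have hwi : (A.w)⁻¹ ∈ locSub A.R p := loc_inv (a := A.wr) hw
    refine ⟨A.x, fun k => hin _ (A.x_mem k), ?_, algebraMap ℂ K κ * (2 * A.w), ?_, ?_, ?_, hJ⟩
    · refine derClosed_loc fun z hz => ?_
      refine derIn_adjoin (S := Set.range (Fin.cons A.w A.x : Fin (n + 1) → K)) ?_ hz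
      rintro _ ⟨k, rfl⟩
      refine Fin.cases ?_ (fun k => ?_) k
      · refine ⟨hin _ A.w_mem, fun k => aeval A.x (pderiv k A.Φ) * (2⁻¹ * (A.w)⁻¹), fun k => ?_,
          fun D => ?_⟩
        · exact Subalgebra.mul_mem _ (hΦ k) (Subalgebra.mul_mem _ h2i hwi)
        · show D A.w = _
          have h3 : ∑ k, D (A.x k) * (aeval A.x (pderiv k A.Φ) * (2⁻¹ * (A.w)⁻¹)) =
              (∑ k, aeval A.x (pderiv k A.Φ) * D (A.x k)) * (2⁻¹ * (A.w)⁻¹) := by
            rw [Finset.sum_mul]
            exact Finset.sum_congr rfl fun k _ => by ring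
          rw [h3, ← A.D_w D]
          field_simp
      · exact ⟨hin _ (A.x_mem k), DerIn.self A.x _ k⟩
    · refine Subalgebra.mul_mem (locSub A.R p) (Subalgebra.algebraMap_mem _ _)
        (Subalgebra.mul_mem _ ?_ (hin _ A.w_mem))
      have : (2 : K) = algebraMap ℂ K 2 := (map_ofNat _ 2).symm
      rw [this]
      exact Subalgebra.algebraMap_mem _ _
    · exact mul_ne_zero hκ0 (mul_ne_zero h20 hw0)
    · rw [mul_inv, mul_inv]
      exact Subalgebra.mul_mem (locSub A.R p) hκi (Subalgebra.mul_mem _ h2i hwi)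

end DC

/-- Affine spaces are smooth. -/
lemma smooth_affine {n : ℕ} {x : Fin n → K} (hx : AlgebraicIndependent ℂ x) :
    Algebra.Smooth ℂ (Algebra.adjoin ℂ (Set.range x)) :=
  haveI : Algebra.Smooth ℂ (MvPolynomial (Fin n) ℂ) := ⟨inferInstance, inferInstance⟩
  Algebra.Smooth.of_equiv hx.aevalEquiv

end Pool.Agent.H81
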