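import Mathlib
import Pool.Agent.H81.Canon

/-! The equations of the charts. -/

set_option linter.unusedSimpArgs false
set_option linter.unusedSectionVars false

noncomputable section

namespace Pool.Agent.H81

open Pool.Agent.H945R2 MvPolynomial

/-- the equation of the chart of type `(j, k)`, in a commutative ring;
`a, b` are the coordinates of the plane. -/
def phi {B : Type} [CommRing B] (j k : Bool) (a b q p : B) : B :=
  match j, k with
  | false, false => q ^ 2 * p + p ^ 2 + (1 + a ^ 4 + b ^ 4)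
  | false, true => p + (p ^ 2 + (1 + a ^ 4 + b ^ 4)) * q ^ 2
  | true, false => p * q ^ 2 + 1 + (1 + a ^ 4 + b ^ 4) * p ^ 2
  | true, true => p + (1 + (1 + a ^ 4 + b ^ 4) * p ^ 2) * q ^ 2

/-- the equation as a polynomial -/
def Phi (j k : Bool) : MvPolynomial (Fin 4) ℂ := phi j k (X 0) (X 1) (X 2) (X 3)

lemma aeval_Phi {B : Type} [CommRing B] [Algebra ℂ B] (j k : Bool) (y : Fin 4 → B) :
    aeval y (Phi j k) = phi j k (y 0) (y 1) (y 2) (y 3) := by
  cases j <;> cases k <;> simp [Phi, phi]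

lemma pd4 {n : ℕ} {B : Type} [CommRing B] [Algebra ℂ B] (y : Fin n → B) (i k : Fin n) :
    aeval y (pderiv i (X k : MvPolynomial (Fin n) ℂ)) = if k = i then 1 else 0 := by
  rw [pderiv_X]
  by_cases h : k = i
  · subst h; simp
  · simp [h]

lemma cert_Phi (j k : Bool) : DC.Cert (Phi j k) := by
  intro B _ _ y v
  have h4 : (4 : B) * algebraMap ℂ B (1 / 4) = 1 := by
    have : (4 : B) = algebraMap ℂ B 4 := (map_ofNat _ 4).symm
    rw [this, ← map_mul]
    norm_num
  have h2 : (2 : B) * algebraMap ℂ B (1 / 2) = 1 := by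
    have : (2 : B) = algebraMap ℂ B 2 := (map_ofNat _ 2).symm
    rw [this, ← map_mul]
    norm_num
  set q := algebraMap ℂ B (1 / 4)
  set m := algebraMap ℂ B (1 / 2)
  have hmq : m = 2 * q := by
    linear_combination 2 * q * h2 - m * h4
  cases j <;> cases k
  · refine ⟨m * v, ![q * y 0, q * y 1, q * y 2, m * y 3], 1, ?_⟩
    rw [aeval_Phi, Fin.sum_univ_four]
    simp only [Phi, phi, map_add, map_mul, Derivation.leibniz, Derivation.leibniz_pow,
      smul_eq_mul, aeval_X, map_pow, pd4, Matrix.cons_val, Derivation.map_one_eq_zero, nsmul_eq_mul,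
      Nat.cast_ofNat, map_ofNat, map_zero, map_one, Fin.reduceEq, if_true, if_false, Nat.reduceSub]
    linear_combination v^2*h2 - (y 0^4+y 1^4)*h4 - y 2^2*y 3*(h2 - hmq) - y 3^2*h2
  · refine ⟨-(y 2 ^ 2 * v), ![0, 0, -(y 2) ^ 3, -1], -(2 * y 2 ^ 2), ?_⟩
    rw [aeval_Phi, Fin.sum_univ_four]
    simp only [Phi, phi, map_add, map_mul, Derivation.leibniz, Derivation.leibniz_pow,
      smul_eq_mul, aeval_X, map_pow, pd4, Matrix.cons_val, Derivation.map_one_eq_zero, nsmul_eq_mul,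
      Nat.cast_ofNat, map_ofNat, map_zero, map_one, Fin.reduceEq, if_true, if_false, Nat.reduceSub]
    ring
  · refine ⟨m * v, ![0, 0, q * y 2, m * y 3], 1, ?_⟩
    rw [aeval_Phi, Fin.sum_univ_four]
    simp only [Phi, phi, map_add, map_mul, Derivation.leibniz, Derivation.leibniz_pow,
      smul_eq_mul, aeval_X, map_pow, pd4, Matrix.cons_val, Derivation.map_one_eq_zero, nsmul_eq_mul,
      Nat.cast_ofNat, map_ofNat, map_zero, map_one, Fin.reduceEq, if_true, if_false, Nat.reduceSub]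
    linear_combination v^2*h2 - y 2^2*y 3*(h2-hmq) - (1+y 0^4+y 1^4)*y 3^2*h2
  · refine ⟨-((1 + y 0 ^ 4 + y 1 ^ 4) * y 2 ^ 2 * v),
      ![0, 0, -((1 + y 0 ^ 4 + y 1 ^ 4) * (y 2) ^ 3), -1],
      -(2 * (1 + y 0 ^ 4 + y 1 ^ 4) * y 2 ^ 2), ?_⟩
    rw [aeval_Phi, Fin.sum_univ_four]
    simp only [Phi, phi, map_add, map_mul, Derivation.leibniz, Derivation.leibniz_pow,
      smul_eq_mul, aeval_X, map_pow, pd4, Matrix.cons_val, Derivation.map_one_eq_zero, nsmul_eq_mul,
      Nat.cast_ofNat, map_ofNat, map_zero, map_one, Fin.reduceEq, if_true, if_false, Nat.reduceSub]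
    ring

lemma DC.Cert.not_sq {n : ℕ} {Φ : MvPolynomial (Fin n) ℂ} (hc : DC.Cert Φ) {y : Fin n → ℂ}
    (hy : aeval y Φ = 0) (h : MvPolynomial (Fin n) ℂ) : Φ ≠ h ^ 2 := by
  intro e
  have h1 : aeval y h = 0 := by
    rw [e, map_pow] at hy
    simpa using hy
  obtain ⟨c₀, c, e', hc'⟩ := hc ℂ y 0
  have h2 : ∀ k, aeval y (pderiv k Φ) = 0 := by
    intro k
    rw [e, Derivation.leibniz_pow, nsmul_eq_mul, smul_eq_mul, map_mul, map_mul, map_pow, h1]
    simp
  rw [hy, Finset.sum_eq_zero fun k _ => by rw [h2 k, mul_zero]] at hc'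
  norm_num at hc'

lemma Phi_not_sq (j k : Bool) (h : MvPolynomial (Fin 4) ℂ) : Phi j k ≠ h ^ 2 := by
  cases k
  · refine (cert_Phi j false).not_sq (y := ![0, 0, 0, Complex.I]) ?_ h
    rw [aeval_Phi]
    cases j <;> simp [phi]
  · refine (cert_Phi j true).not_sq (y := ![0, 0, 0, 0]) ?_ h
    rw [aeval_Phi]
    cases j <;> simp [phi]

/-- the equation of the divisor `z 0 = 0`. -/
def Phi3 : MvPolynomial (Fin 3) ℂ := phi false false 0 (X 0) (X 1) (X 2)

lemma aeval_Phi3 {B : Type} [CommRing B] [Algebra ℂ B] (y : Fin 3 → B) :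
    aeval y Phi3 = phi false false 0 (y 0) (y 1) (y 2) := by
  simp [Phi3, phi]

lemma cert_Phi3 : DC.Cert Phi3 := by
  intro B _ _ y v
  have h4 : (4 : B) * algebraMap ℂ B (1 / 4) = 1 := by
    have : (4 : B) = algebraMap ℂ B 4 := (map_ofNat _ 4).symm
    rw [this, ← map_mul]
    norm_num
  have h2 : (2 : B) * algebraMap ℂ B (1 / 2) = 1 := by
    have : (2 : B) = algebraMap ℂ B 2 := (map_ofNat _ 2).symm
    rw [this, ← map_mul]
    norm_num
  set q := algebraMap ℂ B (1 / 4)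
  set m := algebraMap ℂ B (1 / 2)
  have hmq : m = 2 * q := by
    linear_combination 2 * q * h2 - m * h4
  refine ⟨m * v, ![q * y 0, q * y 1, m * y 2], 1, ?_⟩
  rw [aeval_Phi3, Fin.sum_univ_three]
  simp only [Phi3, phi, map_add, map_mul, Derivation.leibniz, Derivation.leibniz_pow,
    smul_eq_mul, aeval_X, map_pow, pd4, Matrix.cons_val, Derivation.map_one_eq_zero, nsmul_eq_mul,
    Nat.cast_ofNat, map_ofNat, map_zero, map_one, Fin.reduceEq, if_true, if_false, Nat.reduceSub]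
  linear_combination v^2*h2 - (y 0^4)*h4 - y 1^2*y 2*(h2 - hmq) - y 2^2*h2

lemma Phi3_not_sq (h : MvPolynomial (Fin 3) ℂ) : Phi3 ≠ h ^ 2 := by
  refine cert_Phi3.not_sq (y := ![0, 0, Complex.I]) ?_ h
  rw [aeval_Phi3]
  simp [phi]

end Pool.Agent.H81
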