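import Mathlib
import Pool.Agent.H81.Types
import Pool.Graph.R_seed8.Helper419.KS.Tor

/-! The function field and the Jacobians of the charts. -/

set_option linter.unusedSimpArgs false
set_option linter.unusedSectionVars false

noncomputable section

namespace Pool.Agent.H81

open Pool.Agent.H945R2 MvPolynomial FanoFib.Tor

/-! ### general formulas -/
section gen
variable {K : Type} [Field K] [Algebra ℂ K]

lemma w_rel_gen {r p δ u : K} (hg : 2 * p - r ^ 2 ≠ 0) (hu : u = (δ - p ^ 2) / (2 * p - r ^ 2)) :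
    (p + u) ^ 2 = u * r ^ 2 + u ^ 2 + δ := by
  have h : u * (2 * p - r ^ 2) = δ - p ^ 2 := by rw [hu, div_mul_cancel₀ _ hg]
  linear_combination h

lemma D_u_gen (D : Derivation ℂ K K) {r p δ u : K} (hg : 2 * p - r ^ 2 ≠ 0)
    (hu : u = (δ - p ^ 2) / (2 * p - r ^ 2)) :
    D u = (1 / (2 * p - r ^ 2)) * D δ + (2 * u * r / (2 * p - r ^ 2)) * D r +
      (-(2 * (p + u)) / (2 * p - r ^ 2)) * D p := by
  have h : u * (2 * p - r ^ 2) = δ - p ^ 2 := by rw [hu, div_mul_cancel₀ _ hg]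
  have h2 : D 2 = 0 := by
    have : (2 : K) = algebraMap ℂ K 2 := (map_ofNat _ 2).symm
    rw [this, Derivation.map_algebraMap]
  have h1 := congrArg D h
  rw [Derivation.leibniz, map_sub, Derivation.leibniz, map_sub, Derivation.leibniz_pow,
    Derivation.leibniz_pow, h2] at h1
  simp only [smul_eq_mul, nsmul_eq_mul, Nat.cast_ofNat, Nat.reduceSub, pow_one] at h1
  field_simp
  linear_combination h1

lemma D_div (D : Derivation ℂ K K) {a b : K} (hb : b ≠ 0) :
    D (a / b) = (1 / b) * D a + (-(a / b ^ 2)) * D b := by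
  rw [Derivation.leibniz_div]
  simp only [smul_eq_mul]
  field_simp
  ring

lemma D_one_div (D : Derivation ℂ K K) {b : K} (hb : b ≠ 0) :
    D (1 / b) = (-(1 / b ^ 2)) * D b := by
  rw [D_div D hb, Derivation.map_one_eq_zero]
  ring

variable (der : Fin 4 → Derivation ℂ K K)

lemma jac_inv3 (a b q p : K) (hp : p ≠ 0) :
    jacD der ![a, b, q, p⁻¹] = -(1 / p ^ 2) * jacD der ![a, b, q, p] := by
  refine jac_step der ![a, b, q, p] ![a, b, q, p⁻¹] 3 ![0, 0, 0, -(1 / p ^ 2)] ?_ ?_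
  · intro k hk
    fin_cases k <;> simp at hk ⊢
  · intro D
    rw [Fin.sum_univ_four]
    have := D_one_div D hp
    rw [one_div] at this
    simp only [Matrix.cons_val]
    rw [this]
    ring

lemma jac_inv2 (a b q p : K) (hq : q ≠ 0) :
    jacD der ![a, b, q⁻¹, p] = -(1 / q ^ 2) * jacD der ![a, b, q, p] := by
  refine jac_step der ![a, b, q, p] ![a, b, q⁻¹, p] 2 ![0, 0, -(1 / q ^ 2), 0] ?_ ?_
  · intro k hk
    fin_cases k <;> simp at hk ⊢
  · intro D
    rw [Fin.sum_univ_four]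
    have := D_one_div D hq
    rw [one_div] at this
    simp only [Matrix.cons_val]
    rw [this]
    ring

lemma jac_swap (a b q p : K) :
    jacD der ![b, a, q, p] = - jacD der ![a, b, q, p] := by
  have h := Matrix.det_permute' (Equiv.swap (0 : Fin 4) 1)
    (Matrix.of fun i j => der i (![a, b, q, p] j))
  have h2 : (Matrix.of fun i j => der i (![a, b, q, p] j)).submatrix id (Equiv.swap (0 : Fin 4) 1)
      = Matrix.of fun i j => der i (![b, a, q, p] j) := by
    ext i j
    fin_cases j <;> simp [Equiv.swap_apply_def]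
  rw [h2] at h
  rw [jacD, jacD, h]
  simp [Equiv.Perm.sign_swap]

/-- change of the affine chart of the plane, first case -/
lemma jac_x (x y r u : K) (hx : x ≠ 0) :
    jacD der ![1 / x, y / x, r / x, u / x ^ 2] = -(1 / x ^ 6) * jacD der ![x, y, r, u] := by
  have s1 : jacD der ![x, y, r, u / x ^ 2] = (1 / x ^ 2) * jacD der ![x, y, r, u] := by
    refine jac_step der ![x, y, r, u] ![x, y, r, u / x ^ 2] 3 ![-(2 * u / x ^ 3), 0, 0, 1 / x ^ 2]
      ?_ ?_
    · intro k hk
      fin_cases k <;> simp at hk ⊢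
    · intro D
      rw [Fin.sum_univ_four]
      simp only [Matrix.cons_val]
      rw [D_div D (pow_ne_zero 2 hx), Derivation.leibniz_pow]
      simp only [smul_eq_mul, nsmul_eq_mul, Nat.cast_ofNat, Nat.reduceSub, pow_one]
      field_simp
      ring
  have s2 : jacD der ![x, y, r / x, u / x ^ 2] = (1 / x) * jacD der ![x, y, r, u / x ^ 2] := by
    refine jac_step der ![x, y, r, u / x ^ 2] ![x, y, r / x, u / x ^ 2] 2
      ![-(r / x ^ 2), 0, 1 / x, 0] ?_ ?_
    · intro k hk
      fin_cases k <;> simp at hk ⊢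
    · intro D
      rw [Fin.sum_univ_four]
      simp only [Matrix.cons_val]
      rw [D_div D hx]
      ring
  have s3 : jacD der ![x, y / x, r / x, u / x ^ 2] = (1 / x) * jacD der ![x, y, r / x, u / x ^ 2] := by
    refine jac_step der ![x, y, r / x, u / x ^ 2] ![x, y / x, r / x, u / x ^ 2] 1
      ![-(y / x ^ 2), 1 / x, 0, 0] ?_ ?_
    · intro k hk
      fin_cases k <;> simp at hk ⊢
    · intro D
      rw [Fin.sum_univ_four]
      simp only [Matrix.cons_val]
      rw [D_div D hx]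
      ring
  have s4 : jacD der ![1 / x, y / x, r / x, u / x ^ 2] =
      (-(1 / x ^ 2)) * jacD der ![x, y / x, r / x, u / x ^ 2] := by
    refine jac_step der ![x, y / x, r / x, u / x ^ 2] ![1 / x, y / x, r / x, u / x ^ 2] 0
      ![-(1 / x ^ 2), 0, 0, 0] ?_ ?_
    · intro k hk
      fin_cases k <;> simp at hk ⊢
    · intro D
      rw [Fin.sum_univ_four]
      simp only [Matrix.cons_val]
      rw [D_one_div D hx]
      ring
  rw [s4, s3, s2, s1]
  field_simp

end gen

/-! ### the function field -/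

/-- the function field -/
abbrev K4 : Type := KK (Fin 4)

lemma algebraMap_ne {n : ℕ} {P : MvPolynomial (Fin n) ℂ} (c : Fin n → ℂ) (h : eval c P ≠ 0) :
    algebraMap (MvPolynomial (Fin n) ℂ) (KK (Fin n)) P ≠ 0 := by
  rw [Ne, FaithfulSMul.algebraMap_eq_zero_iff]
  rintro rfl
  simp at h

/-- homogeneous coordinates of the plane, `z 0 = 1` -/
def zz (i : Fin 3) : K4 := ![1, xx 0, xx 1] i
/-- the coordinate `r` -/
def rr : K4 := xx 2
/-- the discriminant -/
def dd : K4 := 1 + xx 0 ^ 4 + xx 1 ^ 4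
/-- the denominator -/
def gg : K4 := 2 * xx 3 - xx 2 ^ 2
/-- the coordinate `u` -/
def uu : K4 := (dd - xx 3 ^ 2) / gg
/-- the coordinate `w` -/
def ww : K4 := xx 3 + uu

lemma zz_ne (i : Fin 3) : zz i ≠ 0 := by
  fin_cases i
  · exact one_ne_zero
  · exact xx_ne_zero 0
  · exact xx_ne_zero 1

lemma rr_ne : rr ≠ 0 := xx_ne_zero 2

lemma gg_ne : gg ≠ 0 := by
  have : gg = algebraMap (MvPolynomial (Fin 4) ℂ) K4 (2 * X 3 - X 2 ^ 2) := by
    rw [gg, xx, xx, map_sub, map_mul, map_ofNat, map_pow]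
  rw [this]
  refine algebraMap_ne ![0, 0, 0, 1] ?_
  simp

lemma uu_ne : uu ≠ 0 := by
  refine div_ne_zero ?_ gg_ne
  have : dd - xx 3 ^ 2 = algebraMap (MvPolynomial (Fin 4) ℂ) K4 (1 + X 0 ^ 4 + X 1 ^ 4 - X 3 ^ 2) := by
    rw [dd, xx, xx, xx, map_sub, map_add, map_add, map_one, map_pow, map_pow, map_pow]
  rw [this]
  refine algebraMap_ne ![0, 0, 0, 0] ?_
  simp

lemma uu_mul : uu * gg = dd - xx 3 ^ 2 := by rw [uu, div_mul_cancel₀ _ gg_ne]

lemma ww_ne : ww ≠ 0 := by
  intro h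
  have h1 : ww * gg = algebraMap (MvPolynomial (Fin 4) ℂ) K4
      (X 3 ^ 2 - X 3 * X 2 ^ 2 + (1 + X 0 ^ 4 + X 1 ^ 4)) := by
    have h2 : ww * gg = xx 3 ^ 2 - xx 3 * xx 2 ^ 2 + dd := by
      rw [ww, add_mul, uu_mul, gg]
      ring
    rw [h2, dd]
    simp only [xx, map_sub, map_add, map_one, map_pow, map_mul]
  rw [h, zero_mul] at h1
  refine algebraMap_ne ![0, 0, 0, 0] ?_ h1.symm
  simp

lemma ww_rel : ww ^ 2 = uu * rr ^ 2 + uu ^ 2 + dd := w_rel_gen gg_ne rfl

/-- the vector fields -/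
def der4 : Module.Basis (Fin 4) K4 (Derivation ℂ K4 K4) := frame0

lemma jac_xx : jacD (fun i => der4 i) ![xx 0, xx 1, xx 2, xx 3] = 1 := by
  have h : (Matrix.of fun i j => der4 i ((![xx 0, xx 1, xx 2, xx 3] : Fin 4 → K4) j)) =
      (1 : Matrix (Fin 4) (Fin 4) K4) := by
    ext i j
    have h2 : (![xx 0, xx 1, xx 2, xx 3] : Fin 4 → K4) j = xx j := by
      fin_cases j <;> rfl
    rw [Matrix.of_apply, h2, der4, frame0_xx, Matrix.one_apply]
    by_cases hij : i = j
    · rw [if_pos hij, if_pos hij.symm]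
    · rw [if_neg hij, if_neg (Ne.symm hij)]
  rw [jacD, h, Matrix.det_one]

lemma jac_base : gg * jacD (fun i => der4 i) ![xx 0, xx 1, rr, uu] = -(2 * ww) := by
  have h : jacD (fun i => der4 i) ![xx 0, xx 1, rr, uu] =
      (-(2 * ww) / gg) * jacD (fun i => der4 i) ![xx 0, xx 1, xx 2, xx 3] := by
    refine jac_step (fun i => der4 i) ![xx 0, xx 1, xx 2, xx 3] ![xx 0, xx 1, rr, uu] 3
      ![4 * xx 0 ^ 3 / gg, 4 * xx 1 ^ 3 / gg, 2 * uu * rr / gg, -(2 * ww) / gg] ?_ ?_
    · intro k hk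
      fin_cases k
      · rfl
      · rfl
      · rfl
      · exact absurd rfl hk
    · intro D
      rw [Fin.sum_univ_four]
      simp only [Matrix.cons_val]
      have h1 := D_u_gen D (r := rr) (p := xx 3) (δ := dd) (u := uu) gg_ne rfl
      have h3 : D dd = 4 * xx 0 ^ 3 * D (xx 0) + 4 * xx 1 ^ 3 * D (xx 1) := by
        rw [dd, map_add, map_add, Derivation.map_one_eq_zero, Derivation.leibniz_pow,
          Derivation.leibniz_pow]
        simp only [smul_eq_mul, nsmul_eq_mul, Nat.cast_ofNat, Nat.reduceSub]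
        ring
      rw [h3] at h1
      rw [h1]
      show _ = _ / gg * _ + _ / gg * _ + _ / gg * D rr + -(2 * ww) / gg * _
      change (1 / gg) * _ + (2 * uu * rr / gg) * D rr + (-(2 * ww) / gg) * D (xx 3) = _
      ring
  rw [h, jac_xx, mul_one, mul_div_cancel₀ _ gg_ne]

end Pool.Agent.H81
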