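import Mathlib
import Pool.Agent.H81.KX

/-! The twelve charts. -/

set_option linter.unusedSimpArgs false
set_option linter.unusedSectionVars false

noncomputable section

namespace Pool.Agent.H81

open Pool.Agent.H945R2 MvPolynomial FanoFib.Tor

/-- index of the first coordinate in the chart `i` of the plane -/
def aIdx (i : Fin 3) : Fin 3 := ![1, 0, 0] i
/-- index of the second coordinate in the chart `i` of the plane -/
def bIdx (i : Fin 3) : Fin 3 := ![2, 2, 1] i

/-- first coordinate in the chart `i` of the plane -/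
def aa (i : Fin 3) : K4 := zz (aIdx i) / zz i
/-- second coordinate in the chart `i` of the plane -/
def bb (i : Fin 3) : K4 := zz (bIdx i) / zz i
/-- the coordinate `u / z²` or its inverse -/
def pp (i : Fin 3) (j : Bool) : K4 := if j then zz i ^ 2 / uu else uu / zz i ^ 2
/-- the coordinate `r / z` or its inverse -/
def qq (i : Fin 3) (k : Bool) : K4 := if k then zz i / rr else rr / zz i
/-- the denominator -/
def ll (i : Fin 3) (j k : Bool) : K4 :=
  match j, k with
  | false, false => zz i ^ 4
  | false, true => zz i ^ 3 * rr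
  | true, false => zz i ^ 2 * uu
  | true, true => zz i * uu * rr
/-- the coordinate `w` in a chart -/
def wc (i : Fin 3) (j k : Bool) : K4 := zz i ^ 2 * ww / ll i j k
/-- the coordinates of the base -/
def xc (i : Fin 3) (j k : Bool) : Fin 4 → K4 := ![aa i, bb i, qq i k, pp i j]

lemma ll_ne (i : Fin 3) (j k : Bool) : ll i j k ≠ 0 := by
  have h1 := zz_ne i
  have h2 := rr_ne
  have h3 := uu_ne
  cases j <;> cases k <;> simp [ll, h1, h2, h3]

lemma dd_eq (i : Fin 3) : 1 + aa i ^ 4 + bb i ^ 4 = dd / zz i ^ 4 := by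
  have h0 := xx_ne_zero (0 : Fin 4)
  have h1 := xx_ne_zero (1 : Fin 4)
  fin_cases i
  · simp [aa, bb, dd, zz, aIdx, bIdx]
  · simp only [aa, bb, dd, zz, aIdx, bIdx, Matrix.cons_val, Fin.reduceFinMk]
    field_simp
    ring
  · simp only [aa, bb, dd, zz, aIdx, bIdx, Matrix.cons_val, Fin.reduceFinMk]
    field_simp
    ring

lemma wc_rel (i : Fin 3) (j k : Bool) : wc i j k ^ 2 = aeval (xc i j k) (Phi j k) := by
  have h1 := zz_ne i
  have h2 := rr_ne
  have h3 := uu_ne
  have h4 := ww_rel
  rw [aeval_Phi]
  cases j <;> cases k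
  all_goals
    simp only [phi, xc, Matrix.cons_val, wc, ll, pp, qq, if_true, if_false, Bool.false_eq_true]
    rw [dd_eq i]
    field_simp
    rw [h4]
    try ring

lemma jac_i (i : Fin 3) : ∃ κ : ℂ, κ ≠ 0 ∧
    gg * jacD (fun i => der4 i) ![aa i, bb i, rr / zz i, uu / zz i ^ 2] =
      algebraMap ℂ K4 κ * (2 * ww) / zz i ^ 6 := by
  have h0 := jac_base
  fin_cases i
  · refine ⟨-1, by norm_num, ?_⟩
    simp only [aa, bb, zz, aIdx, bIdx, Matrix.cons_val, Fin.reduceFinMk, Fin.zero_eta, div_one,
      one_pow]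
    rw [h0, map_neg, map_one]
    ring
  · refine ⟨1, one_ne_zero, ?_⟩
    have h1 := jac_x (fun i => der4 i) (xx 0) (xx 1) rr uu (xx_ne_zero 0)
    simp only [aa, bb, zz, aIdx, bIdx, Matrix.cons_val, Fin.reduceFinMk]
    rw [h1, map_one]
    linear_combination (-(1 / xx 0 ^ 6)) * h0
  · refine ⟨-1, by norm_num, ?_⟩
    have h1 := jac_x (fun i => der4 i) (xx 1) (xx 0) rr uu (xx_ne_zero 1)
    have h2 := jac_swap (fun i => der4 i) (xx 0) (xx 1) rr uu
    simp only [aa, bb, zz, aIdx, bIdx, Matrix.cons_val, Fin.reduceFinMk]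
    rw [h1, h2, map_neg, map_one]
    linear_combination (1 / xx 1 ^ 6) * h0

lemma jac_chart (i : Fin 3) (j k : Bool) : ∃ κ : ℂ, κ ≠ 0 ∧
    (gg * ll i j k) * jacD (fun i => der4 i) (xc i j k) = algebraMap ℂ K4 κ * (2 * wc i j k) := by
  obtain ⟨κ, hκ, h⟩ := jac_i i
  have h1 := zz_ne i
  have h2 := rr_ne
  have h3 := uu_ne
  have hp : uu / zz i ^ 2 ≠ 0 := div_ne_zero h3 (pow_ne_zero _ h1)
  have hq : rr / zz i ≠ 0 := div_ne_zero h2 h1
  have ep : pp i true = (uu / zz i ^ 2)⁻¹ := by rw [inv_div]; rfl
  have eq : qq i true = (rr / zz i)⁻¹ := by rw [inv_div]; rfl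
  cases j <;> cases k
  · refine ⟨κ, hκ, ?_⟩
    show (gg * zz i ^ 4) * jacD (fun i => der4 i) ![aa i, bb i, rr / zz i, uu / zz i ^ 2] =
      algebraMap ℂ K4 κ * (2 * (zz i ^ 2 * ww / zz i ^ 4))
    have : (gg * zz i ^ 4) * jacD (fun i => der4 i) ![aa i, bb i, rr / zz i, uu / zz i ^ 2] =
      zz i ^ 4 * (gg * jacD (fun i => der4 i) ![aa i, bb i, rr / zz i, uu / zz i ^ 2]) := by ring
    rw [this, h]
    field_simp
  · refine ⟨-κ, neg_ne_zero.2 hκ, ?_⟩
    show (gg * (zz i ^ 3 * rr)) * jacD (fun i => der4 i) ![aa i, bb i, qq i true, uu / zz i ^ 2] =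
      algebraMap ℂ K4 (-κ) * (2 * (zz i ^ 2 * ww / (zz i ^ 3 * rr)))
    rw [eq, jac_inv2 _ _ _ _ _ hq, map_neg]
    have : (gg * (zz i ^ 3 * rr)) * (-(1 / (rr / zz i) ^ 2) *
        jacD (fun i => der4 i) ![aa i, bb i, rr / zz i, uu / zz i ^ 2]) =
      -(zz i ^ 3 * rr) * (1 / (rr / zz i) ^ 2) *
        (gg * jacD (fun i => der4 i) ![aa i, bb i, rr / zz i, uu / zz i ^ 2]) := by ring
    rw [this, h]
    field_simp
  · refine ⟨-κ, neg_ne_zero.2 hκ, ?_⟩
    show (gg * (zz i ^ 2 * uu)) * jacD (fun i => der4 i) ![aa i, bb i, rr / zz i, pp i true] =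
      algebraMap ℂ K4 (-κ) * (2 * (zz i ^ 2 * ww / (zz i ^ 2 * uu)))
    rw [ep, jac_inv3 _ _ _ _ _ hp, map_neg]
    have : (gg * (zz i ^ 2 * uu)) * (-(1 / (uu / zz i ^ 2) ^ 2) *
        jacD (fun i => der4 i) ![aa i, bb i, rr / zz i, uu / zz i ^ 2]) =
      -(zz i ^ 2 * uu) * (1 / (uu / zz i ^ 2) ^ 2) *
        (gg * jacD (fun i => der4 i) ![aa i, bb i, rr / zz i, uu / zz i ^ 2]) := by ring
    rw [this, h]
    field_simp
  · refine ⟨κ, hκ, ?_⟩
    show (gg * (zz i * uu * rr)) * jacD (fun i => der4 i) ![aa i, bb i, qq i true, pp i true] =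
      algebraMap ℂ K4 κ * (2 * (zz i ^ 2 * ww / (zz i * uu * rr)))
    rw [ep, jac_inv3 _ _ _ _ _ hp, eq, jac_inv2 _ _ _ _ _ hq]
    have : (gg * (zz i * uu * rr)) * (-(1 / (uu / zz i ^ 2) ^ 2) * (-(1 / (rr / zz i) ^ 2) *
        jacD (fun i => der4 i) ![aa i, bb i, rr / zz i, uu / zz i ^ 2])) =
      (zz i * uu * rr) * (1 / (uu / zz i ^ 2) ^ 2) * (1 / (rr / zz i) ^ 2) *
        (gg * jacD (fun i => der4 i) ![aa i, bb i, rr / zz i, uu / zz i ^ 2]) := by ring
    rw [this, h]
    field_simp

lemma wc_ne (i : Fin 3) (j k : Bool) : wc i j k ≠ 0 :=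
  div_ne_zero (mul_ne_zero (pow_ne_zero _ (zz_ne i)) ww_ne) (ll_ne i j k)

lemma two_neK : (2 : K4) ≠ 0 := by
  have : (2 : K4) = algebraMap ℂ K4 2 := (map_ofNat _ 2).symm
  rw [this]
  exact (map_ne_zero _).2 two_ne_zero

lemma xc_ind (i : Fin 3) (j k : Bool) : AlgebraicIndependent ℂ (xc i j k) := by
  refine algInd_of_jac (fun i => der4 i) _ fun h => ?_
  obtain ⟨κ, hκ, h1⟩ := jac_chart i j k
  rw [h, mul_zero] at h1
  exact mul_ne_zero ((map_ne_zero _).2 hκ) (mul_ne_zero two_neK (wc_ne i j k)) h1.symm

/-- the charts as hypersurfaces -/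
def dcX (i : Fin 3) (j k : Bool) : DC 4 K4 where
  x := xc i j k
  w := wc i j k
  Φ := Phi j k
  rel := wc_rel i j k
  ind := xc_ind i j k
  nsq := Phi_not_sq j k

/-- index set of the monomials -/
abbrev GenX : Type := (Fin 3) ⊕ (Fin 3 × Fin 3) ⊕ (Fin 3 × Fin 3 × Fin 3) ⊕
  (Fin 3 × Fin 3 × Fin 3 × Fin 3) ⊕ (Fin 3 × Fin 3)

/-- the sections of the anticanonical sheaf -/
def genX : GenX → K4
  | .inl a => zz a * uu * rr
  | .inr (.inl (a, b)) => zz a * zz b * uu
  | .inr (.inr (.inl (a, b, c))) => zz a * zz b * zz c * rr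
  | .inr (.inr (.inr (.inl (a, b, c, d)))) => zz a * zz b * zz c * zz d
  | .inr (.inr (.inr (.inr (a, b)))) => zz a * zz b * ww

/-- the space of sections -/
def E4 : Submodule ℂ K4 := Submodule.span ℂ (Set.range genX)

lemma E1 (a : Fin 3) : zz a * uu * rr ∈ E4 := Submodule.subset_span ⟨.inl a, rfl⟩
lemma E2 (a b : Fin 3) : zz a * zz b * uu ∈ E4 :=
  Submodule.subset_span ⟨.inr (.inl (a, b)), rfl⟩
lemma E3 (a b c : Fin 3) : zz a * zz b * zz c * rr ∈ E4 :=
  Submodule.subset_span ⟨.inr (.inr (.inl (a, b, c))), rfl⟩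
lemma E4' (a b c d : Fin 3) : zz a * zz b * zz c * zz d ∈ E4 :=
  Submodule.subset_span ⟨.inr (.inr (.inr (.inl (a, b, c, d)))), rfl⟩
lemma E5 (a b : Fin 3) : zz a * zz b * ww ∈ E4 :=
  Submodule.subset_span ⟨.inr (.inr (.inr (.inr (a, b)))), rfl⟩

lemma E4_div_le {l : K4} {A : Subalgebra ℂ K4} (h : ∀ m, genX m / l ∈ A) : ringOf E4 l ≤ A := by
  refine ringOf_le fun e he => ?_
  rw [E4] at he
  induction he using Submodule.span_induction with
  | mem z hz => obtain ⟨j, rfl⟩ := hz; exact h j
  | zero => rw [zero_div]; exact Subalgebra.zero_mem _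
  | add a b _ _ ha hb => rw [add_div]; exact Subalgebra.add_mem _ ha hb
  | smul c a _ ha => rw [smul_div_assoc]; exact Subalgebra.smul_mem _ ha c

/-- generators in a chart, from the values at the pure monomials. -/
lemma genX_div {i : Fin 3} {l : K4} {A : Subalgebra ℂ K4} (h0 : ∀ m, zz m / zz i ∈ A)
    (h1 : zz i * uu * rr / l ∈ A) (h2 : zz i ^ 2 * uu / l ∈ A) (h3 : zz i ^ 3 * rr / l ∈ A)
    (h4 : zz i ^ 4 / l ∈ A) (h5 : zz i ^ 2 * ww / l ∈ A) (m : GenX) : genX m / l ∈ A := by
  have hz := zz_ne i
  rcases m with a | ⟨a, b⟩ | ⟨a, b, c⟩ | ⟨a, b, c, d⟩ | ⟨a, b⟩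
  · have := A.mul_mem (h0 a) h1
    convert this using 1
    simp only [genX]
    field_simp
  · have := A.mul_mem (A.mul_mem (h0 a) (h0 b)) h2
    convert this using 1
    simp only [genX]
    field_simp
  · have := A.mul_mem (A.mul_mem (A.mul_mem (h0 a) (h0 b)) (h0 c)) h3
    convert this using 1
    simp only [genX]
    field_simp
  · have := A.mul_mem (A.mul_mem (A.mul_mem (A.mul_mem (h0 a) (h0 b)) (h0 c)) (h0 d)) h4
    convert this using 1
    simp only [genX]
    field_simp
  · have := A.mul_mem (A.mul_mem (h0 a) (h0 b)) h5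
    convert this using 1
    simp only [genX]
    field_simp

lemma zz_div_mem {i : Fin 3} {A : Subalgebra ℂ K4} (ha : aa i ∈ A) (hb : bb i ∈ A) (m : Fin 3) :
    zz m / zz i ∈ A := by
  have h1 : zz i / zz i ∈ A := by rw [div_self (zz_ne i)]; exact A.one_mem
  fin_cases i <;> fin_cases m <;> assumption

lemma ring_eq (i : Fin 3) (j k : Bool) : ringOf E4 (ll i j k) = (dcX i j k).R := by
  have hz := zz_ne i
  have hr := rr_ne
  have hu := uu_ne
  have hx := (dcX i j k).x_mem
  have hw : wc i j k ∈ (dcX i j k).R := (dcX i j k).w_mem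
  have ha : aa i ∈ (dcX i j k).R := hx 0
  have hb : bb i ∈ (dcX i j k).R := hx 1
  have hq : qq i k ∈ (dcX i j k).R := hx 2
  have hp : pp i j ∈ (dcX i j k).R := hx 3
  have h1 := (dcX i j k).R.one_mem
  have hqp := (dcX i j k).R.mul_mem hq hp
  apply le_antisymm
  · refine E4_div_le (genX_div (i := i) (zz_div_mem ha hb) ?_ ?_ ?_ ?_ hw)
    · cases j <;> cases k
      · convert hqp using 1; simp only [ll, qq, pp, if_true, if_false, Bool.false_eq_true]; field_simp
      · convert hp using 1; simp only [ll, qq, pp, if_true, if_false, Bool.false_eq_true]; field_simp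
      · convert hq using 1; simp only [ll, qq, pp, if_true, if_false, Bool.false_eq_true]; field_simp
      · convert h1 using 1; simp only [ll, qq, pp, if_true, if_false, Bool.false_eq_true]; field_simp
    · cases j <;> cases k
      · convert hp using 1; simp only [ll, qq, pp, if_true, if_false, Bool.false_eq_true]; field_simp
      · convert hqp using 1; simp only [ll, qq, pp, if_true, if_false, Bool.false_eq_true]; field_simp
      · convert h1 using 1; simp only [ll, qq, pp, if_true, if_false, Bool.false_eq_true]; field_simp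
      · convert hq using 1; simp only [ll, qq, pp, if_true, if_false, Bool.false_eq_true]; field_simp
    · cases j <;> cases k
      · convert hq using 1; simp only [ll, qq, pp, if_true, if_false, Bool.false_eq_true]; field_simp
      · convert h1 using 1; simp only [ll, qq, pp, if_true, if_false, Bool.false_eq_true]; field_simp
      · convert hqp using 1; simp only [ll, qq, pp, if_true, if_false, Bool.false_eq_true]; field_simp
      · convert hp using 1; simp only [ll, qq, pp, if_true, if_false, Bool.false_eq_true]; field_simp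
    · cases j <;> cases k
      · convert h1 using 1; simp only [ll, qq, pp, if_true, if_false, Bool.false_eq_true]; field_simp
      · convert hq using 1; simp only [ll, qq, pp, if_true, if_false, Bool.false_eq_true]; field_simp
      · convert hp using 1; simp only [ll, qq, pp, if_true, if_false, Bool.false_eq_true]; field_simp
      · convert hqp using 1; simp only [ll, qq, pp, if_true, if_false, Bool.false_eq_true]; field_simp
  · rw [DC.R, Algebra.adjoin_le_iff]
    rintro _ ⟨m, rfl⟩
    have key : ∀ m, zz m / zz i ∈ ringOf E4 (ll i j k) := by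
      intro m
      cases j <;> cases k
      · have := div_mem_ringOf (l := ll i false false) (E4' m i i i)
        convert this using 1; simp only [ll]; field_simp
      · have := div_mem_ringOf (l := ll i false true) (E3 m i i)
        convert this using 1; simp only [ll]; field_simp
      · have := div_mem_ringOf (l := ll i true false) (E2 m i)
        convert this using 1; simp only [ll]; field_simp
      · have := div_mem_ringOf (l := ll i true true) (E1 m)
        convert this using 1; simp only [ll]; field_simp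
    refine Fin.cases ?_ (fun m => ?_) m
    · show wc i j k ∈ ringOf E4 (ll i j k)
      have := div_mem_ringOf (l := ll i j k) (E5 i i)
      convert this using 1
      rw [wc]
      ring
    · show xc i j k m ∈ ringOf E4 (ll i j k)
      fin_cases m
      · exact key _
      · exact key _
      · show qq i k ∈ ringOf E4 (ll i j k)
        cases j <;> cases k
        · have := div_mem_ringOf (l := ll i false false) (E3 i i i)
          convert this using 1; simp only [ll, qq, pp, if_true, if_false, Bool.false_eq_true]; field_simp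
        · have := div_mem_ringOf (l := ll i false true) (E4' i i i i)
          convert this using 1; simp only [ll, qq, pp, if_true, if_false, Bool.false_eq_true]; field_simp
        · have := div_mem_ringOf (l := ll i true false) (E1 i)
          convert this using 1; simp only [ll, qq, pp, if_true, if_false, Bool.false_eq_true]; field_simp
        · have := div_mem_ringOf (l := ll i true true) (E2 i i)
          convert this using 1; simp only [ll, qq, pp, if_true, if_false, Bool.false_eq_true]; field_simp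
      · show pp i j ∈ ringOf E4 (ll i j k)
        cases j <;> cases k
        · have := div_mem_ringOf (l := ll i false false) (E2 i i)
          convert this using 1; simp only [ll, qq, pp, if_true, if_false, Bool.false_eq_true]; field_simp
        · have := div_mem_ringOf (l := ll i false true) (E1 i)
          convert this using 1; simp only [ll, qq, pp, if_true, if_false, Bool.false_eq_true]; field_simp
        · have := div_mem_ringOf (l := ll i true false) (E4' i i i i)
          convert this using 1; simp only [ll, qq, pp, if_true, if_false, Bool.false_eq_true]; field_simp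
        · have := div_mem_ringOf (l := ll i true true) (E3 i i i)
          convert this using 1; simp only [ll, qq, pp, if_true, if_false, Bool.false_eq_true]; field_simp

end Pool.Agent.H81
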