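import Mathlib
import Pool.Agent.H81.ChX

/-! The Fano fourfold. -/

set_option linter.unusedSimpArgs false
set_option linter.unusedSectionVars false

noncomputable section

namespace Pool.Agent.H81

open Pool.Agent.H945R2 MvPolynomial FanoFib.Tor

/-! ### fractions -/
section gen

variable {n : ℕ}

lemma aeval_xx (p : MvPolynomial (Fin n) ℂ) :
    MvPolynomial.aeval (xx : Fin n → KK (Fin n)) p =
      algebraMap (MvPolynomial (Fin n) ℂ) (KK (Fin n)) p := by
  have : (MvPolynomial.aeval (xx : Fin n → KK (Fin n)) : MvPolynomial (Fin n) ℂ →ₐ[ℂ] KK (Fin n)) =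
      IsScalarTower.toAlgHom ℂ (MvPolynomial (Fin n) ℂ) (KK (Fin n)) := by
    apply MvPolynomial.algHom_ext
    intro i
    rw [MvPolynomial.aeval_X]
    rfl
  rw [this]
  rfl

lemma hgen (z : KK (Fin n)) : ∃ p ∈ Algebra.adjoin ℂ (Set.range (xx : Fin n → KK (Fin n))),
    ∃ q ∈ Algebra.adjoin ℂ (Set.range (xx : Fin n → KK (Fin n))), q ≠ 0 ∧ z * q = p := by
  obtain ⟨p, q, hq, rfl⟩ := IsFractionRing.div_surjective (A := MvPolynomial (Fin n) ℂ) z
  have hq0 : algebraMap (MvPolynomial (Fin n) ℂ) (KK (Fin n)) q ≠ 0 := by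
    have := nonZeroDivisors.ne_zero hq
    simpa using this
  refine ⟨_, ?_, _, ?_, hq0, div_mul_cancel₀ _ hq0⟩
  · rw [Algebra.adjoin_range_eq_range_aeval, ← aeval_xx]
    exact ⟨p, rfl⟩
  · rw [Algebra.adjoin_range_eq_range_aeval, ← aeval_xx]
    exact ⟨q, rfl⟩

lemma sq_mem {K : Type} [Field K] (V : ValuationSubring K) {z : K} (h : z ^ 2 ∈ V) : z ∈ V := by
  rw [← V.valuation_le_one_iff, map_pow] at h
  rw [← V.valuation_le_one_iff]
  exact (pow_le_one_iff two_ne_zero).1 h

end gen

lemma one_mem_E4 : (1 : K4) ∈ E4 := by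
  have := E4' 0 0 0 0
  simpa [zz] using this

lemma uu_mem_E4 : uu ∈ E4 := by
  have := E2 0 0
  simpa [zz] using this

lemma ww_mem_E4 : ww ∈ E4 := by
  have := E5 0 0
  simpa [zz] using this

lemma xx_mem_E4 (i : Fin 4) : xx i ∈ E4 := by
  fin_cases i
  · have := E4' 1 0 0 0
    simpa [zz] using this
  · have := E4' 2 0 0 0
    simpa [zz] using this
  · have := E3 0 0 0
    simpa [zz, rr] using this
  · have := E4.sub_mem ww_mem_E4 uu_mem_E4
    have h2 : ww - uu = xx 3 := by rw [ww]; ring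
    rw [h2] at this
    exact this

lemma ll_mem (i : Fin 3) (j k : Bool) : ll i j k ∈ E4 := by
  cases j <;> cases k
  · have := E4' i i i i
    convert this using 1; simp only [ll]; ring
  · have := E3 i i i
    convert this using 1; simp only [ll]; ring
  · have := E2 i i
    convert this using 1; simp only [ll]; ring
  · exact E1 i

lemma pp_eq (i : Fin 3) (j k : Bool) : pp i j = ll i (!j) k / ll i j k := by
  have hz := zz_ne i
  have hr := rr_ne
  have hu := uu_ne
  cases j <;> cases k <;> simp only [ll, pp, if_true, if_false, Bool.false_eq_true, Bool.not_true,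
    Bool.not_false] <;> field_simp

lemma qq_eq (i : Fin 3) (j k : Bool) : qq i k = ll i j (!k) / ll i j k := by
  have hz := zz_ne i
  have hr := rr_ne
  have hu := uu_ne
  cases j <;> cases k <;> simp only [ll, qq, if_true, if_false, Bool.false_eq_true, Bool.not_true,
    Bool.not_false] <;> field_simp

lemma completeX (V : ValuationSubring K4) (hV : ∀ c : ℂ, algebraMap ℂ K4 c ∈ V) :
    ∃ c : Fin 3 × Bool × Bool, ∀ f ∈ ringOf E4 (ll c.1 c.2.1 c.2.2), f ∈ V := by
  obtain ⟨i, -, hi⟩ := Finset.exists_max_image (Finset.univ : Finset (Fin 3))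
    (fun m => V.valuation (zz m)) ⟨0, Finset.mem_univ _⟩
  obtain ⟨⟨j, k⟩, -, hjk⟩ := Finset.exists_max_image (Finset.univ : Finset (Bool × Bool))
    (fun m => V.valuation (ll i m.1 m.2)) ⟨(false, false), Finset.mem_univ _⟩
  refine ⟨(i, j, k), ?_⟩
  have hdiv : ∀ {a b : K4}, V.valuation a ≤ V.valuation b → a / b ∈ V := by
    intro a b h
    rw [← V.valuation_le_one_iff, map_div₀]
    exact div_le_one_of_le₀ h zero_le
  let B : Subalgebra ℂ K4 :=
    { V.toSubring with
      algebraMap_mem' := hV }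
  have hB : ∀ z, z ∈ B ↔ z ∈ V := fun z => Iff.rfl
  have ha : aa i ∈ B := hdiv (hi _ (Finset.mem_univ _))
  have hb : bb i ∈ B := hdiv (hi _ (Finset.mem_univ _))
  have hp : pp i j ∈ B := by
    rw [pp_eq i j k]
    exact hdiv (hjk (!j, k) (Finset.mem_univ _))
  have hq : qq i k ∈ B := by
    rw [qq_eq i j k]
    exact hdiv (hjk (j, !k) (Finset.mem_univ _))
  have hx : ∀ m, xc i j k m ∈ B := by
    intro m
    fin_cases m
    · exact ha
    · exact hb
    · exact hq
    · exact hp
  have hΦ : ∀ f : MvPolynomial (Fin 4) ℂ, aeval (xc i j k) f ∈ B := by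
    intro f
    induction f using MvPolynomial.induction_on with
    | C a => rw [aeval_C]; exact Subalgebra.algebraMap_mem _ a
    | add p q hp hq => rw [map_add]; exact Subalgebra.add_mem _ hp hq
    | mul_X p i hp => rw [map_mul, aeval_X]; exact Subalgebra.mul_mem _ hp (hx i)
  have hw : wc i j k ∈ B := by
    rw [hB]
    apply sq_mem
    rw [wc_rel]
    exact hΦ _
  have hle : (dcX i j k).R ≤ B := by
    rw [DC.R, Algebra.adjoin_le_iff]
    rintro _ ⟨m, rfl⟩
    refine Fin.cases ?_ (fun m => ?_) m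
    · exact hw
    · exact hx m
  intro f hf
  rw [← hB]
  apply hle
  rw [← ring_eq]
  exact hf

/-- The atlas of the fourfold. -/
def atX : EAtlas 4 K4 where
  E := E4
  ι := Fin 3 × Bool × Bool
  l c := ll c.1 c.2.1 c.2.2
  mem c := ll_mem _ _ _
  ne c := ll_ne _ _ _
  frac c z := frac_ringOf (S := Set.range xx) (by rintro _ ⟨i, rfl⟩; exact xx_mem_E4 i) one_mem_E4
    hgen (ll_ne _ _ _) z
  smooth c := by
    rw [ring_eq]
    exact (dcX c.1 c.2.1 c.2.2).smooth (cert_Phi _ _)
  complete := completeX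
  der := der4

/-- The fourfold. -/
def X4 : Variety := atX.toVariety

lemma canonicalX : atX.Canonical gg := by
  intro c p hp
  obtain ⟨κ, hκ, h⟩ := jac_chart c.1 c.2.1 c.2.2
  exact @DC.locCan _ _ _ _ (dcX c.1 c.2.1 c.2.2) (cert_Phi _ _) (fun i => der4 i) _ κ hκ h
    _ (ring_eq c.1 c.2.1 c.2.2) p hp

theorem isFanoX : X4.IsFano := EAtlas.isFano canonicalX

end Pool.Agent.H81
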