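import Mathlib

/-! Irreducibility of `r⁴ - 4 (1 + x⁴ + y⁴)`. -/

noncomputable section

namespace Pool.Agent.H81

open Polynomial

/-- the polynomial `r⁴ - 4 (1 + x⁴ + y⁴)` -/
def Fq : (MvPolynomial (Fin 2) ℂ)[X] :=
  X ^ 4 - C (4 * (1 + MvPolynomial.X 0 ^ 4 + MvPolynomial.X 1 ^ 4))

lemma eval₂_Fq {B : Type} [CommRing B] (f : MvPolynomial (Fin 2) ℂ →+* B) (b : B) :
    Polynomial.eval₂ f b Fq =
      b ^ 4 - 4 * (1 + f (MvPolynomial.X 0) ^ 4 + f (MvPolynomial.X 1) ^ 4) := by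
  rw [Fq, Polynomial.eval₂_sub, Polynomial.eval₂_X_pow, Polynomial.eval₂_C,
    map_mul, map_add, map_add, map_one, map_ofNat, map_pow, map_pow]

lemma Fq_monic : Fq.Monic := by
  unfold Fq
  monicity!

/-- one variable version -/
def Fq1 : (ℂ[X])[X] := X ^ 4 - C (4 * (1 + X ^ 4))

lemma Fq1_monic : Fq1.Monic := by
  unfold Fq1
  monicity!

lemma Fq1_degree : Fq1.degree = 4 := by
  unfold Fq1
  compute_degree!

lemma exists_zeta : ∃ ζ : ℂ, 1 + ζ ^ 4 = 0 := by
  obtain ⟨ζ, hζ⟩ := IsAlgClosed.exists_pow_nat_eq (-1 : ℂ) (n := 4) (by norm_num)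
  exact ⟨ζ, by rw [hζ]; ring⟩

lemma Fq1_irr : Irreducible Fq1 := by
  obtain ⟨ζ, hζ⟩ := exists_zeta
  have hP : (Ideal.span {X - C ζ} : Ideal ℂ[X]).IsPrime :=
    (Ideal.span_singleton_prime (X_sub_C_ne_zero ζ)).2 (prime_X_sub_C ζ)
  refine irreducible_of_eisenstein_criterion hP ?_ ?_ ?_ ?_ Fq1_monic.isPrimitive
  · rw [Fq1_monic.leadingCoeff]
    exact (Ideal.ne_top_iff_one _).1 hP.ne_top
  · intro n hn
    rw [Fq1_degree] at hn
    have hn' : n < 4 := by exact_mod_cast hn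
    rw [Fq1, coeff_sub, coeff_X_pow, coeff_C, if_neg (by omega)]
    split_ifs with h0
    · rw [zero_sub, Ideal.neg_mem_iff, Ideal.mem_span_singleton, dvd_iff_isRoot]
      simp [hζ]
    · rw [sub_zero]
      exact Ideal.zero_mem _
  · rw [Fq1_degree]
    norm_num
  · rw [Ideal.span_singleton_pow, Ideal.mem_span_singleton]
    rintro ⟨q, hq⟩
    have h1 : Fq1.coeff 0 = -(4 * (1 + X ^ 4)) := by
      rw [Fq1, coeff_sub, coeff_X_pow, coeff_C]
      simp
    rw [h1] at hq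
    have h2 := congrArg (fun f => (derivative f).eval ζ) hq
    simp only [derivative_neg, derivative_mul, derivative_add, derivative_one, derivative_X_pow,
      derivative_ofNat] at h2
    simp only [derivative_pow, derivative_sub, derivative_X, derivative_C] at h2
    simp at h2
    rw [h2] at hζ
    norm_num at hζ

lemma Fq_irr : Irreducible Fq := by
  let φ : MvPolynomial (Fin 2) ℂ →+* ℂ[X] := MvPolynomial.eval₂Hom C ![X, 0]
  refine Fq_monic.irreducible_of_irreducible_map φ _ ?_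
  have : Fq.map φ = Fq1 := by
    rw [Fq, Fq1, Polynomial.map_sub, Polynomial.map_pow, map_X, map_C]
    congr 2
    simp [φ]
  rw [this]
  exact Fq1_irr

lemma Fq_prime : Prime Fq := UniqueFactorizationMonoid.irreducible_iff_prime.1 Fq_irr

end Pool.Agent.H81
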