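import Mathlib
import Pool.Agent.H81.Emb

/-! The Picard group of a variety with a factorial chart. -/

set_option linter.unusedSimpArgs false
set_option linter.unusedSectionVars false

noncomputable section

namespace Pool.Agent.H81

open Pool.Agent.H945R2

section mk
variable {K : Type} [Field K] [Algebra ℂ K]
variable {R : Subalgebra ℂ K} [UniqueFactorizationMonoid R] {π : R} (hπ : Prime π)
  (hfrac : ∀ z : K, ∃ a b : R, b ≠ 0 ∧ z * b = a)
include hπ hfrac

lemma mkO_unit_iff (z : mkO hπ hfrac) :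
    IsUnit z ↔ (z : K) ∉ locMax R (Ideal.span {π}) := by
  have hpr := span_prime hπ
  constructor
  · intro hz
    obtain ⟨w, hw⟩ := hz.exists_right_inv
    have h1 : (z : K) * (w : K) = 1 := congrArg Subtype.val hw
    intro h2
    have h3 := locMax_mul w.2 h2
    rw [mul_comm, h1] at h3
    exact one_not_mem_locMax h3
  · intro hz
    obtain ⟨h0, hi⟩ := (locMax_or_unit z.2).resolve_left hz
    exact IsUnit.of_mul_eq_one ⟨(z : K)⁻¹, hi⟩ (Subtype.ext (mul_inv_cancel₀ h0))

lemma mem_mkO_self : (π : K) ∈ mkO hπ hfrac := by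
  have hpr := span_prime hπ
  exact coe_mem_loc (p := Ideal.span {π}) π

lemma mkO_irreducible : Irreducible (⟨(π : K), mem_mkO_self hπ hfrac⟩ : mkO hπ hfrac) := by
  have hpr := span_prime hπ
  have := mkO_dvr hπ hfrac
  rw [IsDiscreteValuationRing.irreducible_iff_uniformizer]
  apply le_antisymm
  · intro z hz
    rw [IsLocalRing.mem_maximalIdeal, mem_nonunits_iff, mkO_unit_iff, not_not] at hz
    obtain ⟨a, s, ha, hs, h⟩ := hz
    obtain ⟨a', rfl⟩ := Ideal.mem_span_singleton.1 ha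
    have hs0 := ne_zero_of_not_mem hs
    rw [Ideal.mem_span_singleton]
    refine ⟨⟨(a' : K) * (s : K)⁻¹, loc_mul (coe_mem_loc a') (loc_inv hs)⟩, Subtype.ext ?_⟩
    show (z : K) = (π : K) * ((a' : K) * (s : K)⁻¹)
    push_cast at h
    field_simp
    linear_combination h
  · rw [Ideal.span_singleton_le_iff_mem, IsLocalRing.mem_maximalIdeal, mem_nonunits_iff,
      mkO_unit_iff, not_not]
    exact (coe_mem_locMax π).2 (Ideal.mem_span_singleton_self π)

end mk

lemma frac_of {K : Type} [Field K] [Algebra ℂ K] {R : Subalgebra ℂ K} (h : IsFractionRing R K)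
    (z : K) : ∃ a b : R, b ≠ 0 ∧ z * (b : K) = (a : K) := by
  obtain ⟨a, b, hb, rfl⟩ := IsFractionRing.div_surjective (A := R) z
  refine ⟨a, b, nonZeroDivisors.ne_zero hb, ?_⟩
  have hb0 : (b : K) ≠ 0 := fun h => nonZeroDivisors.ne_zero hb (Subtype.ext h)
  exact div_mul_cancel₀ _ hb0

variable {X : Variety}

lemma pd_ext {D D' : X.PrimeDivisor} (h : (D.O : Set X.K) = D'.O) : D = D' := by
  have h1 : D.O = D'.O := SetLike.coe_injective h
  cases D
  cases D'
  simp only at h1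
  subst h1
  rfl

lemma mem_of_hasOrder_zero {D : X.PrimeDivisor} {f : X.K} (h : D.HasOrder f 0) :
    f ∈ (D.O : Set X.K) ∧ f⁻¹ ∈ (D.O : Set X.K) := by
  obtain ⟨ϖ, u, _, h1⟩ := h
  rw [zpow_zero, mul_one] at h1
  have h3 : (((u⁻¹ : (D.O)ˣ) : D.O) : X.K) = (((u : D.O) : X.K))⁻¹ := by
    have h3 := congrArg Units.val (map_inv (Units.map (D.O.subtype : D.O →* X.K)) u)
    rw [Units.val_inv_eq_inv_val] at h3
    exact h3
  have h4 : ((u : D.O) : X.K) ∈ D.O := Subtype.property _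
  have h5 : (((u⁻¹ : (D.O)ˣ) : D.O) : X.K) ∈ D.O := Subtype.property _
  rw [h3] at h5
  rw [← h1] at h4 h5
  exact ⟨h4, h5⟩

/-- A factorial chart with trivial units, and the list of the prime divisors outside of it. -/
structure PicData (X : Variety) (n : ℕ) where
  /-- the chart -/
  c : X.ι
  ufd : UniqueFactorizationMonoid (X.chart c)
  unit : ∀ a : X.chart c, IsUnit a → ∃ z : ℂ, (a : X.K) = algebraMap ℂ X.K z
  /-- the prime divisors at infinity -/
  D : Fin n → X.PrimeDivisor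
  inj : Function.Injective D
  out : ∀ k (p : Ideal (X.chart c)), p.IsPrime → ((D k).O : Set X.K) ≠ locRing (X.chart c) p
  all : ∀ D' : X.PrimeDivisor, (∃ k, D' = D k) ∨
    ∃ p : Ideal (X.chart c), p.IsPrime ∧ (D'.O : Set X.K) = locRing (X.chart c) p

namespace PicData

variable {n : ℕ} (P : PicData X n)

lemma hfrac (z : X.K) : ∃ a b : X.chart P.c, b ≠ 0 ∧ z * (b : X.K) = (a : X.K) :=
  frac_of (X.frac P.c) z

/-- the divisor of a prime element of the chart -/
def Dp (π : X.chart P.c) (hπ : Prime π) : X.PrimeDivisor :=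
  haveI := P.ufd
  { O := mkO hπ P.hfrac
    isPoint := ⟨P.c, Ideal.span {π}, span_prime hπ, rfl⟩
    dvr := mkO_dvr hπ P.hfrac }

lemma Dp_O (π : X.chart P.c) (hπ : Prime π) :
    ((P.Dp π hπ).O : Set X.K) = locRing (X.chart P.c) (Ideal.span {π}) := rfl

lemma Dp_ne (π : X.chart P.c) (hπ : Prime π) (k : Fin n) : P.Dp π hπ ≠ P.D k := by
  intro h
  exact P.out k _ (span_prime hπ) (by rw [← h]; rfl)

lemma cases (D : X.PrimeDivisor) :
    (∃ k, D = P.D k) ∨ ∃ (π : X.chart P.c) (hπ : Prime π), D = P.Dp π hπ := by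
  rcases P.all D with h | ⟨q, hq, hO⟩
  · exact Or.inl h
  · right
    have hq0 : q ≠ ⊥ := by
      intro hq0
      have := D.dvr
      obtain ⟨ϖ, hϖ⟩ := IsDiscreteValuationRing.exists_irreducible D.O
      apply hϖ.not_isUnit
      have hall : ∀ z : X.K, z ∈ (D.O : Set X.K) := by
        intro z
        rw [hO]
        obtain ⟨a, b, hb, h⟩ := P.hfrac z
        refine ⟨a, b, ?_, h⟩
        rw [hq0, Ideal.mem_bot]
        exact hb
      have hne : (ϖ : X.K) ≠ 0 := fun h => hϖ.ne_zero (Subtype.ext h)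
      exact IsUnit.of_mul_eq_one ⟨(ϖ : X.K)⁻¹, hall _⟩ (Subtype.ext (mul_inv_cancel₀ hne))
    have := P.ufd
    obtain ⟨π, hπq, hπ⟩ := Ideal.IsPrime.exists_mem_prime_of_ne_bot hq hq0
    refine ⟨π, hπ, pd_ext ?_⟩
    have h2 := dvr_unique D.O D.dvr hO hπ hπq
    rw [h2] at hO
    exact hO

lemma mem_Dp_self (π : X.chart P.c) (hπ : Prime π) : (π : X.K) ∈ (P.Dp π hπ).O :=
  haveI := P.ufd
  mem_mkO_self hπ P.hfrac

lemma Dp_irreducible (π : X.chart P.c) (hπ : Prime π) :
    Irreducible (⟨(π : X.K), P.mem_Dp_self π hπ⟩ : (P.Dp π hπ).O) :=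
  haveI := P.ufd
  mkO_irreducible hπ P.hfrac

lemma Dp_order_self (π : X.chart P.c) (hπ : Prime π) : (P.Dp π hπ).HasOrder (π : X.K) 1 :=
  (P.Dp π hπ).hasOrder_irr (P.Dp_irreducible π hπ)

lemma hasOrder_zero_of_not_mem {π : X.chart P.c} (hπ : Prime π) {a : X.chart P.c}
    (ha : a ∉ Ideal.span {π}) : (P.Dp π hπ).HasOrder (a : X.K) 0 := by
  have hpr := span_prime hπ
  exact (P.Dp π hπ).hasOrder_of_unit (ne_zero_of_not_mem ha)
    (by
      show (a : X.K) ∈ ((P.Dp π hπ).O : Set X.K)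
      rw [P.Dp_O]
      exact coe_mem_loc a)
    (by
      show (a : X.K)⁻¹ ∈ ((P.Dp π hπ).O : Set X.K)
      rw [P.Dp_O]
      exact loc_inv ha)

lemma Dp_congr {π π' : X.chart P.c} (hπ : Prime π) (hπ' : Prime π')
    (h : π ∈ Ideal.span {π'}) : P.Dp π hπ = P.Dp π' hπ' := by
  rw [Ideal.mem_span_singleton] at h
  have h1 : Associated π' π := (hπ'.dvd_prime_iff_associated hπ).1 h
  have h2 : Ideal.span {π} = Ideal.span {π'} := (Ideal.span_singleton_eq_span_singleton.2 h1).symm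
  apply pd_ext
  rw [Dp_O, Dp_O, h2]

lemma Dp_order_other {π π' : X.chart P.c} (hπ : Prime π) (hπ' : Prime π')
    (h : P.Dp π hπ ≠ P.Dp π' hπ') : (P.Dp π' hπ').HasOrder (π : X.K) 0 :=
  P.hasOrder_zero_of_not_mem hπ' fun h1 => h (P.Dp_congr hπ hπ' h1)

/-- divisors at infinity -/
def F : (Fin n → ℤ) →+ (X.PrimeDivisor →₀ ℤ) :=
  (Finsupp.mapDomain.addMonoidHom P.D).comp
    (Finsupp.linearEquivFunOnFinite ℤ ℤ (Fin n)).symm.toAddMonoidHom

lemma F_apply (m : Fin n → ℤ) (k : Fin n) : P.F m (P.D k) = m k := by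
  show Finsupp.mapDomain P.D _ (P.D k) = m k
  rw [Finsupp.mapDomain_apply P.inj]
  rfl

lemma F_Dp (m : Fin n → ℤ) (π : X.chart P.c) (hπ : Prime π) : P.F m (P.Dp π hπ) = 0 := by
  show Finsupp.mapDomain P.D _ (P.Dp π hπ) = 0
  apply Finsupp.mapDomain_of_notMem_range
  rintro ⟨k, hk⟩
  exact P.Dp_ne π hπ k hk.symm

lemma F_single (k : Fin n) : P.F (Pi.single k 1) = Finsupp.single (P.D k) 1 := by
  show Finsupp.mapDomain P.D _ = _
  have h : ((Finsupp.linearEquivFunOnFinite ℤ ℤ (Fin n)).symm.toAddMonoidHom (Pi.single k 1)) =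
      Finsupp.single k 1 := by
    ext j
    show (Pi.single k 1 : Fin n → ℤ) j = _
    rw [Finsupp.single_apply, Pi.single_apply]
    by_cases hjk : j = k
    · rw [if_pos hjk, if_pos hjk.symm]
    · rw [if_neg hjk, if_neg (Ne.symm hjk)]
  rw [h, Finsupp.mapDomain_single]

open Classical in
lemma principal_of_prime (π : X.chart P.c) (hπ : Prime π) :
    ∃ m : Fin n → ℤ, (Finsupp.single (P.Dp π hπ) 1 + P.F m : X.PrimeDivisor →₀ ℤ) ∈
      X.principal := by
  have hne : (π : X.K) ≠ 0 := fun h => hπ.ne_zero (Subtype.ext h)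
  choose m hm using fun k => (P.D k).exists_hasOrder (f := (π : X.K)) hne
  refine ⟨m, (π : X.K), hne, fun D => ?_⟩
  rw [Finsupp.add_apply, Finsupp.single_apply]
  rcases P.cases D with ⟨k, rfl⟩ | ⟨π', hπ', rfl⟩
  · rw [if_neg (P.Dp_ne π hπ k), zero_add, F_apply]
    exact hm k
  · rw [F_Dp, add_zero]
    split_ifs with h
    · rw [← h]
      exact P.Dp_order_self π hπ
    · exact P.Dp_order_other hπ hπ' h

lemma isUnit_of_orders {f : X.K} {a b : X.chart P.c} (hb : b ≠ 0) (hfa : f * b = a)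
    (hf : f ≠ 0) (hab : IsRelPrime a b)
    (h : ∀ (π : X.chart P.c) (hπ : Prime π), f⁻¹ ∈ ((P.Dp π hπ).O : Set X.K)) : IsUnit a := by
  by_contra hu
  have ha : a ≠ 0 := by
    rintro rfl
    rw [ZeroMemClass.coe_zero, mul_eq_zero] at hfa
    rcases hfa with h | h
    · exact hf h
    · exact hb (Subtype.ext h)
  have := P.ufd
  obtain ⟨π, hπi, hπa⟩ := WfDvdMonoid.exists_irreducible_factor hu ha
  have hπ : Prime π := UniqueFactorizationMonoid.irreducible_iff_prime.1 hπi
  have hpr := span_prime hπ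
  have hπb : ¬ π ∣ b := fun h1 => hπ.not_isUnit (hab hπa h1)
  have h1 := h π hπ
  rw [Dp_O] at h1
  have h2 : f ∈ locMax (X.chart P.c) (Ideal.span {π}) :=
    ⟨a, b, Ideal.mem_span_singleton.2 hπa, by rwa [Ideal.mem_span_singleton], hfa⟩
  exact unit_not_mem hf h1 h2

lemma eq_const {f : X.K} (hf' : f ≠ 0)
    (hu : ∀ (π : X.chart P.c) (hπ : Prime π), f ∈ ((P.Dp π hπ).O : Set X.K) ∧
      f⁻¹ ∈ ((P.Dp π hπ).O : Set X.K)) : ∃ z : ℂ, f = algebraMap ℂ X.K z := by
  have := P.ufd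
  have := X.frac P.c
  obtain ⟨a, b, hab, hfab⟩ := IsFractionRing.exists_reduced_fraction (A := X.chart P.c) f
  have hb0 : (b : X.chart P.c) ≠ 0 := nonZeroDivisors.ne_zero b.2
  have hfa : f * ((b : X.chart P.c) : X.K) = (a : X.K) := by
    have := IsLocalization.mk'_spec X.K a b
    rw [hfab] at this
    exact this
  have hua : IsUnit a := P.isUnit_of_orders hb0 hfa hf' hab fun π hπ => (hu π hπ).2
  have ha0 : a ≠ 0 := hua.ne_zero
  have hub : IsUnit (b : X.chart P.c) := by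
    refine P.isUnit_of_orders (f := f⁻¹) ha0 ?_ (inv_ne_zero hf') hab.symm fun π hπ => ?_
    · rw [← hfa, inv_mul_cancel_left₀ hf']
    · rw [inv_inv]
      exact (hu π hπ).1
  obtain ⟨c, hc'⟩ := P.unit _ hua
  obtain ⟨d, hd'⟩ := P.unit _ hub
  refine ⟨c / d, ?_⟩
  have hd0 : algebraMap ℂ X.K d ≠ 0 := by
    rw [← hd']
    exact fun h => hb0 (Subtype.ext h)
  rw [map_div₀, eq_div_iff hd0, ← hd', hfa, hc']

lemma not_principal {m : Fin n → ℤ} (h : P.F m ∈ X.principal) : m = 0 := by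
  obtain ⟨f, hf, hD⟩ := h
  obtain ⟨z, hz⟩ := P.eq_const hf fun π hπ => by
    have h1 := hD (P.Dp π hπ)
    rw [F_Dp] at h1
    exact mem_of_hasOrder_zero h1
  funext k
  have h1 := hD (P.D k)
  rw [F_apply] at h1
  refine (P.D k).hasOrder_unique hf h1 ((P.D k).hasOrder_of_unit hf ?_ ?_)
  · obtain ⟨i, p, hp, hO⟩ := (P.D k).isPoint
    show f ∈ ((P.D k).O : Set X.K)
    rw [hO, hz]
    exact (locSub (X.chart i) p).algebraMap_mem _
  · obtain ⟨i, p, hp, hO⟩ := (P.D k).isPoint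
    show f⁻¹ ∈ ((P.D k).O : Set X.K)
    rw [hO, hz, ← map_inv₀]
    exact (locSub (X.chart i) p).algebraMap_mem _

/-- the homomorphism to the Picard group -/
def toPic : (Fin n → ℤ) →+ X.Pic := (QuotientAddGroup.mk' X.principal).comp P.F

include P in
theorem pic : Nonempty (X.Pic ≃+ (Fin n → ℤ)) := by
  classical
  refine ⟨(AddEquiv.ofBijective P.toPic ⟨?_, ?_⟩).symm⟩
  · rw [injective_iff_map_eq_zero]
    intro m hm
    apply P.not_principal
    rw [← QuotientAddGroup.eq_zero_iff]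
    exact hm
  · intro x
    obtain ⟨Z, rfl⟩ := QuotientAddGroup.mk_surjective x
    change (QuotientAddGroup.mk Z : X.Pic) ∈ P.toPic.range
    induction Z using Finsupp.induction_linear with
    | zero => exact AddSubgroup.zero_mem _
    | add f g hf hg => exact AddSubgroup.add_mem _ hf hg
    | single D n =>
      have h1 : (QuotientAddGroup.mk (Finsupp.single D n) : X.Pic) =
          n • (QuotientAddGroup.mk (Finsupp.single D 1) : X.Pic) := by
        rw [← QuotientAddGroup.mk_zsmul, Finsupp.smul_single, smul_eq_mul, mul_one]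
      rw [h1]
      apply AddSubgroup.zsmul_mem
      rcases P.cases D with ⟨k, rfl⟩ | ⟨π, hπ, rfl⟩
      · refine ⟨Pi.single k 1, ?_⟩
        show QuotientAddGroup.mk (P.F (Pi.single k 1)) = _
        rw [F_single]
      · obtain ⟨m, hm⟩ := P.principal_of_prime π hπ
        refine ⟨-m, ?_⟩
        show QuotientAddGroup.mk (P.F (-m)) = _
        rw [QuotientAddGroup.eq]
        rw [map_neg, neg_neg, add_comm]
        exact hm

end PicData

end Pool.Agent.H81
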