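import Mathlib
import Pool.Agent.H81.Pic
import Pool.Agent.H81.Fano

/-! Discrete valuation rings and primes given by homomorphisms. -/

set_option linter.unusedSimpArgs false
set_option linter.unusedSectionVars false

noncomputable section

namespace Pool.Agent.H81

open Pool.Agent.H945R2

variable {K : Type} [Field K] [Algebra ℂ K]

/-- A discrete valuation ring has only one nonzero prime ideal. -/
lemma dvr_unique' {R : Subalgebra ℂ K} {p : Ideal R} [hp : p.IsPrime] (O : ValuationSubring K)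
    (hd : IsDiscreteValuationRing O) (hO : (O : Set K) = locRing R p) {q : Ideal R} [hq : q.IsPrime]
    (hq0 : q ≠ ⊥) (hqp : q ≤ p) : p = q := by
  apply le_antisymm _ hqp
  obtain ⟨π, hπq, hπ0⟩ := Submodule.exists_mem_ne_zero_of_ne_bot hq0
  have hπp := hqp hπq
  intro f hf
  by_cases hf0 : f = 0
  · rw [hf0]; exact q.zero_mem
  obtain ⟨ϖ, hϖ⟩ := IsDiscreteValuationRing.exists_irreducible O
  have hmem : ∀ g : R, (g : K) ∈ O := fun g => by
    rw [← SetLike.mem_coe, hO]
    exact coe_mem_loc g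
  have hunit : ∀ (g : R) (hg : g ∈ p), ¬ IsUnit (⟨(g : K), hmem g⟩ : O) := by
    intro g hg hu
    obtain ⟨w, hw⟩ := hu.exists_right_inv
    have h1 : (g : K) * (w : K) = 1 := congrArg Subtype.val hw
    have hw' : (w : K) ∈ locRing R p := by
      rw [← hO]; exact w.2
    have h2 := locMax_mul hw' ((coe_mem_locMax g).2 hg)
    rw [mul_comm, h1] at h2
    exact one_not_mem_locMax h2
  have hne : ∀ g : R, g ≠ 0 → (⟨(g : K), hmem g⟩ : O) ≠ 0 := by
    intro g hg h
    apply hg
    have : (g : K) = 0 := congrArg Subtype.val h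
    exact Subtype.ext this
  obtain ⟨a, u, hu⟩ := IsDiscreteValuationRing.eq_unit_mul_pow_irreducible (hne f hf0) hϖ
  obtain ⟨b, v, hv⟩ := IsDiscreteValuationRing.eq_unit_mul_pow_irreducible (hne π hπ0) hϖ
  have ha : a ≠ 0 := by
    rintro rfl
    apply hunit f hf
    rw [hu, pow_zero, mul_one]
    exact u.isUnit
  have h1 : (⟨(f : K), hmem f⟩ : O) ^ b =
      (⟨(π : K), hmem π⟩ : O) ^ a * ((u ^ b * (v ^ a)⁻¹ : Oˣ) : O) := by
    rw [hu, hv]
    have : ((v ^ a * (v ^ a)⁻¹ : Oˣ) : O) = 1 := by simp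
    calc ((u : O) * ϖ ^ a) ^ b = (u : O) ^ b * ϖ ^ (a * b) * ((v ^ a * (v ^ a)⁻¹ : Oˣ) : O) := by
          rw [this]; ring
      _ = ((v : O) * ϖ ^ b) ^ a * ((u ^ b * (v ^ a)⁻¹ : Oˣ) : O) := by
          push_cast; ring
  obtain ⟨c, s, hs, hcs⟩ : (((u ^ b * (v ^ a)⁻¹ : Oˣ) : O) : K) ∈ locRing R p := by
    rw [← hO]; exact Subtype.property _
  have h2 : f ^ b * s = π ^ a * c := by
    apply Subtype.ext
    have h3 := congrArg (Subtype.val : O → K) h1
    push_cast at h3 ⊢
    rw [← hcs]
    have h4 : (f : K) ^ b = (π : K) ^ a * (((u ^ b * (v ^ a)⁻¹ : Oˣ) : O) : K) := by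
      simpa using h3
    rw [h4]
    ring
  have h3 : f ^ b * s ∈ q := by
    rw [h2]
    exact q.mul_mem_right _ (Ideal.pow_mem_of_mem q hπq a (Nat.pos_of_ne_zero ha))
  rcases hq.mem_or_mem h3 with h4 | h4
  · exact hq.mem_of_pow_mem b h4
  · exact absurd (hqp h4) hs

lemma eq_of_locRing {R : Subalgebra ℂ K} {p q : Ideal R} [p.IsPrime] [q.IsPrime]
    (h : locRing R p = locRing R q) : p = q := by
  have h1 := locMax_congr h
  ext z
  rw [← coe_mem_locMax (p := p), ← coe_mem_locMax (p := q), h1]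

lemma le_locSub (R : Subalgebra ℂ K) (p : Ideal R) [p.IsPrime] : R ≤ locSub R p :=
  fun z hz => coe_mem_loc (⟨z, hz⟩ : R)

/-- The construction of discrete valuation rings. -/
theorem exists_dvr {R : Subalgebra ℂ K} (hR : IsNoetherianRing R)
    (hfrac : ∀ z : K, ∃ a b : R, b ≠ 0 ∧ z * (b : K) = (a : K)) (p : Ideal R) [hp : p.IsPrime]
    {ϖ : R} (hϖ : ϖ ∈ p) (hϖ0 : ϖ ≠ 0) (hgen : ∀ f ∈ p, ∃ s, s ∉ p ∧ ϖ ∣ s * f) :
    ∃ O : ValuationSubring K, IsDiscreteValuationRing O ∧ (O : Set K) = locRing R p := by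
  let S := locSub R p
  let _ : Algebra R S := (Subalgebra.inclusion (le_locSub R p)).toRingHom.toAlgebra
  have hcoe : ∀ r : R, ((algebraMap R S r : S) : K) = r := fun r => rfl
  have hloc : IsLocalization.AtPrime S p := by
    refine (isLocalization_iff _ _).2 ⟨?_, ?_, ?_⟩
    · rintro ⟨s, hs⟩
      exact IsUnit.of_mul_eq_one (⟨(s : K)⁻¹, loc_inv hs⟩ : S)
        (Subtype.ext (mul_inv_cancel₀ (ne_zero_of_not_mem (R := R) (p := p) (s := s) hs)))
    · rintro ⟨z, a, s, hs, h⟩
      exact ⟨(a, ⟨s, hs⟩), Subtype.ext h⟩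
    · intro x y hxy
      refine ⟨1, ?_⟩
      have : (x : K) = y := congrArg (Subtype.val : S → K) hxy
      rw [Subtype.ext this]
  have : IsNoetherianRing S := IsLocalization.isNoetherianRing p.primeCompl S hR
  have : IsLocalRing S := IsLocalization.AtPrime.isLocalRing S p
  have hunit : ∀ z : S, (z : K) ∉ locMax R p → IsUnit z := by
    intro z hz
    obtain ⟨h0, hi⟩ := (locMax_or_unit z.2).resolve_left hz
    exact IsUnit.of_mul_eq_one (⟨(z : K)⁻¹, hi⟩ : S) (Subtype.ext (mul_inv_cancel₀ h0))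
  have hnu : ∀ z : S, (z : K) ∈ locMax R p → ¬ IsUnit z := by
    intro z h2 hz
    obtain ⟨w, hw⟩ := hz.exists_right_inv
    have h1 : (z : K) * (w : K) = 1 := congrArg Subtype.val hw
    have h3 := locMax_mul w.2 h2
    rw [mul_comm, h1] at h3
    exact one_not_mem_locMax h3
  let ϖ' : S := algebraMap R S ϖ
  have hmax : IsLocalRing.maximalIdeal S = Ideal.span {ϖ'} := by
    apply le_antisymm
    · intro z hz
      have hz' : (z : K) ∈ locMax R p := by
        by_contra h
        exact hz (hunit z h)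
      obtain ⟨a, s, ha, hs, h⟩ := hz'
      obtain ⟨t, ht, b, hb⟩ := hgen a ha
      have hs0 := ne_zero_of_not_mem hs
      have ht0 := ne_zero_of_not_mem ht
      have hb' : (t : K) * a = ϖ * b := congrArg Subtype.val hb
      rw [Ideal.mem_span_singleton]
      refine ⟨⟨(b : K) * ((s : K)⁻¹ * (t : K)⁻¹), loc_mul (coe_mem_loc b)
        (loc_mul (loc_inv hs) (loc_inv ht))⟩, Subtype.ext ?_⟩
      show (z : K) = (ϖ : K) * ((b : K) * ((s : K)⁻¹ * (t : K)⁻¹))
      field_simp
      linear_combination (t : K) * h + hb'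
    · rw [Ideal.span_singleton_le_iff_mem]
      exact hnu ϖ' ((coe_mem_locMax ϖ).2 hϖ)
  have hnf : ¬ IsField S := by
    intro hf
    obtain ⟨w, hw⟩ := hf.mul_inv_cancel (a := ϖ') (by
      intro h
      apply hϖ0
      have : (ϖ : K) = 0 := congrArg Subtype.val h
      exact Subtype.ext this)
    exact hnu ϖ' ((coe_mem_locMax ϖ).2 hϖ) (IsUnit.of_mul_eq_one w hw)
  have hpr : (IsLocalRing.maximalIdeal S).IsPrincipal := ⟨⟨ϖ', hmax⟩⟩
  have hdvr : IsDiscreteValuationRing S :=
    ((IsDiscreteValuationRing.TFAE S hnf).out 4 0).1 hpr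
  have hval : ValuationRing S := ((IsDiscreteValuationRing.TFAE S hnf).out 0 1).1 hdvr
  let O : ValuationSubring K :=
    { S.toSubring with
      mem_or_inv_mem' := by
        intro z
        obtain ⟨a, b, hb, h⟩ := hfrac z
        have hb0 : (b : K) ≠ 0 := fun h => hb (Subtype.ext h)
        obtain ⟨c, hc⟩ := ValuationRing.cond (algebraMap R S a) (algebraMap R S b)
        rcases hc with hc | hc
        · right
          have h1 : (a : K) * c = b := congrArg Subtype.val hc
          have ha0 : (a : K) ≠ 0 := by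
            intro h2
            rw [h2, zero_mul] at h1
            exact hb0 h1.symm
          have h2 : z = (a : K) / b := by rw [eq_div_iff hb0, h]
          have h3 : z⁻¹ = c := by
            rw [h2, inv_div, div_eq_iff ha0, mul_comm, h1]
          rw [h3]
          exact c.2
        · left
          have h1 : (b : K) * c = a := congrArg Subtype.val hc
          have h2 : z = c := by
            apply mul_right_cancel₀ hb0
            rw [h, ← h1, mul_comm]
          rw [h2]
          exact c.2 }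
  refine ⟨O, ?_, rfl⟩
  let e : S ≃+* O :=
    { toFun := fun z => ⟨z.1, z.2⟩
      invFun := fun z => ⟨z.1, z.2⟩
      left_inv := fun z => rfl
      right_inv := fun z => rfl
      map_mul' := fun a b => rfl
      map_add' := fun a b => rfl }
  exact IsDiscreteValuationRing.RingEquivClass.isDiscreteValuationRing e

/-- Kernels of homomorphisms with a section modulo an ideal. -/
lemma ker_le {R : Type} [CommRing R] {Ω : Type} [CommRing Ω] (ψ : R →+* Ω) (I : Ideal R)
    (s : Ω →+* R ⧸ I) (h : ∀ f, s (ψ f) = Ideal.Quotient.mk I f) : RingHom.ker ψ ≤ I := by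
  intro f hf
  rw [RingHom.mem_ker] at hf
  rw [← Ideal.Quotient.eq_zero_iff_mem, ← h, hf, map_zero]

/-- If the denominator of a chart vanishes at a point, the point is not on the chart. -/
lemma not_on_chart {E : Submodule ℂ K} {l l' : K} (hl : l ∈ E) (hl0 : l ≠ 0) (hl0' : l' ≠ 0)
    {p : Ideal (ringOf E l)} [p.IsPrime] (h : l' / l ∈ locMax (ringOf E l) p)
    (q : Ideal (ringOf E l')) [q.IsPrime] : locRing (ringOf E l) p ≠ locRing (ringOf E l') q := by
  intro e
  have h1 : l / l' ∈ locRing (ringOf E l') q := mem_loc' (div_mem_ringOf hl)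
  rw [← e] at h1
  have h2 := locMax_mul h1 h
  have h3 : l / l' * (l' / l) = 1 := by field_simp
  rw [h3] at h2
  exact one_not_mem_locMax h2
where
  mem_loc' {R : Subalgebra ℂ K} {p : Ideal R} [p.IsPrime] {z : K} (hz : z ∈ R) :
    z ∈ locRing R p := coe_mem_loc (⟨z, hz⟩ : R)

lemma not_locMax_pow {R : Subalgebra ℂ K} {p : Ideal R} [p.IsPrime] {x : K}
    (hx : x ∈ locRing R p) (hx' : x ∉ locMax R p) (n : ℕ) : x ^ n ∉ locMax R p := by
  induction n with
  | zero => rw [pow_zero]; exact one_not_mem_locMax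
  | succ n ih =>
    rw [pow_succ]
    exact not_locMax_mul ((locSub R p).pow_mem hx n) hx ih hx'

end Pool.Agent.H81
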