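import Mathlib
import Pool.Agent.H81.AtX

/-! The base threefold. -/

set_option linter.unusedSimpArgs false
set_option linter.unusedSectionVars false

noncomputable section

namespace Pool.Agent.H81

open Pool.Agent.H945R2 MvPolynomial FanoFib.Tor

/-- the function field of the base -/
abbrev K3 : Type := KK (Fin 3)

/-- homogeneous coordinates of the plane, `zY 0 = 1` -/
def zY (i : Fin 3) : K3 := ![1, xx 0, xx 1] i
/-- the coordinate `u` -/
def uY : K3 := xx 2

lemma zY_ne (i : Fin 3) : zY i ≠ 0 := by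
  fin_cases i
  · exact one_ne_zero
  · exact xx_ne_zero 0
  · exact xx_ne_zero 1

lemma uY_ne : uY ≠ 0 := xx_ne_zero 2

/-- the coordinate `u / z²` or its inverse -/
def pY (i : Fin 3) (j : Bool) : K3 := if j then zY i ^ 2 / uY else uY / zY i ^ 2

/-- the coordinates of a chart -/
def yc (i : Fin 3) (j : Bool) : Fin 3 → K3 := ![zY (aIdx i) / zY i, zY (bIdx i) / zY i, pY i j]

/-- the denominator -/
def lY (i : Fin 3) (j : Bool) : K3 := if j then zY i * uY else zY i ^ 3

lemma lY_ne (i : Fin 3) (j : Bool) : lY i j ≠ 0 := by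
  have h1 := zY_ne i
  have h3 := uY_ne
  cases j <;> simp [lY, h1, h3]

/-! ### the homomorphism of the function fields -/

lemma ind3 : AlgebraicIndependent ℂ (![xx 0, xx 1, uu] : Fin 3 → K4) := by
  have h := (xc_ind 0 false false).comp (![0, 1, 3] : Fin 3 → Fin 4) (by decide)
  convert h using 1
  funext m
  fin_cases m <;> simp [xc, aa, bb, zz, aIdx, bIdx, pp]

/-- the polynomial part of the homomorphism -/
def φ₀ : MvPolynomial (Fin 3) ℂ →ₐ[ℂ] K4 := aeval (![xx 0, xx 1, uu] : Fin 3 → K4)

lemma φ₀_inj : Function.Injective φ₀ := by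
  have := ind3
  rw [algebraicIndependent_iff_injective_aeval] at this
  exact this

/-- the homomorphism of the function fields -/
def φ : K3 →ₐ[ℂ] K4 := IsFractionRing.liftAlgHom φ₀_inj

lemma φ_algebraMap (p : MvPolynomial (Fin 3) ℂ) :
    φ (algebraMap (MvPolynomial (Fin 3) ℂ) K3 p) = φ₀ p :=
  IsFractionRing.lift_algebraMap φ₀_inj p

lemma φ_xx0 : φ (xx 0) = xx 0 := by
  rw [xx, φ_algebraMap, φ₀, aeval_X]
  rfl

lemma φ_xx1 : φ (xx 1) = xx 1 := by
  rw [xx, φ_algebraMap, φ₀, aeval_X]
  rfl

lemma φ_u : φ uY = uu := by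
  rw [uY, xx, φ_algebraMap, φ₀, aeval_X]
  rfl

lemma φ_z (i : Fin 3) : φ (zY i) = zz i := by
  fin_cases i
  · exact map_one φ
  · exact φ_xx0
  · exact φ_xx1

lemma φ_p (i : Fin 3) (j : Bool) : φ (pY i j) = pp i j := by
  cases j
  · show φ (uY / zY i ^ 2) = uu / zz i ^ 2
    rw [map_div₀, map_pow, φ_z, φ_u]
  · show φ (zY i ^ 2 / uY) = zz i ^ 2 / uu
    rw [map_div₀, map_pow, φ_z, φ_u]

lemma φ_yc (i : Fin 3) (j k : Bool) (m : Fin 3) :
    φ (yc i j m) = xc i j k ((![0, 1, 3] : Fin 3 → Fin 4) m) := by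
  fin_cases m
  · show φ (zY (aIdx i) / zY i) = zz (aIdx i) / zz i
    rw [map_div₀, φ_z, φ_z]
  · show φ (zY (bIdx i) / zY i) = zz (bIdx i) / zz i
    rw [map_div₀, φ_z, φ_z]
  · exact φ_p i j

lemma yc_ind (i : Fin 3) (j : Bool) : AlgebraicIndependent ℂ (yc i j) := by
  apply AlgebraicIndependent.of_comp φ
  have h := (xc_ind i j false).comp (![0, 1, 3] : Fin 3 → Fin 4) (by decide)
  convert h using 1
  funext m
  exact φ_yc i j false m

/-! ### the atlas -/

/-- index set of the monomials -/
abbrev GenY : Type := (Fin 3) ⊕ (Fin 3 × Fin 3 × Fin 3)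

/-- the sections -/
def genY : GenY → K3
  | .inl a => zY a * uY
  | .inr (a, b, c) => zY a * zY b * zY c

/-- the space of sections -/
def EY : Submodule ℂ K3 := Submodule.span ℂ (Set.range genY)

lemma EY1 (a : Fin 3) : zY a * uY ∈ EY := Submodule.subset_span ⟨.inl a, rfl⟩
lemma EY2 (a b c : Fin 3) : zY a * zY b * zY c ∈ EY :=
  Submodule.subset_span ⟨.inr (a, b, c), rfl⟩

lemma EY_div_le {l : K3} {A : Subalgebra ℂ K3} (h : ∀ m, genY m / l ∈ A) : ringOf EY l ≤ A := by
  refine ringOf_le fun e he => ?_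
  rw [EY] at he
  induction he using Submodule.span_induction with
  | mem z hz => obtain ⟨j, rfl⟩ := hz; exact h j
  | zero => rw [zero_div]; exact Subalgebra.zero_mem _
  | add a b _ _ ha hb => rw [add_div]; exact Subalgebra.add_mem _ ha hb
  | smul c a _ ha => rw [smul_div_assoc]; exact Subalgebra.smul_mem _ ha c

lemma genY_div {i : Fin 3} {l : K3} {A : Subalgebra ℂ K3} (h0 : ∀ m, zY m / zY i ∈ A)
    (h1 : zY i * uY / l ∈ A) (h2 : zY i ^ 3 / l ∈ A) (m : GenY) : genY m / l ∈ A := by
  have hz := zY_ne i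
  rcases m with a | ⟨a, b, c⟩
  · have := A.mul_mem (h0 a) h1
    convert this using 1
    simp only [genY]
    field_simp
  · have := A.mul_mem (A.mul_mem (A.mul_mem (h0 a) (h0 b)) (h0 c)) h2
    convert this using 1
    simp only [genY]
    field_simp

lemma zY_div_mem {i : Fin 3} {A : Subalgebra ℂ K3} (ha : zY (aIdx i) / zY i ∈ A)
    (hb : zY (bIdx i) / zY i ∈ A) (m : Fin 3) : zY m / zY i ∈ A := by
  have h1 : zY i / zY i ∈ A := by rw [div_self (zY_ne i)]; exact A.one_mem
  fin_cases i <;> fin_cases m <;> assumption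

lemma ringY_eq (i : Fin 3) (j : Bool) :
    ringOf EY (lY i j) = Algebra.adjoin ℂ (Set.range (yc i j)) := by
  have hz := zY_ne i
  have hu := uY_ne
  have hx : ∀ m, yc i j m ∈ Algebra.adjoin ℂ (Set.range (yc i j)) := fun m =>
    Algebra.subset_adjoin ⟨m, rfl⟩
  have ha := hx 0
  have hb := hx 1
  have hp : pY i j ∈ Algebra.adjoin ℂ (Set.range (yc i j)) := hx 2
  have h1 := (Algebra.adjoin ℂ (Set.range (yc i j))).one_mem
  apply le_antisymm
  · refine EY_div_le (genY_div (i := i) (zY_div_mem ha hb) ?_ ?_)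
    · cases j
      · convert hp using 1; simp only [lY, pY, if_true, if_false, Bool.false_eq_true]; field_simp
      · convert h1 using 1; simp only [lY, pY, if_true, if_false, Bool.false_eq_true]; field_simp
    · cases j
      · convert h1 using 1; simp only [lY, pY, if_true, if_false, Bool.false_eq_true]; field_simp
      · convert hp using 1; simp only [lY, pY, if_true, if_false, Bool.false_eq_true]; field_simp
  · rw [Algebra.adjoin_le_iff]
    rintro _ ⟨m, rfl⟩
    show yc i j m ∈ ringOf EY (lY i j)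
    have key : ∀ m, zY m / zY i ∈ ringOf EY (lY i j) := by
      intro m
      cases j
      · have := div_mem_ringOf (l := lY i false) (EY2 m i i)
        convert this using 1; simp only [lY, if_true, if_false, Bool.false_eq_true]; field_simp
      · have := div_mem_ringOf (l := lY i true) (EY1 m)
        convert this using 1; simp only [lY, if_true, if_false, Bool.false_eq_true]; field_simp
    fin_cases m
    · exact key _
    · exact key _
    · show pY i j ∈ ringOf EY (lY i j)
      cases j
      · have := div_mem_ringOf (l := lY i false) (EY1 i)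
        convert this using 1
        simp only [lY, pY, if_true, if_false, Bool.false_eq_true]; field_simp
      · have := div_mem_ringOf (l := lY i true) (EY2 i i i)
        convert this using 1
        simp only [lY, pY, if_true, if_false, Bool.false_eq_true]; field_simp

lemma one_mem_EY : (1 : K3) ∈ EY := by
  have := EY2 0 0 0
  simpa [zY] using this

lemma xx_mem_EY (i : Fin 3) : xx i ∈ EY := by
  fin_cases i
  · have := EY2 1 0 0
    simpa [zY] using this
  · have := EY2 2 0 0
    simpa [zY] using this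
  · have := EY1 0
    simpa [zY, uY] using this

lemma lY_mem (i : Fin 3) (j : Bool) : lY i j ∈ EY := by
  cases j
  · have := EY2 i i i
    convert this using 1
    simp only [lY, if_true, if_false, Bool.false_eq_true]; ring
  · exact EY1 i

lemma pY_eq (i : Fin 3) (j : Bool) : pY i j = lY i (!j) / lY i j := by
  have hz := zY_ne i
  have hu := uY_ne
  cases j <;> simp only [lY, pY, if_true, if_false, Bool.false_eq_true, Bool.not_true,
    Bool.not_false] <;> field_simp

lemma completeY (V : ValuationSubring K3) (hV : ∀ c : ℂ, algebraMap ℂ K3 c ∈ V) :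
    ∃ c : Fin 3 × Bool, ∀ f ∈ ringOf EY (lY c.1 c.2), f ∈ V := by
  obtain ⟨i, -, hi⟩ := Finset.exists_max_image (Finset.univ : Finset (Fin 3))
    (fun m => V.valuation (zY m)) ⟨0, Finset.mem_univ _⟩
  obtain ⟨j, -, hj⟩ := Finset.exists_max_image (Finset.univ : Finset Bool)
    (fun m => V.valuation (lY i m)) ⟨false, Finset.mem_univ _⟩
  refine ⟨(i, j), ?_⟩
  have hdiv : ∀ {a b : K3}, V.valuation a ≤ V.valuation b → a / b ∈ V := by
    intro a b h
    rw [← V.valuation_le_one_iff, map_div₀]
    exact div_le_one_of_le₀ h zero_le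
  let B : Subalgebra ℂ K3 :=
    { V.toSubring with
      algebraMap_mem' := hV }
  have hB : ∀ z, z ∈ B ↔ z ∈ V := fun z => Iff.rfl
  have hp : pY i j ∈ B := by
    rw [pY_eq i j]
    exact hdiv (hj (!j) (Finset.mem_univ _))
  have hle : Algebra.adjoin ℂ (Set.range (yc i j)) ≤ B := by
    rw [Algebra.adjoin_le_iff]
    rintro _ ⟨m, rfl⟩
    show yc i j m ∈ B
    fin_cases m
    · exact hdiv (hi _ (Finset.mem_univ _))
    · exact hdiv (hi _ (Finset.mem_univ _))
    · exact hp
  intro f hf
  rw [← hB]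
  apply hle
  rw [← ringY_eq]
  exact hf

/-- The atlas of the base. -/
def atY : EAtlas 3 K3 where
  E := EY
  ι := Fin 3 × Bool
  l c := lY c.1 c.2
  mem c := lY_mem _ _
  ne c := lY_ne _ _
  frac c z := frac_ringOf (S := Set.range xx) (by rintro _ ⟨i, rfl⟩; exact xx_mem_EY i) one_mem_EY
    hgen (lY_ne _ _) z
  smooth c := by
    rw [ringY_eq]
    exact smooth_affine (yc_ind _ _)
  complete := completeY
  der := frame0

/-- The base threefold. -/
def Y3 : Variety := atY.toVariety

lemma exists_embeddingY : ∃ N, Nonempty (Y3.Embedding N) := by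
  obtain ⟨e⟩ : Nonempty (GenY ≃ Fin (29 + 1)) := ⟨Fintype.equivFinOfCardEq (by decide)⟩
  refine ⟨29, ⟨atY.embedding (fun j => genY (e.symm j)) ?_⟩⟩
  show EY = _
  rw [EY]
  congr 1
  ext z
  constructor
  · rintro ⟨m, rfl⟩
    exact ⟨e m, by simp⟩
  · rintro ⟨j, rfl⟩
    exact ⟨e.symm j, rfl⟩

end Pool.Agent.H81
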