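import Mathlib
import Pool.Agent.H81.Dvr
import Pool.Agent.H81.Y

/-! The Picard group of the base. -/

set_option linter.unusedSimpArgs false
set_option linter.unusedSectionVars false

noncomputable section

namespace Pool.Agent.H81

open Pool.Agent.H945R2 MvPolynomial FanoFib.Tor

section aff

variable {K : Type} [Field K] [Algebra ℂ K] {n : ℕ} {x : Fin n → K}
  (hx : AlgebraicIndependent ℂ x) {R : Subalgebra ℂ K} (hR : R = Algebra.adjoin ℂ (Set.range x))

/-- a chart which is an affine space -/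
def affEquiv : MvPolynomial (Fin n) ℂ ≃ₐ[ℂ] R :=
  hx.aevalEquiv.trans (Subalgebra.equivOfEq _ _ hR.symm)

lemma coe_aff (p : MvPolynomial (Fin n) ℂ) : (affEquiv hx hR p : K) = MvPolynomial.aeval x p := by
  have := hx.algebraMap_aevalEquiv p
  exact this

lemma aff_X (i : Fin n) : (affEquiv hx hR (MvPolynomial.X i) : K) = x i := by
  rw [coe_aff, MvPolynomial.aeval_X]

include hx hR in
lemma aff_ufm : UniqueFactorizationMonoid R :=
  (MulEquiv.uniqueFactorizationMonoid (affEquiv hx hR).toMulEquiv inferInstance)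

lemma aff_prime (i : Fin n) : Prime (affEquiv hx hR (MvPolynomial.X i)) :=
  (MulEquiv.prime_iff (affEquiv hx hR)).2 (MvPolynomial.X_prime)

lemma aff_not_mem {i j : Fin n} (h : i ≠ j) :
    affEquiv hx hR (MvPolynomial.X j) ∉ Ideal.span {affEquiv hx hR (MvPolynomial.X i)} := by
  rw [Ideal.mem_span_singleton]
  intro h1
  have h2 : (X i : MvPolynomial (Fin n) ℂ) ∣ X j := by
    have := map_dvd (affEquiv hx hR).symm h1
    simpa using this
  exact h (MvPolynomial.X_dvd_X.1 h2)

include hx hR in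
lemma aff_unit {a : R} (ha : IsUnit a) : ∃ z : ℂ, (a : K) = algebraMap ℂ K z := by
  have h1 : IsUnit ((affEquiv hx hR).symm a) := ha.map (affEquiv hx hR).symm
  rw [MvPolynomial.isUnit_iff_eq_C_of_isReduced] at h1
  obtain ⟨c, hc, h⟩ := h1
  refine ⟨c, ?_⟩
  have h2 : a = affEquiv hx hR (MvPolynomial.C c) := by rw [← h, AlgEquiv.apply_symm_apply]
  rw [h2, coe_aff, MvPolynomial.aeval_C]

end aff

/-- the coordinate ring of a chart of the base. -/
abbrev RY (i : Fin 3) (j : Bool) : Subalgebra ℂ K3 := ringOf EY (lY i j)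

/-- the isomorphism of a chart with an affine space -/
def eY (i : Fin 3) (j : Bool) : MvPolynomial (Fin 3) ℂ ≃ₐ[ℂ] RY i j :=
  affEquiv (yc_ind i j) (ringY_eq i j)

lemma eY_X (i : Fin 3) (j : Bool) (m : Fin 3) : (eY i j (X m) : K3) = yc i j m :=
  aff_X _ _ _

lemma fracY (i : Fin 3) (j : Bool) (z : K3) :
    ∃ a b : RY i j, b ≠ 0 ∧ z * (b : K3) = (a : K3) := atY.frac (i, j) z

section classify

variable {i : Fin 3} {j : Bool} {p : Ideal (RY i j)} [hp : p.IsPrime]

lemma yc_mem_loc (m : Fin 3) : yc i j m ∈ locRing (RY i j) p := by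
  rw [← eY_X]
  exact coe_mem_loc _

lemma yc_locMax {m m' : Fin 3} (h : p = Ideal.span {eY i j (X m)}) (hm : m ≠ m') :
    yc i j m' ∉ locMax (RY i j) p := by
  rw [← eY_X, coe_mem_locMax, h]
  exact aff_not_mem _ _ hm

variable (O : ValuationSubring K3) (hd : IsDiscreteValuationRing O)
  (hO : (O : Set K3) = locRing (RY i j) p)
include hd hO

lemma eq_span_of_mem {m : Fin 3} (h : yc i j m ∈ locMax (RY i j) p) :
    p = Ideal.span {eY i j (X m)} := by
  refine dvr_unique O hd hO (aff_prime _ _ m) ?_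
  rw [← coe_mem_locMax, eY_X]
  exact h

lemma move (i' : Fin 3) (j' : Bool) (h : lY i' j' / lY i j ∉ locMax (RY i j) p) :
    ∃ q : Ideal (RY i' j'), ∃ _ : q.IsPrime, (O : Set K3) = locRing (RY i' j') q ∧
      locMax (RY i j) p = locMax (RY i' j') q := by
  obtain ⟨q, hq, hq', _⟩ := transfer (lY_mem i j) (lY_ne i j) (lY_mem i' j') (lY_ne i' j') h
  exact ⟨q, hq, hO.trans hq', locMax_congr hq'⟩

end classify

lemma z_ratio (i : Fin 3) (hi : i ≠ 0) : yc i false 0 = zY 0 / zY i ∧ yc i true 0 = zY 0 / zY i := by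
  fin_cases i
  · exact absurd rfl hi
  · exact ⟨rfl, rfl⟩
  · exact ⟨rfl, rfl⟩

/-- the divisor `v = 0` -/
lemma class_v {i : Fin 3} {p : Ideal (RY i true)} [hp : p.IsPrime] (O : ValuationSubring K3)
    (hd : IsDiscreteValuationRing O) (hO : (O : Set K3) = locRing (RY i true) p)
    (h : yc i true 2 ∈ locMax (RY i true) p) :
    (O : Set K3) = locRing (RY 0 true) (Ideal.span {eY 0 true (X 2)}) := by
  have hz := zY_ne i
  have hz0 := zY_ne 0
  have hu := uY_ne
  have h1 := eq_span_of_mem O hd hO h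
  have ha : zY 0 / zY i ∉ locMax (RY i true) p := by
    by_cases hi : i = 0
    · subst hi
      rw [div_self hz]
      exact one_not_mem_locMax
    · rw [← (z_ratio i hi).2]
      exact yc_locMax h1 (by decide)
  have haO : zY 0 / zY i ∈ locRing (RY i true) p := by
    by_cases hi : i = 0
    · subst hi
      rw [div_self hz]
      exact (locSub (RY _ true) p).one_mem
    · rw [← (z_ratio i hi).2]
      exact yc_mem_loc 0
  have h2 : lY 0 true / lY i true = zY 0 / zY i := by
    simp only [lY, if_true]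
    field_simp
  obtain ⟨q, hq, hO', hm⟩ := move O hd hO 0 true (by rw [h2]; exact ha)
  have h3 : yc 0 true 2 ∈ locMax (RY 0 true) q := by
    rw [← hm]
    have h4 : yc 0 true 2 = (zY 0 / zY i) ^ 2 * yc i true 2 := by
      show zY 0 ^ 2 / uY = (zY 0 / zY i) ^ 2 * (zY i ^ 2 / uY)
      field_simp
    rw [h4]
    exact locMax_mul ((locSub _ p).pow_mem haO 2) h
  rw [hO', eq_span_of_mem O hd hO' h3]

/-- the divisor `z 0 = 0` -/
lemma class_z {i : Fin 3} (hi : i ≠ 0) {j : Bool} {p : Ideal (RY i j)} [hp : p.IsPrime]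
    (O : ValuationSubring K3)
    (hd : IsDiscreteValuationRing O) (hO : (O : Set K3) = locRing (RY i j) p)
    (h : yc i j 0 ∈ locMax (RY i j) p) :
    (O : Set K3) = locRing (RY 1 false) (Ideal.span {eY 1 false (X 0)}) := by
  have hz := zY_ne i
  have hz0 := zY_ne 0
  have hz1 := zY_ne 1
  have hu := uY_ne
  have h1 := eq_span_of_mem O hd hO h
  have hb : zY 1 / zY i ∉ locMax (RY i j) p ∧ zY 1 / zY i ∈ locRing (RY i j) p ∧
      (zY 1 / zY i)⁻¹ ∈ locRing (RY i j) p := by
    suffices h5 : zY 1 / zY i ∉ locMax (RY i j) p ∧ zY 1 / zY i ∈ locRing (RY i j) p from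
      ⟨h5.1, h5.2, ((locMax_or_unit h5.2).resolve_left h5.1).2⟩
    fin_cases i
    · exact absurd rfl hi
    · show zY 1 / zY 1 ∉ _ ∧ zY 1 / zY 1 ∈ _
      rw [div_self hz1]
      exact ⟨one_not_mem_locMax, (locSub (RY _ j) p).one_mem⟩
    · exact ⟨yc_locMax (m' := 1) h1 (by decide), yc_mem_loc 1⟩
  have h2 : lY 1 false / lY i j ∉ locMax (RY i j) p := by
    cases j
    · have : lY 1 false / lY i false = (zY 1 / zY i) ^ 3 := by
        simp only [lY, if_true, if_false, Bool.false_eq_true]
        field_simp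
      rw [this]
      exact not_locMax_pow hb.2.1 hb.1 3
    · have : lY 1 false / lY i true = (zY 1 / zY i) ^ 3 * yc i true 2 := by
        show lY 1 false / lY i true = (zY 1 / zY i) ^ 3 * (zY i ^ 2 / uY)
        simp only [lY, if_true, if_false, Bool.false_eq_true]
        field_simp
      rw [this]
      exact not_locMax_mul ((locSub _ p).pow_mem hb.2.1 3) (yc_mem_loc 2)
        (not_locMax_pow hb.2.1 hb.1 3) (yc_locMax h1 (by decide))
  obtain ⟨q, hq, hO', hm⟩ := move O hd hO 1 false h2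
  have h3 : yc 1 false 0 ∈ locMax (RY 1 false) q := by
    rw [← hm]
    have h4 : yc 1 false 0 = (zY 1 / zY i)⁻¹ * yc i j 0 := by
      have : yc i j 0 = zY 0 / zY i := by
        cases j
        · exact (z_ratio i hi).1
        · exact (z_ratio i hi).2
      rw [this]
      show zY 0 / zY 1 = _
      field_simp
    rw [h4]
    exact locMax_mul hb.2.2 h
  rw [hO', eq_span_of_mem O hd hO' h3]

/-- valuation ring of a coordinate hyperplane in a chart -/
def OYm (i : Fin 3) (j : Bool) (m : Fin 3) : ValuationSubring K3 :=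
  haveI := aff_ufm (yc_ind i j) (ringY_eq i j)
  mkO (aff_prime (yc_ind i j) (ringY_eq i j) m) (fracY i j)

lemma OYm_dvr (i : Fin 3) (j : Bool) (m : Fin 3) : IsDiscreteValuationRing (OYm i j m) :=
  haveI := aff_ufm (yc_ind i j) (ringY_eq i j)
  mkO_dvr (aff_prime (yc_ind i j) (ringY_eq i j) m) (fracY i j)

/-- divisor of a coordinate hyperplane in a chart -/
def DYm (i : Fin 3) (j : Bool) (m : Fin 3) : Y3.PrimeDivisor where
  O := OYm i j m
  isPoint := ⟨(i, j), Ideal.span {eY i j (X m)}, span_prime (aff_prime _ _ _), rfl⟩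
  dvr := OYm_dvr i j m

/-- The prime divisors at infinity. -/
def DY : Fin 2 → Y3.PrimeDivisor := ![DYm 1 false 0, DYm 0 true 2]

/-- the valuation ring of a prime divisor, as a subset of `K3` -/
def OY (D : Y3.PrimeDivisor) : ValuationSubring K3 := D.O

lemma OY_dvr (D : Y3.PrimeDivisor) : IsDiscreteValuationRing (OY D) := D.dvr

lemma DY0 : (OY (DY 0) : Set K3) = locRing (RY 1 false) (Ideal.span {eY 1 false (X 0)}) := rfl
lemma DY1 : (OY (DY 1) : Set K3) = locRing (RY 0 true) (Ideal.span {eY 0 true (X 2)}) := rfl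

lemma l_ratio_Y (i : Fin 3) (j : Bool) : lY 0 false / lY i j =
    (zY 0 / zY i) ^ 3 * (if j then yc i j 2 else 1) := by
  have hz := zY_ne i
  have hz0 := zY_ne 0
  have hu := uY_ne
  cases j
  · simp only [lY, if_true, if_false, Bool.false_eq_true]
    field_simp
  · show _ = (zY 0 / zY i) ^ 3 * (zY i ^ 2 / uY)
    simp only [lY, if_true, if_false, Bool.false_eq_true]
    field_simp

lemma allY (O : ValuationSubring K3) (hd : IsDiscreteValuationRing O) (i : Fin 3) (j : Bool)
    (p : Ideal (RY i j)) (hp : p.IsPrime) (hO : (O : Set K3) = locRing (RY i j) p) :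
    (∃ k, (O : Set K3) = OY (DY k)) ∨
    ∃ q : Ideal (RY 0 false), q.IsPrime ∧ (O : Set K3) = locRing (RY 0 false) q := by
  by_cases h : lY 0 false / lY i j ∈ locMax (RY i j) p
  · left
    by_cases h0 : i ≠ 0 ∧ yc i j 0 ∈ locMax (RY i j) p
    · exact ⟨0, class_z h0.1 O hd hO h0.2⟩
    · have hz : zY 0 / zY i ∈ locRing (RY i j) p ∧ zY 0 / zY i ∉ locMax (RY i j) p := by
        by_cases hi : i = 0
        · subst hi
          rw [div_self (zY_ne _)]
          exact ⟨(locSub (RY _ j) p).one_mem, one_not_mem_locMax⟩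
        · have : yc i j 0 = zY 0 / zY i := by
            cases j
            · exact (z_ratio i hi).1
            · exact (z_ratio i hi).2
          rw [← this]
          exact ⟨yc_mem_loc 0, fun h1 => h0 ⟨hi, h1⟩⟩
      cases j
      · exfalso
        rw [l_ratio_Y, if_neg (by decide), mul_one] at h
        exact not_locMax_pow hz.1 hz.2 3 h
      · refine ⟨1, class_v O hd hO ?_⟩
        rw [l_ratio_Y, if_pos rfl] at h
        by_contra h1
        exact not_locMax_mul ((locSub _ p).pow_mem hz.1 3) (yc_mem_loc 2)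
          (not_locMax_pow hz.1 hz.2 3) h1 h
  · right
    obtain ⟨q, hq, hO', _⟩ := move O hd hO 0 false h
    exact ⟨q, hq, hO'⟩

instance prY (i : Fin 3) (j : Bool) (m : Fin 3) : (Ideal.span {eY i j (X m)}).IsPrime :=
  span_prime (aff_prime _ _ _)

lemma DY_ne : DY 0 ≠ DY 1 := by
  intro h
  have h1 : (OY (DY 0) : Set K3) = OY (DY 1) := by rw [h]
  rw [DY0, DY1] at h1
  -- `zY 1` has a pole on the first one
  have h2 : zY 1 ∈ locRing (RY 0 true) (Ideal.span {eY 0 true (X 2)}) := by
    have h3 := yc_mem_loc (i := 0) (j := true) (p := Ideal.span {eY 0 true (X 2)}) 0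
    have h4 : yc 0 true 0 = zY 1 := by
      show zY 1 / zY 0 = zY 1
      exact div_one _
    rw [h4] at h3
    exact h3
  rw [← h1] at h2
  have h5 : yc 1 false 0 ∈ locMax (RY 1 false) (Ideal.span {eY 1 false (X 0)}) := by
    rw [← eY_X, coe_mem_locMax]
    exact Ideal.mem_span_singleton_self _
  have h6 := locMax_mul h2 h5
  have h7 : zY 1 * yc 1 false 0 = 1 := by
    show zY 1 * (zY 0 / zY 1) = 1
    have := zY_ne 1
    have h0 : zY 0 = 1 := rfl
    rw [h0]
    field_simp
  rw [h7] at h6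
  exact one_not_mem_locMax h6

lemma outY (k : Fin 2) (q : Ideal (RY 0 false)) (hq : q.IsPrime) :
    (OY (DY k) : Set K3) ≠ locRing (RY 0 false) q := by
  fin_cases k
  · show (OY (DY 0) : Set K3) ≠ _
    rw [DY0]
    apply not_on_chart (lY_mem _ _) (lY_ne _ _) (lY_ne _ _)
    rw [l_ratio_Y, if_neg (by decide), mul_one]
    have h5 : zY 0 / zY 1 ∈ locMax (RY 1 false) (Ideal.span {eY 1 false (X 0)}) := by
      have : yc 1 false 0 ∈ locMax (RY 1 false) (Ideal.span {eY 1 false (X 0)}) := by
        rw [← eY_X, coe_mem_locMax]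
        exact Ideal.mem_span_singleton_self _
      exact this
    have h6 := locMax_mul (loc_mul (locMax_sub h5) (locMax_sub h5)) h5
    convert h6 using 1
    ring
  · show (OY (DY 1) : Set K3) ≠ _
    rw [DY1]
    apply not_on_chart (lY_mem _ _) (lY_ne _ _) (lY_ne _ _)
    rw [l_ratio_Y, if_pos rfl, div_self (zY_ne 0), one_pow, one_mul, ← eY_X, coe_mem_locMax]
    exact Ideal.mem_span_singleton_self _

/-- The data for the computation of the Picard group. -/
def picDataY : PicData Y3 2 where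
  c := (0, false)
  ufd := aff_ufm (yc_ind 0 false) (ringY_eq 0 false)
  unit a ha := aff_unit (yc_ind 0 false) (ringY_eq 0 false) ha
  D := DY
  inj := by
    have h := DY_ne
    intro k k' hk
    fin_cases k <;> fin_cases k'
    · rfl
    · exact absurd hk h
    · exact absurd hk.symm h
    · rfl
  out k q hq := outY k q hq
  all D' := by
    obtain ⟨⟨i, j⟩, p, hp, hO⟩ := D'.isPoint
    rcases allY (OY D') (OY_dvr D') i j p hp hO with ⟨k, hk⟩ | h
    · exact Or.inl ⟨k, pd_ext hk⟩
    · exact Or.inr h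

theorem picY : Nonempty (Y3.Pic ≃+ (Fin 2 → ℤ)) := picDataY.pic

end Pool.Agent.H81
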