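import Mathlib
import Pool.Agent.H81.Irr
import Pool.Agent.H81.PicY

/-! The base chart of the fourfold is factorial. -/

set_option linter.unusedSimpArgs false
set_option linter.unusedSectionVars false

noncomputable section

namespace Pool.Agent.H81

open Pool.Agent.H945R2 MvPolynomial FanoFib.Tor

section gen

variable {K : Type} [Field K] [Algebra ℂ K] {n : ℕ}

lemma DC.exists_hom (A : DC n K) {R : Subalgebra ℂ K} (hR : R = A.R) {B : Type} [CommRing B]
    [Algebra ℂ B] {y : Fin n → B} {v : B} (hv : v ^ 2 = aeval y A.Φ) :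
    ∃ ψ : R →ₐ[ℂ] B, (∀ h : A.w ∈ R, ψ ⟨A.w, h⟩ = v) ∧ ∀ k (h : A.x k ∈ R), ψ ⟨A.x k, h⟩ = y k := by
  subst hR
  exact ⟨A.lift y v hv, fun _ => A.lift_w hv, fun k _ => A.lift_x hv k⟩

lemma DC.ringHom_eq (A : DC n K) {R : Subalgebra ℂ K} (hR : R = A.R) {B : Type} [CommRing B]
    {f g : R →+* B} (hc : ∀ c : ℂ, f (algebraMap ℂ R c) = g (algebraMap ℂ R c))
    (hw : ∀ h : A.w ∈ R, f ⟨A.w, h⟩ = g ⟨A.w, h⟩)
    (hx : ∀ k (h : A.x k ∈ R), f ⟨A.x k, h⟩ = g ⟨A.x k, h⟩) : f = g := by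
  subst hR
  have h1 : f.comp (A.π : MvPolynomial (Fin (n + 1)) ℂ →+* A.R) =
      g.comp (A.π : MvPolynomial (Fin (n + 1)) ℂ →+* A.R) := by
    apply MvPolynomial.ringHom_ext
    · intro c
      have := hc c
      simp only [RingHom.comp_apply, RingHom.coe_coe]
      have h2 : A.π (C c) = algebraMap ℂ A.R c := A.π.commutes c
      rw [h2]
      exact this
    · intro i
      simp only [RingHom.comp_apply, RingHom.coe_coe, DC.π, aeval_X]
      refine Fin.cases ?_ (fun k => ?_) i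
      · exact hw _
      · exact hx k _
  ext z
  obtain ⟨p, rfl⟩ := A.π_surjective z
  exact DFunLike.congr_fun h1 p

lemma DC.noeth (A : DC n K) {R : Subalgebra ℂ K} (hR : R = A.R) : IsNoetherianRing R := by
  subst hR
  have := A.finiteType
  exact Algebra.FiniteType.isNoetherianRing ℂ A.R

/-- prime elements from homomorphisms -/
lemma prime_of_ker {R : Type} [CommRing R] [IsDomain R] {Ω : Type} [CommRing Ω] [IsDomain Ω]
    (ψ : R →+* Ω) {g : R} (hg : g ≠ 0) (hψ : ψ g = 0) (h : RingHom.ker ψ ≤ Ideal.span {g}) :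
    Prime g := by
  rw [← Ideal.span_singleton_prime hg]
  have : Ideal.span {g} = RingHom.ker ψ := by
    apply le_antisymm _ h
    rw [Ideal.span_singleton_le_iff_mem]
    exact hψ
  rw [this]
  exact RingHom.ker_isPrime ψ

/-- inverting an element -/
lemma isLocalization_powSub {B : Subalgebra ℂ K} {g : K} (hg : g ∈ B) (hg0 : g ≠ 0)
    {S : Subalgebra ℂ K} (hS : S = powSub B g hg) (hle : B ≤ S) :
    letI : Algebra B S := (Subalgebra.inclusion hle).toRingHom.toAlgebra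
    IsLocalization.Away (⟨g, hg⟩ : B) S := by
  let _ : Algebra B S := (Subalgebra.inclusion hle).toRingHom.toAlgebra
  refine (isLocalization_iff _ _).2 ⟨?_, ?_, ?_⟩
  · rintro ⟨_, n, rfl⟩
    have h1 : g⁻¹ ^ n ∈ S := by
      rw [hS]
      refine ⟨n, ?_⟩
      rw [inv_pow, inv_mul_cancel₀ (pow_ne_zero _ hg0)]
      exact B.one_mem
    refine IsUnit.of_mul_eq_one (⟨g⁻¹ ^ n, h1⟩ : S) (Subtype.ext ?_)
    show g ^ n * g⁻¹ ^ n = 1
    rw [inv_pow, mul_inv_cancel₀ (pow_ne_zero _ hg0)]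
  · rintro ⟨z, hz⟩
    have hz' := hz
    rw [hS] at hz'
    obtain ⟨m, hm⟩ := hz'
    exact ⟨(⟨_, hm⟩, ⟨(⟨g, hg⟩ : B) ^ m, m, rfl⟩), Subtype.ext rfl⟩
  · intro x y hxy
    refine ⟨1, ?_⟩
    have : (x : K) = y := congrArg (Subtype.val : S → K) hxy
    rw [Subtype.ext this]

end gen

/-! ### the polynomial ring `ℂ[x, y, r, p]` in the function field -/

/-- the polynomial ring -/
def A0 : Subalgebra ℂ K4 := Algebra.adjoin ℂ (Set.range (xx : Fin 4 → K4))

lemma xx_ind : AlgebraicIndependent ℂ (xx : Fin 4 → K4) := by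
  refine algInd_of_jac (fun i => der4 i) _ ?_
  have h := jac_xx
  have h2 : (![xx 0, xx 1, xx 2, xx 3] : Fin 4 → K4) = xx := by
    funext j
    fin_cases j <;> rfl
  rw [h2] at h
  rw [h]
  exact one_ne_zero

/-- the isomorphism with the polynomial ring -/
def e0 : MvPolynomial (Fin 4) ℂ ≃ₐ[ℂ] A0 := affEquiv xx_ind rfl

/-- the polynomial `2 p - r²` -/
def gP : MvPolynomial (Fin 4) ℂ := 2 * X 3 - X 2 ^ 2

lemma coe_e0 (p : MvPolynomial (Fin 4) ℂ) : (e0 p : K4) = aeval xx p := coe_aff _ _ p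

lemma e0_g : (e0 gP : K4) = gg := by
  rw [coe_e0, gP, gg]
  simp

lemma gP_prime : Prime gP := by
  let ψ : MvPolynomial (Fin 4) ℂ →+* MvPolynomial (Fin 3) ℂ :=
    (aeval ![X 0, X 1, X 2, C (1 / 2) * X 2 ^ 2] :
      MvPolynomial (Fin 4) ℂ →ₐ[ℂ] MvPolynomial (Fin 3) ℂ).toRingHom
  have h2 : (2 : MvPolynomial (Fin 3) ℂ) * C (1 / 2) = 1 := by
    have : (2 : MvPolynomial (Fin 3) ℂ) = C 2 := (map_ofNat C 2).symm
    rw [this, ← C_mul]
    norm_num
  have h2' : (2 : MvPolynomial (Fin 4) ℂ) * C (1 / 2) = 1 := by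
    have : (2 : MvPolynomial (Fin 4) ℂ) = C 2 := (map_ofNat C 2).symm
    rw [this, ← C_mul]
    norm_num
  refine prime_of_ker ψ ?_ ?_ ?_
  · intro h
    have := congrArg (eval ![0, 0, 0, 1]) h
    simp [gP] at this
  · show aeval _ gP = 0
    rw [gP]
    simp only [map_sub, map_mul, map_ofNat, aeval_X, map_pow, Matrix.cons_val]
    linear_combination (X 2 ^ 2) * h2
  · let s : MvPolynomial (Fin 3) ℂ →+* MvPolynomial (Fin 4) ℂ ⧸ Ideal.span {gP} :=
      (aeval (fun i => Ideal.Quotient.mk (Ideal.span {gP}) (X ((![0, 1, 2] : Fin 3 → Fin 4) i))) :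
        MvPolynomial (Fin 3) ℂ →ₐ[ℂ] MvPolynomial (Fin 4) ℂ ⧸ Ideal.span {gP}).toRingHom
    refine ker_le ψ _ s ?_
    intro f
    have h3 : s.comp ψ = Ideal.Quotient.mk (Ideal.span {gP}) := by
      apply MvPolynomial.ringHom_ext
      · intro c
        simp [s, ψ]
        rfl
      · intro i
        fin_cases i
        · simp [s, ψ]
        · simp [s, ψ]
        · simp [s, ψ]
        · have h4 : (X 3 : MvPolynomial (Fin 4) ℂ) - C (1 / 2) * X 2 ^ 2 = C (1 / 2) * gP := by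
            rw [gP]
            linear_combination (-(X 3)) * h2'
          have h5 : Ideal.Quotient.mk (Ideal.span {gP}) (X 3) =
              Ideal.Quotient.mk (Ideal.span {gP}) (C (1 / 2) * X 2 ^ 2) := by
            rw [Ideal.Quotient.eq, h4]
            exact Ideal.mul_mem_left _ _ (Ideal.mem_span_singleton_self _)
          show s (ψ (X 3)) = Ideal.Quotient.mk (Ideal.span {gP}) (X 3)
          rw [h5]
          simp only [s, ψ, AlgHom.toRingHom_eq_coe, RingHom.coe_coe, aeval_X, Matrix.cons_val,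
            map_mul, map_pow]
          congr 1
          rw [MvPolynomial.aeval_C]
          rfl
    exact DFunLike.congr_fun h3 f

/-! ### the base chart -/

/-- the coordinate ring of the base chart -/
def R0 : Subalgebra ℂ K4 := ringOf E4 (ll 0 false false)

lemma R0_eq : R0 = (dcX 0 false false).R := ring_eq 0 false false

lemma w0 : wc 0 false false = ww := by simp [wc, ll, zz]
lemma x00 : xc 0 false false 0 = xx 0 := by simp [xc, aa, zz, aIdx]
lemma x01 : xc 0 false false 1 = xx 1 := by simp [xc, bb, zz, bIdx]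
lemma x02 : xc 0 false false 2 = rr := by simp [xc, qq, zz]
lemma x03 : xc 0 false false 3 = uu := by simp [xc, pp, zz]

lemma mem0_w : ww ∈ R0 := by rw [R0_eq, ← w0]; exact (dcX 0 false false).w_mem
lemma mem0_0 : xx 0 ∈ R0 := by rw [R0_eq, ← x00]; exact (dcX 0 false false).x_mem 0
lemma mem0_1 : xx 1 ∈ R0 := by rw [R0_eq, ← x01]; exact (dcX 0 false false).x_mem 1
lemma mem0_r : rr ∈ R0 := by rw [R0_eq, ← x02]; exact (dcX 0 false false).x_mem 2
lemma mem0_u : uu ∈ R0 := by rw [R0_eq, ← x03]; exact (dcX 0 false false).x_mem 3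
lemma mem0_3 : xx 3 ∈ R0 := by
  have := R0.sub_mem mem0_w mem0_u
  have h2 : ww - uu = xx 3 := by rw [ww]; ring
  rw [h2] at this
  exact this

lemma two_mem (R : Subalgebra ℂ K4) : (2 : K4) ∈ R := by
  have : (2 : K4) = algebraMap ℂ K4 2 := (map_ofNat _ 2).symm
  rw [this]
  exact R.algebraMap_mem _

lemma mem0_g : gg ∈ R0 := R0.sub_mem (R0.mul_mem (two_mem _) mem0_3) (R0.pow_mem mem0_r 2)

lemma A0_le : A0 ≤ R0 := by
  rw [A0, Algebra.adjoin_le_iff]
  rintro _ ⟨i, rfl⟩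
  fin_cases i
  · exact mem0_0
  · exact mem0_1
  · exact mem0_r
  · exact mem0_3

/-- `g` as an element of the chart -/
def g0 : R0 := ⟨gg, mem0_g⟩

lemma g0_ne : g0 ≠ 0 := fun h => gg_ne (congrArg Subtype.val h)

/-- the coordinate ring of the exceptional divisor `g = 0` -/
abbrev Ωg : Type := Polynomial (AdjoinRoot Fq)

instance : IsDomain (AdjoinRoot Fq) := AdjoinRoot.isDomain_of_prime Fq_prime

/-- square root of the discriminant on the exceptional divisor -/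
def gρ : Ωg := Polynomial.C (AdjoinRoot.root Fq)
/-- `1 / 2` -/
def gm : Ωg := algebraMap ℂ Ωg (1 / 2)
/-- `x` -/
def gx : Ωg := Polynomial.C (AdjoinRoot.of Fq (X 0))
/-- `y` -/
def gy : Ωg := Polynomial.C (AdjoinRoot.of Fq (X 1))

lemma two_gm : (2 : Ωg) * gm = 1 := by
  have : (2 : Ωg) = algebraMap ℂ Ωg 2 := (map_ofNat _ 2).symm
  rw [this, gm, ← map_mul]
  norm_num

lemma gρ_rel : gρ ^ 4 = 4 * (1 + gx ^ 4 + gy ^ 4) := by
  have h1 : Polynomial.eval₂ (AdjoinRoot.of Fq) (AdjoinRoot.root Fq) Fq = 0 :=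
    AdjoinRoot.eval₂_root Fq
  rw [eval₂_Fq] at h1
  have h3 := congrArg (Polynomial.C : AdjoinRoot Fq →+* Ωg) h1
  simp only [map_sub, map_pow, map_mul, map_add, map_one, map_ofNat, map_zero] at h3
  unfold gρ gx gy
  linear_combination h3

lemma gw_rel : (gm * gρ ^ 2 + Polynomial.X) ^ 2 = phi false false gx gy gρ Polynomial.X := by
  simp only [phi]
  linear_combination gm ^ 2 * gρ_rel + gρ ^ 2 * Polynomial.X * two_gm +
    (1 + gx ^ 4 + gy ^ 4) * (2 * gm + 1) * two_gm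

/-- the kernel of the restriction to the exceptional divisor -/
lemma ker_g {R : Type} [CommRing R] [Algebra ℂ R] {x y r u w p : R} (hw : w = p + u)
    (hrel : u * (2 * p - r ^ 2) = 1 + x ^ 4 + y ^ 4 - p ^ 2)
    (hext : ∀ (B : Type) [CommRing B] (f g : R →+* B),
      (∀ c : ℂ, f (algebraMap ℂ R c) = g (algebraMap ℂ R c)) → f x = g x → f y = g y →
      f r = g r → f u = g u → f w = g w → f = g)
    (ψ : R →ₐ[ℂ] Ωg) (ψx : ψ x = gx) (ψy : ψ y = gy) (ψr : ψ r = gρ) (ψu : ψ u = Polynomial.X)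
    (ψw : ψ w = gm * gρ ^ 2 + Polynomial.X) :
    RingHom.ker (ψ : R →+* Ωg) ≤ Ideal.span {2 * p - r ^ 2} := by
  set I : Ideal R := Ideal.span {2 * p - r ^ 2} with hI
  have h2q : (2 : R ⧸ I) * algebraMap ℂ (R ⧸ I) (1 / 2) = 1 := by
    have : (2 : R ⧸ I) = algebraMap ℂ (R ⧸ I) 2 := (map_ofNat _ 2).symm
    rw [this, ← map_mul]
    norm_num
  have hgI : 2 * Ideal.Quotient.mk I p - Ideal.Quotient.mk I r ^ 2 = 0 := by
    have h := Ideal.Quotient.eq_zero_iff_mem.2 (Ideal.mem_span_singleton_self (2 * p - r ^ 2))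
    rw [← hI, map_sub, map_mul, map_pow, map_ofNat] at h
    exact h
  have hrelI : Ideal.Quotient.mk I p ^ 2 = 1 + Ideal.Quotient.mk I x ^ 4 +
      Ideal.Quotient.mk I y ^ 4 := by
    have h := congrArg (Ideal.Quotient.mk I) hrel
    simp only [map_mul, map_sub, map_add, map_pow, map_one, map_ofNat] at h
    linear_combination h - Ideal.Quotient.mk I u * hgI
  let i₀ : MvPolynomial (Fin 2) ℂ →ₐ[ℂ] R ⧸ I :=
    aeval ![Ideal.Quotient.mk I x, Ideal.Quotient.mk I y]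
  have hroot : Polynomial.eval₂ (i₀ : MvPolynomial (Fin 2) ℂ →+* R ⧸ I)
      (Ideal.Quotient.mk I r) Fq = 0 := by
    rw [eval₂_Fq]
    have e1 : (i₀ : MvPolynomial (Fin 2) ℂ →+* R ⧸ I) (X 0) = Ideal.Quotient.mk I x := by
      simp [i₀]
    have e2 : (i₀ : MvPolynomial (Fin 2) ℂ →+* R ⧸ I) (X 1) = Ideal.Quotient.mk I y := by
      simp [i₀]
    rw [e1, e2]
    linear_combination (-(Ideal.Quotient.mk I r ^ 2) - 2 * Ideal.Quotient.mk I p) * hgI +
      4 * hrelI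
  let s₀ : AdjoinRoot Fq →ₐ[ℂ] R ⧸ I := AdjoinRoot.liftAlgHom Fq i₀ (Ideal.Quotient.mk I r) hroot
  let s : Ωg →+* R ⧸ I := Polynomial.eval₂RingHom (s₀ : AdjoinRoot Fq →+* R ⧸ I)
    (Ideal.Quotient.mk I u)
  have hsC : ∀ a, s (Polynomial.C a) = s₀ a := fun a => by
    show Polynomial.eval₂ _ _ _ = _
    rw [Polynomial.eval₂_C]
    rfl
  have hsU : s Polynomial.X = Ideal.Quotient.mk I u := by
    show Polynomial.eval₂ _ _ _ = _
    rw [Polynomial.eval₂_X]
  have hsρ : s gρ = Ideal.Quotient.mk I r := by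
    rw [gρ, hsC]
    exact AdjoinRoot.lift_root hroot
  have hsalg : ∀ c : ℂ, s (algebraMap ℂ Ωg c) = algebraMap ℂ (R ⧸ I) c := by
    intro c
    have : algebraMap ℂ Ωg c = Polynomial.C (algebraMap ℂ (AdjoinRoot Fq) c) := rfl
    rw [this, hsC]
    exact s₀.commutes c
  have hs' : ∀ a : MvPolynomial (Fin 2) ℂ, s (Polynomial.C (AdjoinRoot.of Fq a)) = i₀ a := by
    intro a
    rw [hsC]
    exact AdjoinRoot.lift_of hroot
  refine ker_le _ _ s ?_
  intro f
  have h3 : s.comp (ψ : R →+* Ωg) = Ideal.Quotient.mk I := by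
    apply hext
    · intro c
      show s (ψ _) = _
      rw [AlgHom.commutes, hsalg]
      rfl
    · show s (ψ x) = _
      rw [ψx, gx, hs']
      simp [i₀]
    · show s (ψ y) = _
      rw [ψy, gy, hs']
      simp [i₀]
    · show s (ψ r) = _
      rw [ψr, hsρ]
    · show s (ψ u) = _
      rw [ψu, hsU]
    · show s (ψ w) = _
      rw [ψw, map_add, map_mul, map_pow, hsρ, hsU, gm, hsalg, hw, map_add]
      linear_combination (-(algebraMap ℂ (R ⧸ I) (1 / 2))) * hgI + Ideal.Quotient.mk I p * h2q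
  exact DFunLike.congr_fun h3 f

lemma hext0 (B : Type) [CommRing B] (f g : R0 →+* B)
    (hc : ∀ c : ℂ, f (algebraMap ℂ R0 c) = g (algebraMap ℂ R0 c))
    (hx : f ⟨xx 0, mem0_0⟩ = g ⟨xx 0, mem0_0⟩) (hy : f ⟨xx 1, mem0_1⟩ = g ⟨xx 1, mem0_1⟩)
    (hr : f ⟨rr, mem0_r⟩ = g ⟨rr, mem0_r⟩) (hu : f ⟨uu, mem0_u⟩ = g ⟨uu, mem0_u⟩)
    (hw : f ⟨ww, mem0_w⟩ = g ⟨ww, mem0_w⟩) : f = g := by
  apply (dcX 0 false false).ringHom_eq R0_eq hc
  · intro h
    have e1 : (⟨(dcX 0 false false).w, h⟩ : R0) = ⟨ww, mem0_w⟩ := Subtype.ext w0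
    rw [e1]
    exact hw
  · intro k h
    fin_cases k
    · have e1 : (⟨(dcX 0 false false).x 0, h⟩ : R0) = ⟨xx 0, mem0_0⟩ := Subtype.ext x00
      show f ⟨(dcX 0 false false).x 0, h⟩ = g ⟨(dcX 0 false false).x 0, h⟩
      rw [e1]
      exact hx
    · have e1 : (⟨(dcX 0 false false).x 1, h⟩ : R0) = ⟨xx 1, mem0_1⟩ := Subtype.ext x01
      show f ⟨(dcX 0 false false).x 1, h⟩ = g ⟨(dcX 0 false false).x 1, h⟩
      rw [e1]
      exact hy
    · have e1 : (⟨(dcX 0 false false).x 2, h⟩ : R0) = ⟨rr, mem0_r⟩ := Subtype.ext x02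
      show f ⟨(dcX 0 false false).x 2, h⟩ = g ⟨(dcX 0 false false).x 2, h⟩
      rw [e1]
      exact hr
    · have e1 : (⟨(dcX 0 false false).x 3, h⟩ : R0) = ⟨uu, mem0_u⟩ := Subtype.ext x03
      show f ⟨(dcX 0 false false).x 3, h⟩ = g ⟨(dcX 0 false false).x 3, h⟩
      rw [e1]
      exact hu

lemma exists_ψg : ∃ ψ : R0 →ₐ[ℂ] Ωg, ψ ⟨xx 0, mem0_0⟩ = gx ∧ ψ ⟨xx 1, mem0_1⟩ = gy ∧
    ψ ⟨rr, mem0_r⟩ = gρ ∧ ψ ⟨uu, mem0_u⟩ = Polynomial.X ∧
    ψ ⟨ww, mem0_w⟩ = gm * gρ ^ 2 + Polynomial.X := by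
  have hv : (gm * gρ ^ 2 + Polynomial.X) ^ 2 =
      aeval ![gx, gy, gρ, Polynomial.X] (dcX 0 false false).Φ := by
    show _ = aeval ![gx, gy, gρ, Polynomial.X] (Phi false false)
    rw [aeval_Phi, gw_rel]
    rfl
  obtain ⟨ψ, hψw, hψx⟩ := (dcX 0 false false).exists_hom R0_eq hv
  refine ⟨ψ, ?_, ?_, ?_, ?_, ?_⟩
  · have := hψx 0 (by rw [R0_eq]; exact (dcX 0 false false).x_mem 0)
    refine Eq.trans ?_ this
    congr 2
    exact x00.symm
  · have := hψx 1 (by rw [R0_eq]; exact (dcX 0 false false).x_mem 1)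
    refine Eq.trans ?_ this
    congr 2
    exact x01.symm
  · have := hψx 2 (by rw [R0_eq]; exact (dcX 0 false false).x_mem 2)
    refine Eq.trans ?_ this
    congr 2
    exact x02.symm
  · have := hψx 3 (by rw [R0_eq]; exact (dcX 0 false false).x_mem 3)
    refine Eq.trans ?_ this
    congr 2
    exact x03.symm
  · have := hψw (by rw [R0_eq]; exact (dcX 0 false false).w_mem)
    refine Eq.trans ?_ this
    congr 2
    exact w0.symm

lemma g0_prime : Prime g0 := by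
  obtain ⟨ψ, ψx, ψy, ψr, ψu, ψw⟩ := exists_ψg
  have hg : g0 = 2 * ⟨xx 3, mem0_3⟩ - ⟨rr, mem0_r⟩ ^ 2 := rfl
  have hw : (⟨ww, mem0_w⟩ : R0) = ⟨xx 3, mem0_3⟩ + ⟨uu, mem0_u⟩ := rfl
  have hrel : (⟨uu, mem0_u⟩ : R0) * (2 * ⟨xx 3, mem0_3⟩ - ⟨rr, mem0_r⟩ ^ 2) =
      1 + ⟨xx 0, mem0_0⟩ ^ 4 + ⟨xx 1, mem0_1⟩ ^ 4 - ⟨xx 3, mem0_3⟩ ^ 2 :=
    Subtype.ext uu_mul
  refine prime_of_ker (ψ : R0 →+* Ωg) g0_ne ?_ ?_
  · show ψ g0 = 0
    have hp : (⟨xx 3, mem0_3⟩ : R0) = ⟨ww, mem0_w⟩ - ⟨uu, mem0_u⟩ := by rw [hw]; ring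
    rw [hg, hp, map_sub, map_mul, map_sub, map_pow, ψw, ψu, ψr, map_ofNat]
    linear_combination gρ ^ 2 * two_gm
  · rw [hg]
    exact ker_g hw hrel hext0 ψ ψx ψy ψr ψu ψw

/-! ### the localisation -/

/-- the localisation of the base chart at `g`. -/
def Sg : Subalgebra ℂ K4 := powSub R0 gg mem0_g

lemma A0_g : gg ∈ A0 := by
  rw [← e0_g]
  exact (e0 gP).2

lemma uu_mem_pow : uu ∈ powSub A0 gg A0_g := by
  refine ⟨1, ?_⟩
  rw [pow_one, uu_mul, dd]
  have hx : ∀ i, xx i ∈ A0 := fun i => Algebra.subset_adjoin ⟨i, rfl⟩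
  exact A0.sub_mem (A0.add_mem (A0.add_mem A0.one_mem (A0.pow_mem (hx 0) 4)) (A0.pow_mem (hx 1) 4))
    (A0.pow_mem (hx 3) 2)

lemma le_powSub {B : Subalgebra ℂ K4} {g : K4} (hg : g ∈ B) : B ≤ powSub B g hg :=
  fun z hz => ⟨0, by simpa using hz⟩

lemma R0_le_pow : R0 ≤ powSub A0 gg A0_g := by
  have hx : ∀ i, xx i ∈ powSub A0 gg A0_g := fun i => le_powSub A0_g (Algebra.subset_adjoin ⟨i, rfl⟩)
  have hw : ww ∈ powSub A0 gg A0_g := Subalgebra.add_mem _ (hx 3) uu_mem_pow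
  rw [R0_eq, DC.R, Algebra.adjoin_le_iff]
  rintro _ ⟨m, rfl⟩
  refine Fin.cases ?_ (fun m => ?_) m
  · show wc 0 false false ∈ powSub A0 gg A0_g
    rw [w0]
    exact hw
  · show xc 0 false false m ∈ powSub A0 gg A0_g
    fin_cases m
    · show xc 0 false false 0 ∈ _
      rw [x00]; exact hx 0
    · show xc 0 false false 1 ∈ _
      rw [x01]; exact hx 1
    · show xc 0 false false 2 ∈ _
      rw [x02]; exact hx 2
    · show xc 0 false false 3 ∈ _
      rw [x03]; exact uu_mem_pow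

lemma Sg_eq : Sg = powSub A0 gg A0_g := by
  apply le_antisymm
  · rintro z ⟨n, hn⟩
    obtain ⟨m, hm⟩ := R0_le_pow hn
    refine ⟨n + m, ?_⟩
    rw [pow_add, ← mul_assoc]
    exact hm
  · rintro z ⟨n, hn⟩
    exact ⟨n, A0_le hn⟩

lemma A0_ufm : UniqueFactorizationMonoid A0 := aff_ufm xx_ind rfl

lemma gA_prime : Prime (⟨gg, A0_g⟩ : A0) := by
  have h : (⟨gg, A0_g⟩ : A0) = e0 gP := Subtype.ext e0_g.symm
  rw [h]
  exact (MulEquiv.prime_iff e0).2 gP_prime

lemma Sg_ufm : UniqueFactorizationMonoid Sg := by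
  have hle : A0 ≤ Sg := by
    rw [Sg_eq]
    exact le_powSub _
  let _ : Algebra A0 Sg := (Subalgebra.inclusion hle).toRingHom.toAlgebra
  have h1 : IsLocalization.Away (⟨gg, A0_g⟩ : A0) Sg :=
    isLocalization_powSub A0_g gg_ne Sg_eq hle
  have := A0_ufm
  exact (UniqueFactorizationMonoid.of_isLocalization (Submonoid.powers (⟨gg, A0_g⟩ : A0)) Sg)

lemma R0_ufm : UniqueFactorizationMonoid R0 := by
  have hle : R0 ≤ Sg := le_powSub _
  have : IsNoetherianRing R0 := (dcX 0 false false).noeth R0_eq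
  let _ : Algebra R0 Sg := (Subalgebra.inclusion hle).toRingHom.toAlgebra
  have h1 : IsLocalization.Away g0 Sg := isLocalization_powSub mem0_g gg_ne rfl hle
  rw [UniqueFactorizationMonoid.iff_of_isLocalizationAway_of_prime g0_prime Sg]
  exact Sg_ufm

lemma R0_unit (a : R0) (ha : IsUnit a) : ∃ z : ℂ, (a : K4) = algebraMap ℂ K4 z := by
  obtain ⟨b, hb⟩ := ha.exists_right_inv
  have hab : (a : K4) * b = 1 := congrArg Subtype.val hb
  obtain ⟨n, hn⟩ := R0_le_pow a.2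
  obtain ⟨m, hm⟩ := R0_le_pow b.2
  have := A0_ufm
  set f : A0 := ⟨_, hn⟩ with hf
  set h : A0 := ⟨_, hm⟩ with hh
  set γ : A0 := ⟨gg, A0_g⟩ with hγ
  have hfh : f * h = γ ^ (n + m) := by
    apply Subtype.ext
    show ((a : K4) * gg ^ n) * ((b : K4) * gg ^ m) = gg ^ (n + m)
    rw [pow_add]
    linear_combination gg ^ n * gg ^ m * hab
  have hdvd : f ∣ γ ^ (n + m) := ⟨h, hfh.symm⟩
  rw [dvd_prime_pow gA_prime] at hdvd
  obtain ⟨k, hk, u, hu⟩ := hdvd
  obtain ⟨z, hz⟩ := aff_unit xx_ind rfl u.isUnit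
  have hfu : (f : K4) * algebraMap ℂ K4 z = gg ^ k := by
    rw [← hz]
    exact congrArg Subtype.val hu
  have hfa : (f : K4) = a * gg ^ n := rfl
  rw [hfa] at hfu
  have hz0 : algebraMap ℂ K4 z ≠ 0 := by
    intro h0
    rw [h0, mul_zero] at hfu
    exact pow_ne_zero _ gg_ne hfu.symm
  have hnu := g0_prime.not_isUnit
  -- `a * z * g ^ n = g ^ k`
  rcases lt_trichotomy n k with hlt | heq | hgt
  · exfalso
    obtain ⟨d, rfl⟩ : ∃ d, k = n + (d + 1) := ⟨k - n - 1, by omega⟩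
    have h1 : (a : K4) * algebraMap ℂ K4 z = gg ^ (d + 1) := by
      have : gg ^ n ≠ 0 := pow_ne_zero _ gg_ne
      apply mul_right_cancel₀ this
      rw [pow_add] at hfu
      linear_combination hfu
    have h2 : a * algebraMap ℂ R0 z = g0 ^ (d + 1) := Subtype.ext h1
    apply hnu
    have h3 : IsUnit (a * algebraMap ℂ R0 z) := by
      refine ha.mul ?_
      have hzz : z ≠ 0 := fun h => hz0 (by rw [h, map_zero])
      exact (IsUnit.mk0 z hzz).map (algebraMap ℂ R0)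
    rw [h2] at h3
    exact (isUnit_pow_iff (Nat.succ_ne_zero d)).1 h3
  · refine ⟨z⁻¹, ?_⟩
    subst heq
    have h1 : (a : K4) * algebraMap ℂ K4 z = 1 := by
      have : gg ^ n ≠ 0 := pow_ne_zero _ gg_ne
      apply mul_right_cancel₀ this
      linear_combination hfu
    rw [map_inv₀, eq_inv_of_mul_eq_one_left h1]
  · exfalso
    obtain ⟨d, rfl⟩ : ∃ d, n = k + (d + 1) := ⟨n - k - 1, by omega⟩
    have h1 : (a : K4) * algebraMap ℂ K4 z * gg ^ (d + 1) = 1 := by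
      have : gg ^ k ≠ 0 := pow_ne_zero _ gg_ne
      apply mul_right_cancel₀ this
      rw [pow_add] at hfu
      linear_combination hfu
    have h2 : g0 * (a * algebraMap ℂ R0 z * g0 ^ d) = 1 := by
      apply Subtype.ext
      show gg * ((a : K4) * algebraMap ℂ K4 z * gg ^ d) = 1
      rw [← h1, pow_succ]
      ring
    exact hnu (IsUnit.of_mul_eq_one _ h2)

end Pool.Agent.H81
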