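import Mathlib
import Pool.Agent.H81.Ufd

/-! Prime ideals at infinity, abstractly. -/

set_option linter.unusedSimpArgs false
set_option linter.unusedSectionVars false

noncomputable section

namespace Pool.Agent.H81

open Pool.Agent.H945R2 MvPolynomial FanoFib.Tor

/-- `R = ℂ[x, w] / (w² - Φ(x))` by its universal property. -/
structure IsDC {n : ℕ} (R : Type) [CommRing R] [Algebra ℂ R] (Φ : MvPolynomial (Fin n) ℂ)
    (x : Fin n → R) (w : R) : Prop where
  rel : w ^ 2 = aeval x Φ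
  lift : ∀ (B : Type) [CommRing B] [Algebra ℂ B] (y : Fin n → B) (v : B), v ^ 2 = aeval y Φ →
    ∃ ψ : R →ₐ[ℂ] B, ψ w = v ∧ ∀ k, ψ (x k) = y k
  ext : ∀ (B : Type) [CommRing B] (f g : R →+* B),
    (∀ c : ℂ, f (algebraMap ℂ R c) = g (algebraMap ℂ R c)) → f w = g w →
      (∀ k, f (x k) = g (x k)) → f = g

lemma DC.isDC {K : Type} [Field K] [Algebra ℂ K] {n : ℕ} (A : DC n K) {R : Subalgebra ℂ K}
    (hR : R = A.R) (hw : A.w ∈ R) (hx : ∀ k, A.x k ∈ R) :
    IsDC R A.Φ (fun k => ⟨A.x k, hx k⟩) ⟨A.w, hw⟩ := by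
  subst hR
  refine ⟨A.rel', fun B _ _ y v hv => ⟨A.lift y v hv, A.lift_w hv, A.lift_x hv⟩, ?_⟩
  intro B _ f g hc h1 h2
  exact A.ringHom_eq rfl hc (fun _ => h1) (fun k _ => h2 k)

section abs

variable {R : Type} [CommRing R] [Algebra ℂ R] {n : ℕ} {Φ : MvPolynomial (Fin n) ℂ}
  {x : Fin n → R} {w : R}

lemma IsDC.ker_le (h : IsDC R Φ x w) {B : Type} [CommRing B] [Algebra ℂ B] (ψ : R →ₐ[ℂ] B)
    (I : Ideal R) (s : B →ₐ[ℂ] R ⧸ I) (hw : s (ψ w) = Ideal.Quotient.mk I w)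
    (hx : ∀ k, s (ψ (x k)) = Ideal.Quotient.mk I (x k)) :
    RingHom.ker (ψ : R →+* B) ≤ I := by
  refine Pool.Agent.H81.ker_le _ _ (s : B →+* R ⧸ I) ?_
  intro f
  have h3 : (s : B →+* R ⧸ I).comp (ψ : R →+* B) = Ideal.Quotient.mk I := by
    apply h.ext
    · intro c
      show s (ψ _) = _
      rw [AlgHom.commutes, AlgHom.commutes]
      rfl
    · exact hw
    · exact hx
  exact DFunLike.congr_fun h3 f

/-- an ideal which is the kernel of a homomorphism to a domain -/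
lemma prime_of_eq {B : Type} [CommRing B] [IsDomain B] [Algebra ℂ B] (ψ : R →ₐ[ℂ] B)
    {I : Ideal R} (h1 : RingHom.ker (ψ : R →+* B) ≤ I) (h2 : ∀ f ∈ I, ψ f = 0) :
    I.IsPrime ∧ ∀ f, ψ f ≠ 0 → f ∉ I := by
  have : I = RingHom.ker (ψ : R →+* B) := le_antisymm (fun f hf => h2 f hf) h1
  refine ⟨?_, fun f hf hfI => hf (h2 f hfI)⟩
  rw [this]
  exact RingHom.ker_isPrime _

/-- the divisor `t = 0` -/
lemma T_prime {j : Bool} {x : Fin 4 → R} (h : IsDC R (Phi j true) x w) :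
    (Ideal.span {x 2}).IsPrime ∧ x 0 ∉ Ideal.span {x 2} ∧ x 1 ∉ Ideal.span {x 2} ∧
      x 3 ∉ Ideal.span {x 2} := by
  have hv : (X 2 : MvPolynomial (Fin 3) ℂ) ^ 2 = aeval ![X 0, X 1, 0, X 2 ^ 2] (Phi j true) := by
    rw [aeval_Phi]
    cases j <;> simp [phi]
  obtain ⟨ψ, hw, hx⟩ := h.lift (MvPolynomial (Fin 3) ℂ) _ _ hv
  have hker : RingHom.ker (ψ : R →+* MvPolynomial (Fin 3) ℂ) ≤ Ideal.span {x 2} := by
    have h0 : Ideal.Quotient.mk (Ideal.span {x 2}) (x 2) = 0 :=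
      Ideal.Quotient.eq_zero_iff_mem.2 (Ideal.mem_span_singleton_self _)
    refine h.ker_le ψ _ (aeval ![Ideal.Quotient.mk _ (x 0), Ideal.Quotient.mk _ (x 1),
      Ideal.Quotient.mk _ w]) ?_ ?_
    · rw [hw, aeval_X]; rfl
    · intro k
      rw [hx k]
      fin_cases k
      · show aeval _ (X 0) = _
        rw [aeval_X]; rfl
      · show aeval _ (X 1) = _
        rw [aeval_X]; rfl
      · show aeval _ (0 : MvPolynomial (Fin 3) ℂ) = Ideal.Quotient.mk _ (x 2)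
        rw [map_zero, h0]
      · show aeval _ (X 2 ^ 2) = Ideal.Quotient.mk _ (x 3)
        rw [map_pow, aeval_X]
        show Ideal.Quotient.mk _ w ^ 2 = _
        have h1 := h.rel
        rw [aeval_Phi] at h1
        rw [← map_pow, h1]
        cases j
        · simp only [phi, map_add, map_mul, map_pow, h0]
          ring
        · simp only [phi, map_add, map_mul, map_pow, h0]
          ring
  obtain ⟨h1, h2⟩ := prime_of_eq ψ hker (by
    intro f hf
    obtain ⟨g, rfl⟩ := Ideal.mem_span_singleton.1 hf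
    rw [map_mul, hx 2]
    simp)
  refine ⟨h1, h2 _ ?_, h2 _ ?_, h2 _ ?_⟩
  · rw [hx 0]; exact X_ne_zero _
  · rw [hx 1]; exact X_ne_zero _
  · rw [hx 3]; exact pow_ne_zero _ (X_ne_zero _)

/-- the value of the square root on the divisors `v = 0`. -/
def cV {B : Type} [CommRing B] (k : Bool) (q : B) : B := if k then q else 1

/-- sign -/
def sg {B : Type} [CommRing B] (σ : Bool) : B := if σ then 1 else -1

lemma sg_sq {B : Type} [CommRing B] (σ : Bool) : (sg σ : B) ^ 2 = 1 := by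
  cases σ <;> simp [sg]

/-- the ideal of a component of `v = 0`. -/
def IV (k σ : Bool) (x : Fin 4 → R) (w : R) : Ideal R := Ideal.span {x 3, w - sg σ * cV k (x 2)}

/-- the divisors `v = 0` -/
lemma V_prime {k : Bool} (σ : Bool) {x : Fin 4 → R} (h : IsDC R (Phi true k) x w) :
    (IV k σ x w).IsPrime ∧ x 0 ∉ IV k σ x w ∧ x 1 ∉ IV k σ x w ∧ x 2 ∉ IV k σ x w ∧
      w - sg (!σ) * cV k (x 2) ∉ IV k σ x w := by
  have hs : (sg σ : MvPolynomial (Fin 3) ℂ) ^ 2 = 1 := sg_sq σ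
  have hv : (sg σ * cV k (X 2) : MvPolynomial (Fin 3) ℂ) ^ 2 =
      aeval ![X 0, X 1, X 2, 0] (Phi true k) := by
    rw [aeval_Phi, mul_pow, hs]
    cases k <;> simp [phi, cV]
  obtain ⟨ψ, hw, hx⟩ := h.lift (MvPolynomial (Fin 3) ℂ) _ _ hv
  have m3 : x 3 ∈ IV k σ x w := Ideal.subset_span (by simp)
  have mw : w - sg σ * cV k (x 2) ∈ IV k σ x w := Ideal.subset_span (by simp)
  have hker : RingHom.ker (ψ : R →+* MvPolynomial (Fin 3) ℂ) ≤ IV k σ x w := by
    have h0 : Ideal.Quotient.mk (IV k σ x w) (x 3) = 0 := Ideal.Quotient.eq_zero_iff_mem.2 m3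
    have h1 : Ideal.Quotient.mk (IV k σ x w) w =
        Ideal.Quotient.mk (IV k σ x w) (sg σ * cV k (x 2)) := by
      rw [Ideal.Quotient.eq]
      exact mw
    refine h.ker_le ψ _ (aeval ![Ideal.Quotient.mk _ (x 0), Ideal.Quotient.mk _ (x 1),
      Ideal.Quotient.mk _ (x 2)]) ?_ ?_
    · rw [hw, h1]
      cases k <;> cases σ <;> simp [sg, cV]
    · intro k
      rw [hx k]
      fin_cases k
      · show aeval _ (X 0) = _
        rw [aeval_X]; rfl
      · show aeval _ (X 1) = _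
        rw [aeval_X]; rfl
      · show aeval _ (X 2) = _
        rw [aeval_X]; rfl
      · show aeval _ (0 : MvPolynomial (Fin 3) ℂ) = Ideal.Quotient.mk _ (x 3)
        rw [map_zero, h0]
  have hψs : ∀ τ : Bool, ψ (sg τ * cV k (x 2)) = sg τ * cV k (X 2) := by
    intro τ
    cases τ <;> cases k <;> simp [sg, cV, hx 2]
  obtain ⟨h1, h2⟩ := prime_of_eq ψ hker (by
    intro f hf
    rw [IV, Ideal.mem_span_pair] at hf
    obtain ⟨a, b, rfl⟩ := hf
    rw [map_add, map_mul, map_mul, hx 3, map_sub, hw, hψs]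
    simp)
  refine ⟨h1, h2 _ ?_, h2 _ ?_, h2 _ ?_, h2 _ ?_⟩
  · rw [hx 0]; exact X_ne_zero _
  · rw [hx 1]; exact X_ne_zero _
  · rw [hx 2]; exact X_ne_zero _
  · rw [map_sub, hw, hψs]
    have hc : (cV k (X 2) : MvPolynomial (Fin 3) ℂ) ≠ 0 := by
      cases k
      · simp [cV]
      · simp [cV]
    cases σ
    · simp only [sg, Bool.not_false, if_true, Bool.false_eq_true, if_false]
      intro h3
      apply hc
      have h4 : (2 : MvPolynomial (Fin 3) ℂ) * cV k (X 2) = 0 := by linear_combination -h3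
      exact (mul_eq_zero.1 h4).resolve_left two_ne_zero
    · simp only [sg, Bool.not_true, if_true, Bool.false_eq_true, if_false]
      intro h3
      apply hc
      have h4 : (2 : MvPolynomial (Fin 3) ℂ) * cV k (X 2) = 0 := by linear_combination h3
      exact (mul_eq_zero.1 h4).resolve_left two_ne_zero

lemma V_split {k : Bool} {x : Fin 4 → R} (h : IsDC R (Phi true k) x w) :
    ∃ c, (w - sg true * cV k (x 2)) * (w - sg false * cV k (x 2)) = x 3 * c := by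
  have h1 := h.rel
  rw [aeval_Phi] at h1
  cases k
  · refine ⟨x 2 ^ 2 + (1 + x 0 ^ 4 + x 1 ^ 4) * x 3, ?_⟩
    simp only [phi, sg, cV, if_true, Bool.false_eq_true, if_false] at h1 ⊢
    linear_combination h1
  · refine ⟨1 + (1 + x 0 ^ 4 + x 1 ^ 4) * x 3 * x 2 ^ 2, ?_⟩
    simp only [phi, sg, cV, if_true, Bool.false_eq_true, if_false] at h1 ⊢
    linear_combination h1

lemma V_split' {k : Bool} (σ : Bool) {x : Fin 4 → R} (h : IsDC R (Phi true k) x w) :
    ∃ c, (w - sg σ * cV k (x 2)) * (w - sg (!σ) * cV k (x 2)) = x 3 * c := by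
  obtain ⟨c, hc⟩ := V_split h
  cases σ
  · exact ⟨c, by rw [mul_comm]; exact hc⟩
  · exact ⟨c, hc⟩

end abs

/-! ### the divisor `z 0 = 0` -/

/-- the denominator -/
def g3 : K3 := 2 * xx 2 - xx 1 ^ 2
/-- the coordinate `u` -/
def u3 : K3 := (1 + xx 0 ^ 4 - xx 2 ^ 2) / g3
/-- the coordinate `w` -/
def w3 : K3 := xx 2 + u3

lemma g3_ne : g3 ≠ 0 := by
  have : g3 = algebraMap (MvPolynomial (Fin 3) ℂ) K3 (2 * X 2 - X 1 ^ 2) := by
    rw [g3, xx, xx, map_sub, map_mul, map_ofNat, map_pow]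
  rw [this]
  refine algebraMap_ne ![0, 0, 1] ?_
  simp

lemma w3_ne : w3 ≠ 0 := by
  intro h
  have h0 : u3 * g3 = 1 + xx 0 ^ 4 - xx 2 ^ 2 := by rw [u3, div_mul_cancel₀ _ g3_ne]
  have h1 : w3 * g3 = algebraMap (MvPolynomial (Fin 3) ℂ) K3
      (X 2 ^ 2 - X 2 * X 1 ^ 2 + (1 + X 0 ^ 4)) := by
    have h2 : w3 * g3 = xx 2 ^ 2 - xx 2 * xx 1 ^ 2 + (1 + xx 0 ^ 4) := by
      rw [w3, add_mul, h0, g3]
      ring
    rw [h2]
    simp only [xx, map_sub, map_add, map_one, map_pow, map_mul]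
  rw [h, zero_mul] at h1
  refine algebraMap_ne ![0, 0, 0] ?_ h1.symm
  simp

lemma jac3_xx : jacD (fun i => (frame0 : Module.Basis (Fin 3) K3 (Derivation ℂ K3 K3)) i)
    ![xx 0, xx 1, xx 2] = 1 := by
  have h : (Matrix.of fun i j => (frame0 : Module.Basis (Fin 3) K3 (Derivation ℂ K3 K3)) i
      ((![xx 0, xx 1, xx 2] : Fin 3 → K3) j)) = (1 : Matrix (Fin 3) (Fin 3) K3) := by
    ext i j
    have h2 : (![xx 0, xx 1, xx 2] : Fin 3 → K3) j = xx j := by
      fin_cases j <;> rfl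
    rw [Matrix.of_apply, h2, frame0_xx, Matrix.one_apply]
    by_cases hij : i = j
    · rw [if_pos hij, if_pos hij.symm]
    · rw [if_neg hij, if_neg (Ne.symm hij)]
  rw [jacD, h, Matrix.det_one]

lemma ind_z : AlgebraicIndependent ℂ (![xx 0, xx 1, u3] : Fin 3 → K3) := by
  refine algInd_of_jac (fun i => (frame0 : Module.Basis (Fin 3) K3 (Derivation ℂ K3 K3)) i) _ ?_
  have h : jacD (fun i => (frame0 : Module.Basis (Fin 3) K3 (Derivation ℂ K3 K3)) i)
      ![xx 0, xx 1, u3] = (-(2 * w3) / g3) * jacD (fun i => (frame0 : Module.Basis (Fin 3) K3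
        (Derivation ℂ K3 K3)) i) ![xx 0, xx 1, xx 2] := by
    refine jac_step _ ![xx 0, xx 1, xx 2] ![xx 0, xx 1, u3] 2
      ![4 * xx 0 ^ 3 / g3, 2 * u3 * xx 1 / g3, -(2 * w3) / g3] ?_ ?_
    · intro k hk
      fin_cases k
      · rfl
      · rfl
      · exact absurd rfl hk
    · intro D
      rw [Fin.sum_univ_three]
      simp only [Matrix.cons_val]
      have h1 := D_u_gen D (r := xx 1) (p := xx 2) (δ := 1 + xx 0 ^ 4) (u := u3) g3_ne rfl
      have h3 : D (1 + xx 0 ^ 4) = 4 * xx 0 ^ 3 * D (xx 0) := by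
        rw [map_add, Derivation.map_one_eq_zero, Derivation.leibniz_pow]
        simp only [smul_eq_mul, nsmul_eq_mul, Nat.cast_ofNat, Nat.reduceSub]
        ring
      rw [h3] at h1
      rw [h1]
      change (1 / g3) * _ + (2 * u3 * xx 1 / g3) * _ + (-(2 * w3) / g3) * D (xx 2) = _
      ring
  rw [h, jac3_xx, mul_one]
  have h2 : (2 : K3) ≠ 0 := by
    have : (2 : K3) = algebraMap ℂ K3 2 := (map_ofNat _ 2).symm
    rw [this]
    exact (map_ne_zero _).2 two_ne_zero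
  exact div_ne_zero (neg_ne_zero.2 (mul_ne_zero h2 w3_ne)) g3_ne

/-- the chart of the divisor -/
def dcZ : DC 3 K3 where
  x := ![xx 0, xx 1, u3]
  w := w3
  Φ := Phi3
  rel := by
    rw [aeval_Phi3]
    have h := w_rel_gen (r := xx 1) (p := xx 2) (δ := 1 + xx 0 ^ 4) (u := u3) g3_ne rfl
    show w3 ^ 2 = phi false false 0 (xx 0) (xx 1) u3
    rw [w3, h]
    simp only [phi]
    ring
  ind := ind_z
  nsq := Phi3_not_sq

/-- the divisor `z 0 = 0` -/
lemma Z_prime {R : Type} [CommRing R] [Algebra ℂ R] {x : Fin 4 → R} {w : R}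
    (h : IsDC R (Phi false false) x w) :
    (Ideal.span {x 0}).IsPrime ∧ x 1 ∉ Ideal.span {x 0} ∧ x 2 ∉ Ideal.span {x 0} ∧
      x 3 ∉ Ideal.span {x 0} := by
  have hv : dcZ.wr ^ 2 = aeval ![0, dcZ.xr 0, dcZ.xr 1, dcZ.xr 2] (Phi false false) := by
    rw [aeval_Phi, dcZ.rel']
    show aeval dcZ.xr Phi3 = _
    rw [aeval_Phi3]
    rfl
  obtain ⟨ψ, hw, hx⟩ := h.lift dcZ.R _ _ hv
  have hker : RingHom.ker (ψ : R →+* dcZ.R) ≤ Ideal.span {x 0} := by
    have h0 : Ideal.Quotient.mk (Ideal.span {x 0}) (x 0) = 0 :=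
      Ideal.Quotient.eq_zero_iff_mem.2 (Ideal.mem_span_singleton_self _)
    have hs : Ideal.Quotient.mk (Ideal.span {x 0}) w ^ 2 =
        aeval ![Ideal.Quotient.mk (Ideal.span {x 0}) (x 1), Ideal.Quotient.mk _ (x 2),
          Ideal.Quotient.mk _ (x 3)] dcZ.Φ := by
      show _ = aeval ![Ideal.Quotient.mk (Ideal.span {x 0}) (x 1), Ideal.Quotient.mk _ (x 2),
          Ideal.Quotient.mk _ (x 3)] Phi3
      rw [aeval_Phi3, ← map_pow, h.rel, aeval_Phi]
      simp only [phi, map_add, map_mul, map_pow, map_one, h0, Matrix.cons_val]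
    refine h.ker_le ψ _ (dcZ.lift _ _ hs) ?_ ?_
    · rw [hw, DC.lift_w]
    · intro k
      rw [hx k]
      fin_cases k
      · show dcZ.lift _ _ hs 0 = Ideal.Quotient.mk _ (x 0)
        rw [map_zero, h0]
      · show dcZ.lift _ _ hs (dcZ.xr 0) = Ideal.Quotient.mk _ (x 1)
        rw [DC.lift_x]; rfl
      · show dcZ.lift _ _ hs (dcZ.xr 1) = Ideal.Quotient.mk _ (x 2)
        rw [DC.lift_x]; rfl
      · show dcZ.lift _ _ hs (dcZ.xr 2) = Ideal.Quotient.mk _ (x 3)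
        rw [DC.lift_x]; rfl
  have hne : ∀ m : Fin 3, dcZ.xr m ≠ 0 := by
    intro m hm
    have h1 : dcZ.x m = 0 := congrArg Subtype.val hm
    have h2 := dcZ.lin (f := X m) (g := 0) (by rw [aeval_X, h1]; simp)
    exact X_ne_zero m h2.1
  obtain ⟨h1, h2⟩ := prime_of_eq ψ hker (by
    intro f hf
    obtain ⟨g, rfl⟩ := Ideal.mem_span_singleton.1 hf
    rw [map_mul, hx 0]
    simp)
  refine ⟨h1, h2 _ ?_, h2 _ ?_, h2 _ ?_⟩
  · rw [hx 1]; exact hne 0
  · rw [hx 2]; exact hne 1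
  · rw [hx 3]; exact hne 2

end Pool.Agent.H81
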