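import Mathlib
import Pool.Graph.R_pool_sql_team_seeded_f0cf7b00.H945R2.Defs

/-!
# Fano conic bundles

Definitions for the statement of the result on `MP_a703b5_ag`. Smooth complete varieties, their
points, Picard groups, the Fano condition and projective embeddings are in the library file
`Defs`: a variety is a function field `K` with finitely many affine charts (subalgebras of `K`).
-/

noncomputable section

namespace Pool.Agent.H81

open Pool.Agent.H945R2

/-- A dominant morphism `X → Y`: an embedding `φ` of the function field of `Y` into the function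
field of `X` such that every chart `i` of `X` is mapped into a chart `τ i` of `Y`, i.e. `φ` maps the
coordinate ring of the chart `τ i` into the coordinate ring of the chart `i`. -/
structure Morphism (X Y : Variety) where
  /-- pull-back of rational functions -/
  φ : Y.K →ₐ[ℂ] X.K
  /-- the chart `i` of `X` is mapped to the chart `τ i` of `Y` -/
  τ : X.ι → Y.ι
  maps : ∀ i, ∀ g ∈ Y.chart (τ i), φ g ∈ X.chart i

namespace Morphism

variable {X Y : Variety} (f : Morphism X Y)

/-- The point of `X` with local ring `A` is mapped to the point of `Y` with local ring `B`: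
the pull-back maps `B` to `A`, and maps non-units of `B` to non-units of `A`. -/
def LiesOver (A : Set X.K) (B : Set Y.K) : Prop :=
  ∀ b ∈ B, f.φ b ∈ A ∧ ((f.φ b)⁻¹ ∈ A → b⁻¹ ∈ B)

/-- The coordinate ring of the part in the chart `i` of `X` of the scheme-theoretic fibre of `f`
over the point `m` of the chart `τ i` of `Y`: the coordinate ring of the chart `i` modulo the ideal
generated by the pull-backs of the functions in `m`. (It is the zero ring if this part is empty.) -/
abbrev FibreRing (i : X.ι) (m : Ideal (Y.Coord (f.τ i))) : Type :=
  X.Coord i ⧸ Ideal.span {a : X.Coord i | ∃ g ∈ m, X.toK a = f.φ (Y.toK g)}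

/-- `f` is a Fano conic bundle: `X` is a Fano manifold, `Y` is projective (and smooth), `f` is
surjective with `f_* O_X = O_Y`, and all (closed) fibres of `f` have dimension one. -/
structure IsFanoConicBundle : Prop where
  fano : X.IsFano
  projective : ∃ N, Nonempty (Y.Embedding N)
  surjective : ∀ B ∈ Y.points, ∃ A ∈ X.points, f.LiesOver A B
  /-- a rational function on `X` which is regular on the preimage of a chart of `Y` is the
  pull-back of a regular function on this chart -/
  pushforward : ∀ (j : Y.ι) (h : X.K),
    (∀ A ∈ X.points, (∃ q : Ideal (Y.chart j), q.IsPrime ∧ f.LiesOver A (locRing (Y.chart j) q)) →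
      h ∈ A) → ∃ g ∈ Y.chart j, f.φ g = h
  /-- every non-empty part of a fibre (over a closed point) has dimension one -/
  fibre_dim : ∀ (i : X.ι) (m : Ideal (Y.Coord (f.τ i))), m.IsMaximal →
    Nontrivial (f.FibreRing i m) → ringKrullDim (f.FibreRing i m) = 1

/-- Some fibre of `f` over a closed point is non-reduced. -/
def HasNonreducedFibre : Prop :=
  ∃ (i : X.ι) (m : Ideal (Y.Coord (f.τ i))), m.IsMaximal ∧ ¬ IsReduced (f.FibreRing i m)

end Morphism

/-- The subgroup of the infinitely divisible elements of an abelian group. -/
def divisibleElements (G : Type) [AddCommGroup G] : AddSubgroup G where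
  carrier := {x | ∀ n : ℕ, 0 < n → ∃ y, n • y = x}
  zero_mem' := fun _ _ => ⟨0, smul_zero _⟩
  add_mem' := fun ha hb n hn => by
    obtain ⟨a, rfl⟩ := ha n hn
    obtain ⟨b, rfl⟩ := hb n hn
    exact ⟨a + b, smul_add _ _ _⟩
  neg_mem' := fun ha n hn => by
    obtain ⟨a, rfl⟩ := ha n hn
    exact ⟨-a, smul_neg _ _⟩

/-- The Picard number `ρ`: the rank of the Néron–Severi group `Pic / Pic⁰` (as `Pic⁰` is divisible
and the Néron–Severi group is finitely generated, `Pic⁰` is the subgroup of the infinitely divisible
elements of `Pic`). -/
def picardNumber (X : Variety) : ℕ :=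
  Module.finrank ℤ (X.Pic ⧸ divisibleElements X.Pic)

end Pool.Agent.H81
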