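import Mathlib
import Pool.Agent.H81.Bd

/-! Dimension one, and non-reducedness. -/

set_option linter.unusedSimpArgs false
set_option linter.unusedSectionVars false

noncomputable section

namespace Pool.Agent.H81

/-- an integral extension of the polynomial ring in one variable has dimension one. -/
theorem dim_one {S : Type} [CommRing S] (f : Polynomial ℂ →+* S) (hf : Function.Injective f)
    (hi : f.IsIntegral) : ringKrullDim S = 1 := by
  algebraize [f]
  have hI : Algebra.IsIntegral (Polynomial ℂ) S := ⟨hi⟩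
  have h1 : ringKrullDim (Polynomial ℂ) = 1 :=
    IsPrincipalIdealRing.ringKrullDim_eq_one _ (Polynomial.not_isField ℂ)
  apply le_antisymm
  · rw [← h1]
    refine Order.krullDim_le_of_strictMono (PrimeSpectrum.comap f) ?_
    intro p q hpq
    have h2 : p.asIdeal < q.asIdeal := hpq
    have := p.isPrime
    exact Ideal.IsIntegral.comap_lt_comap h2
  · rw [ringKrullDim, Order.one_le_krullDim_iff]
    have hker : RingHom.ker (algebraMap (Polynomial ℂ) S) = ⊥ :=
      (RingHom.injective_iff_ker_eq_bot _).1 hf
    obtain ⟨P, -, hP, hPc⟩ := Ideal.exists_ideal_over_prime_of_isIntegral (R := Polynomial ℂ)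
      (S := S) (⊥ : Ideal (Polynomial ℂ)) (⊥ : Ideal S) (by
        rw [← RingHom.ker_eq_comap_bot, hker])
    have hX : (Ideal.span {(Polynomial.X : Polynomial ℂ)}).IsPrime :=
      (Ideal.span_singleton_prime Polynomial.X_ne_zero).2 Polynomial.prime_X
    obtain ⟨Q, hPQ, hQ, hQc⟩ := Ideal.exists_ideal_over_prime_of_isIntegral
      (Ideal.span {(Polynomial.X : Polynomial ℂ)}) P (by
        rw [hPc]; exact bot_le)
    refine ⟨⟨P, hP⟩, ⟨Q, hQ⟩, ?_⟩
    refine lt_of_le_of_ne hPQ ?_
    intro h
    have h3 : P = Q := congrArg PrimeSpectrum.asIdeal h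
    rw [h3, hQc, Ideal.span_singleton_eq_bot] at hPc
    exact Polynomial.X_ne_zero hPc

end Pool.Agent.H81
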