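import Mathlib
import Pool.Agent.H81.Dim

/-! The fibres, abstractly. -/

set_option linter.unusedSimpArgs false
set_option linter.unusedSectionVars false

noncomputable section

namespace Pool.Agent.H81

open MvPolynomial

section abs

variable {R : Type} [CommRing R] [Algebra ℂ R] {n : ℕ} {Φ : MvPolynomial (Fin n) ℂ}
  {w : R}

lemma IsDC.mem_sub {x : Fin n → R} (h : IsDC R Φ x w) {T : Subalgebra ℂ R} (hw : w ∈ T)
    (hx : ∀ k, x k ∈ T) (z : R) : z ∈ T := by
  have hrel : (⟨w, hw⟩ : T) ^ 2 = aeval (fun k => (⟨x k, hx k⟩ : T)) Φ := by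
    apply Subtype.ext
    have h1 : T.val (aeval (fun k => (⟨x k, hx k⟩ : T)) Φ) = aeval x Φ := by
      rw [comp_aeval_apply]
      rfl
    show w ^ 2 = T.val _
    rw [h1, h.rel]
  obtain ⟨ψ, h1, h2⟩ := h.lift T _ _ hrel
  have h3 : ((T.val.comp ψ : R →ₐ[ℂ] R) : R →+* R) = RingHom.id R := by
    apply h.ext
    · intro c
      show T.val (ψ _) = _
      rw [AlgHom.commutes, AlgHom.commutes]
      rfl
    · show T.val (ψ w) = w
      rw [h1]; rfl
    · intro k
      show T.val (ψ (x k)) = x k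
      rw [h2]; rfl
  have h4 : T.val (ψ z) = z := DFunLike.congr_fun h3 z
  rw [← h4]
  exact (ψ z).2

theorem fibre_dim_aux {j k : Bool} {x : Fin 4 → R} (h : IsDC R (Phi j k) x w) {I : Ideal R}
    {a b p : ℂ} (ha : x 0 - algebraMap ℂ R a ∈ I) (hb : x 1 - algebraMap ℂ R b ∈ I)
    (hp : x 3 - algebraMap ℂ R p ∈ I)
    (hI : ∀ (B : Type) [CommRing B] [Algebra ℂ B] (ψ : R →ₐ[ℂ] B), ψ (x 0) = algebraMap ℂ B a →
      ψ (x 1) = algebraMap ℂ B b → ψ (x 3) = algebraMap ℂ B p → ∀ f ∈ I, ψ f = 0) :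
    ringKrullDim (R ⧸ I) = 1 := by
  have hmk : ∀ {y : R} {c : ℂ}, y - algebraMap ℂ R c ∈ I →
      Ideal.Quotient.mk I y = algebraMap ℂ (R ⧸ I) c := by
    intro y c hy
    have := Ideal.Quotient.eq.2 hy
    rw [this]
    rfl
  let F : Polynomial ℂ →ₐ[ℂ] R ⧸ I := Polynomial.aeval (Ideal.Quotient.mk I (x 2))
  have hFX : F Polynomial.X = Ideal.Quotient.mk I (x 2) := Polynomial.aeval_X _
  have hFC : ∀ c : ℂ, F (Polynomial.C c) = algebraMap ℂ (R ⧸ I) c := fun c =>
    Polynomial.aeval_C _ _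
  refine dim_one (F : Polynomial ℂ →+* R ⧸ I) ?_ ?_
  · let L := AlgebraicClosure (FractionRing (Polynomial ℂ))
    let q : L := algebraMap (FractionRing (Polynomial ℂ)) L
      (algebraMap (Polynomial ℂ) (FractionRing (Polynomial ℂ)) Polynomial.X)
    obtain ⟨v, hv⟩ := IsAlgClosed.exists_pow_nat_eq
      (phi j k (algebraMap ℂ L a) (algebraMap ℂ L b) q (algebraMap ℂ L p)) (n := 2) (by norm_num)
    obtain ⟨ψ, hψw, hψ⟩ := h.lift L ![algebraMap ℂ L a, algebraMap ℂ L b, q, algebraMap ℂ L p] v (by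
      rw [aeval_Phi, hv]
      rfl)
    let G : R ⧸ I →ₐ[ℂ] L := Ideal.Quotient.liftₐ I ψ (hI L ψ (hψ 0) (hψ 1) (hψ 3))
    have hG : ∀ y, G (Ideal.Quotient.mk I y) = ψ y := fun y => rfl
    have hcomp : G.comp F = ((IsScalarTower.toAlgHom ℂ (FractionRing (Polynomial ℂ)) L).comp
        (IsScalarTower.toAlgHom ℂ (Polynomial ℂ) (FractionRing (Polynomial ℂ)))) := by
      apply Polynomial.algHom_ext
      show G (F Polynomial.X) = q
      rw [hFX, hG, hψ 2]
      rfl
    have hinj : Function.Injective (G.comp F) := by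
      rw [hcomp]
      exact (algebraMap (FractionRing (Polynomial ℂ)) L).injective.comp
        (IsFractionRing.injective (Polynomial ℂ) (FractionRing (Polynomial ℂ)))
    exact Function.Injective.of_comp (f := G) (g := F) hinj
  · have hT : ∀ y : R, (F : Polynomial ℂ →+* R ⧸ I).IsIntegralElem (Ideal.Quotient.mk I y) := by
      let T : Subalgebra ℂ R :=
        { carrier := {y | (F : Polynomial ℂ →+* R ⧸ I).IsIntegralElem (Ideal.Quotient.mk I y)}
          mul_mem' := fun {a b} ha hb => by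
            show RingHom.IsIntegralElem _ _
            rw [map_mul]
            exact RingHom.IsIntegralElem.mul _ ha hb
          add_mem' := fun {a b} ha hb => by
            show RingHom.IsIntegralElem _ _
            rw [map_add]
            exact RingHom.IsIntegralElem.add _ ha hb
          algebraMap_mem' := fun c => by
            have : Ideal.Quotient.mk I (algebraMap ℂ R c) = F (Polynomial.C c) := by
              rw [hFC]; rfl
            show RingHom.IsIntegralElem _ _
            rw [this]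
            exact RingHom.isIntegralElem_map _ }
      have hconst : ∀ {y : R} {c : ℂ}, y - algebraMap ℂ R c ∈ I → y ∈ T := by
        intro y c hy
        have h1 : Ideal.Quotient.mk I y = F (Polynomial.C c) := by rw [hFC, hmk hy]
        show RingHom.IsIntegralElem _ _
        rw [h1]
        exact RingHom.isIntegralElem_map _
      refine fun y => h.mem_sub (T := T) ?_ ?_ y
      · refine ⟨Polynomial.X ^ 2 - Polynomial.C (phi j k (Polynomial.C a) (Polynomial.C b)
          Polynomial.X (Polynomial.C p)), Polynomial.monic_X_pow_sub_C _ two_ne_zero, ?_⟩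
        rw [Polynomial.eval₂_sub, Polynomial.eval₂_X_pow, Polynomial.eval₂_C, ← map_pow, h.rel,
          aeval_Phi]
        have e0 := hmk ha
        have e1 := hmk hb
        have e3 := hmk hp
        have f0 := hFC a
        have f1 := hFC b
        have f3 := hFC p
        rw [← f0] at e0
        rw [← f1] at e1
        rw [← f3] at e3
        cases j <;> cases k <;>
          simp only [phi, map_add, map_mul, map_pow, map_one, RingHom.coe_coe, e0, e1, e3, hFX,
            sub_self]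
      · intro m
        fin_cases m
        · exact hconst ha
        · exact hconst hb
        · show RingHom.IsIntegralElem _ _
          have h1 : Ideal.Quotient.mk I (x 2) = F Polynomial.X := hFX.symm
          show RingHom.IsIntegralElem _ (Ideal.Quotient.mk I (x 2))
          rw [h1]
          exact RingHom.isIntegralElem_map _
        · exact hconst hp
    intro z
    obtain ⟨y, rfl⟩ := Ideal.Quotient.mk_surjective z
    exact hT y

theorem not_reduced_aux {x : Fin 4 → R} (h : IsDC R (Phi false false) x w) {I : Ideal R}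
    {a : ℂ} (hζ : 1 + a ^ 4 = 0) (ha : x 0 - algebraMap ℂ R a ∈ I)
    (hb : x 1 - algebraMap ℂ R 0 ∈ I) (hp : x 3 - algebraMap ℂ R 0 ∈ I)
    (hI : ∀ (B : Type) [CommRing B] [Algebra ℂ B] (ψ : R →ₐ[ℂ] B), ψ (x 0) = algebraMap ℂ B a →
      ψ (x 1) = algebraMap ℂ B 0 → ψ (x 3) = algebraMap ℂ B 0 → ∀ f ∈ I, ψ f = 0) :
    ¬ IsReduced (R ⧸ I) := by
  intro hred
  have hmk : ∀ {y : R} {c : ℂ}, y - algebraMap ℂ R c ∈ I →
      Ideal.Quotient.mk I y = algebraMap ℂ (R ⧸ I) c := by
    intro y c hy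
    have := Ideal.Quotient.eq.2 hy
    rw [this]
    rfl
  have h1 : Ideal.Quotient.mk I w ^ 2 = 0 := by
    rw [← map_pow, h.rel, aeval_Phi]
    simp only [phi, map_add, map_mul, map_pow, map_one, hmk ha, hmk hb, hmk hp, map_zero]
    have : (1 : R ⧸ I) + algebraMap ℂ (R ⧸ I) a ^ 4 = 0 := by
      rw [← map_pow, ← map_one (algebraMap ℂ (R ⧸ I)), ← map_add, hζ, map_zero]
    linear_combination this
  have h2 : Ideal.Quotient.mk I w = 0 := hred.eq_zero _ ⟨2, h1⟩
  have h3 : w ∈ I := Ideal.Quotient.eq_zero_iff_mem.1 h2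
  obtain ⟨ψ, hψw, hψ⟩ := h.lift (DualNumber ℂ) ![algebraMap ℂ _ a, algebraMap ℂ _ 0, 0,
    algebraMap ℂ _ 0] DualNumber.eps (by
      rw [aeval_Phi]
      simp only [phi, Matrix.cons_val, map_zero]
      rw [pow_two, DualNumber.eps_mul_eps, ← map_pow, ← map_one (algebraMap ℂ (DualNumber ℂ)),
        ← map_add]
      have : (1 : ℂ) + a ^ 4 + 0 ^ 4 = 0 := by rw [hζ]; norm_num
      simp [hζ])
  have h4 := hI _ ψ (hψ 0) (hψ 1) (hψ 3) w h3
  rw [hψw] at h4
  have h5 := congrArg TrivSqZeroExt.snd h4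
  simp at h5

end abs

lemma exists_ev {A : Type} [CommRing A] [Algebra ℂ A] [Algebra.FiniteType ℂ A] (m : Ideal A)
    (hm : m.IsMaximal) : ∃ ev : A →ₐ[ℂ] ℂ, RingHom.ker ev = m := by
  let _ := Ideal.Quotient.field m
  have h1 : Module.Finite ℂ (A ⧸ m) := finite_of_finite_type_of_isJacobsonRing ℂ (A ⧸ m)
  have h2 : Function.Bijective (Algebra.ofId ℂ (A ⧸ m)) :=
    IsAlgClosed.algebraMap_bijective_of_isIntegral
  let e := AlgEquiv.ofBijective (Algebra.ofId ℂ (A ⧸ m)) h2
  refine ⟨e.symm.toAlgHom.comp (Ideal.Quotient.mkₐ ℂ m), ?_⟩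
  ext z
  rw [RingHom.mem_ker]
  show e.symm (Ideal.Quotient.mk m z) = 0 ↔ _
  rw [map_eq_zero_iff _ e.symm.injective, Ideal.Quotient.eq_zero_iff_mem]

end Pool.Agent.H81
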