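import Mathlib
import Pool.Agent.H81.Bd

/-! The Picard group of the fourfold. -/

set_option linter.unusedSimpArgs false
set_option linter.unusedSectionVars false

noncomputable section

namespace Pool.Agent.H81

open Pool.Agent.H945R2 MvPolynomial FanoFib.Tor

/-- the coordinate ring of a chart of the fourfold. -/
abbrev RX (i : Fin 3) (j k : Bool) : Subalgebra ℂ K4 := ringOf E4 (ll i j k)

lemma wc_mem (i : Fin 3) (j k : Bool) : wc i j k ∈ RX i j k := by
  rw [RX, ring_eq]
  exact (dcX i j k).w_mem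

lemma xc_mem (i : Fin 3) (j k : Bool) (m : Fin 4) : xc i j k m ∈ RX i j k := by
  rw [RX, ring_eq]
  exact (dcX i j k).x_mem m

/-- the coordinates, in the coordinate ring -/
def xX (i : Fin 3) (j k : Bool) (m : Fin 4) : RX i j k := ⟨xc i j k m, xc_mem i j k m⟩
/-- the square root, in the coordinate ring -/
def wX (i : Fin 3) (j k : Bool) : RX i j k := ⟨wc i j k, wc_mem i j k⟩

lemma isDC_X (i : Fin 3) (j k : Bool) : IsDC (RX i j k) (Phi j k) (xX i j k) (wX i j k) :=
  (dcX i j k).isDC (ring_eq i j k) (wc_mem i j k) (xc_mem i j k)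

lemma fracX (i : Fin 3) (j k : Bool) (z : K4) :
    ∃ a b : RX i j k, b ≠ 0 ∧ z * (b : K4) = (a : K4) := atX.frac (i, j, k) z

lemma noethX (i : Fin 3) (j k : Bool) : IsNoetherianRing (RX i j k) :=
  (dcX i j k).noeth (ring_eq i j k)

lemma xX_ne (i : Fin 3) (j k : Bool) (m : Fin 4) : xX i j k m ≠ 0 := by
  intro h
  have h1 : xc i j k m = 0 := congrArg Subtype.val h
  have h2 := (dcX i j k).lin (f := X m) (g := 0) (by
    rw [aeval_X]
    show xc i j k m + _ = 0
    rw [h1]
    simp)
  exact X_ne_zero m h2.1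

section classify

variable {i : Fin 3} {j k : Bool} {p : Ideal (RX i j k)} [hp : p.IsPrime]

lemma x_mem_loc (m : Fin 4) : xc i j k m ∈ locRing (RX i j k) p := coe_mem_loc (xX i j k m)

lemma x_locMax (m : Fin 4) : xc i j k m ∈ locMax (RX i j k) p ↔ xX i j k m ∈ p :=
  coe_mem_locMax (xX i j k m)

lemma moveX (O : ValuationSubring K4) (hO : (O : Set K4) = locRing (RX i j k) p)
    (i' : Fin 3) (j' k' : Bool) (h : ll i' j' k' / ll i j k ∉ locMax (RX i j k) p) :
    ∃ q : Ideal (RX i' j' k'), ∃ _ : q.IsPrime, (O : Set K4) = locRing (RX i' j' k') q ∧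
      locMax (RX i j k) p = locMax (RX i' j' k') q := by
  obtain ⟨q, hq, hq', _⟩ := transfer (ll_mem i j k) (ll_ne i j k) (ll_mem i' j' k')
    (ll_ne i' j' k') h
  exact ⟨q, hq, hO.trans hq', locMax_congr hq'⟩

end classify

lemma z0_eq (i : Fin 3) (hi : i ≠ 0) (j k : Bool) : xc i j k 0 = zz 0 / zz i := by
  fin_cases i
  · exact absurd rfl hi
  · rfl
  · rfl

/-- the ratio of the denominators -/
lemma l_ratio (i : Fin 3) (j k : Bool) : ll 0 false false / ll i j k =
    (zz 0 / zz i) ^ 4 * ((if j then xc i j k 3 else 1) * (if k then xc i j k 2 else 1)) := by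
  have hz := zz_ne i
  have hz0 := zz_ne 0
  have hu := uu_ne
  have hr := rr_ne
  cases j <;> cases k <;>
    simp only [ll, xc, pp, qq, if_true, if_false, Bool.false_eq_true, Matrix.cons_val] <;>
    field_simp

lemma l_ratio_z (i : Fin 3) (j k : Bool) : ll i false false / ll i j k =
    ((if j then xc i j k 3 else 1) * (if k then xc i j k 2 else 1)) := by
  have hz := zz_ne i
  have hu := uu_ne
  have hr := rr_ne
  cases j <;> cases k <;>
    simp only [ll, xc, pp, qq, if_true, if_false, Bool.false_eq_true, Matrix.cons_val] <;>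
    field_simp

lemma l_ratio_T (i : Fin 3) (j : Bool) : ll 0 false true / ll i j true =
    (zz 0 / zz i) ^ 3 * (if j then xc i j true 3 else 1) := by
  have hz := zz_ne i
  have hz0 := zz_ne 0
  have hu := uu_ne
  have hr := rr_ne
  cases j <;>
    simp only [ll, xc, pp, qq, if_true, if_false, Bool.false_eq_true, Matrix.cons_val] <;>
    field_simp

lemma l_ratio_V (i : Fin 3) (k : Bool) : ll 0 true false / ll i true k =
    (zz 0 / zz i) ^ 2 * (if k then xc i true k 2 else 1) := by
  have hz := zz_ne i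
  have hz0 := zz_ne 0
  have hu := uu_ne
  have hr := rr_ne
  cases k <;>
    simp only [ll, xc, pp, qq, if_true, if_false, Bool.false_eq_true, Matrix.cons_val] <;>
    field_simp

lemma l_ratio_1 (i : Fin 3) : ll 1 false false / ll i false false = (zz 1 / zz i) ^ 4 := by
  have hz := zz_ne i
  have hz1 := zz_ne 1
  simp only [ll]
  field_simp

section cases

variable (O : ValuationSubring K4) (hd : IsDiscreteValuationRing O)

/-- information on `z 0 / z i`. -/
lemma z0_info {i : Fin 3} {j k : Bool} {p : Ideal (RX i j k)} [p.IsPrime]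
    (h : i ≠ 0 → xX i j k 0 ∉ p) : zz 0 / zz i ∈ locRing (RX i j k) p ∧
      zz 0 / zz i ∉ locMax (RX i j k) p := by
  by_cases hi : i = 0
  · subst hi
    rw [div_self (zz_ne _)]
    exact ⟨(locSub (RX _ j k) p).one_mem, one_not_mem_locMax⟩
  · rw [← z0_eq i hi j k, x_locMax]
    exact ⟨x_mem_loc 0, h hi⟩

/-- ideal of the divisor `t = 0` in a chart -/
def IT (i : Fin 3) (j : Bool) : Ideal (RX i j true) := Ideal.span {xX i j true 2}
/-- ideal of the divisor `z 0 = 0` in a chart -/
def IZ (i : Fin 3) : Ideal (RX i false false) := Ideal.span {xX i false false 0}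
/-- ideal of a divisor `v = 0` in a chart -/
def IVX (i : Fin 3) (k σ : Bool) : Ideal (RX i true k) := IV k σ (xX i true k) (wX i true k)

include hd

lemma eq_IT {i : Fin 3} {j : Bool} {p : Ideal (RX i j true)} [hp : p.IsPrime]
    (hO : (O : Set K4) = locRing (RX i j true) p) (h : xX i j true 2 ∈ p) :
    p = IT i j := by
  have h1 := (T_prime (isDC_X i j true)).1
  refine dvr_unique' O hd hO (hq := h1) ?_ ?_
  · intro h2
    have : xX i j true 2 ∈ (⊥ : Ideal (RX i j true)) := by
      rw [← h2]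
      exact Ideal.mem_span_singleton_self _
    exact xX_ne _ _ _ _ (Ideal.mem_bot.1 this)
  · rw [IT, Ideal.span_singleton_le_iff_mem]
    exact h

lemma eq_IZ {i : Fin 3} {p : Ideal (RX i false false)} [hp : p.IsPrime]
    (hO : (O : Set K4) = locRing (RX i false false) p) (h : xX i false false 0 ∈ p) :
    p = IZ i := by
  have h1 := (Z_prime (isDC_X i false false)).1
  refine dvr_unique' O hd hO (hq := h1) ?_ ?_
  · intro h2
    have : xX i false false 0 ∈ (⊥ : Ideal (RX i false false)) := by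
      rw [← h2]
      exact Ideal.mem_span_singleton_self _
    exact xX_ne _ _ _ _ (Ideal.mem_bot.1 this)
  · rw [IZ, Ideal.span_singleton_le_iff_mem]
    exact h

lemma eq_IV {i : Fin 3} {k : Bool} {p : Ideal (RX i true k)} [hp : p.IsPrime]
    (hO : (O : Set K4) = locRing (RX i true k) p) (h : xX i true k 3 ∈ p) :
    ∃ σ, p = IVX i k σ := by
  obtain ⟨c, hc⟩ := V_split (isDC_X i true k)
  have h1 : (wX i true k - sg true * cV k (xX i true k 2)) *
      (wX i true k - sg false * cV k (xX i true k 2)) ∈ p := by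
    rw [hc]
    exact p.mul_mem_right _ h
  obtain ⟨σ, hσ⟩ : ∃ σ, wX i true k - sg σ * cV k (xX i true k 2) ∈ p := by
    rcases hp.mem_or_mem h1 with h | h
    · exact ⟨true, h⟩
    · exact ⟨false, h⟩
  refine ⟨σ, ?_⟩
  have h1 := (V_prime σ (isDC_X i true k)).1
  refine dvr_unique' O hd hO (hq := h1) ?_ ?_
  · intro h2
    have : xX i true k 3 ∈ (⊥ : Ideal (RX i true k)) := by
      rw [← h2]
      exact Ideal.subset_span (by simp)
    exact xX_ne _ _ _ _ (Ideal.mem_bot.1 this)
  · show Ideal.span _ ≤ p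
    rw [Ideal.span_le]
    rintro z hz
    rcases hz with rfl | rfl
    · exact h
    · exact hσ

/-- a component of `v = 0` -/
lemma case_V {i : Fin 3} {k : Bool} {p : Ideal (RX i true k)} [hp : p.IsPrime]
    (hO : (O : Set K4) = locRing (RX i true k) p) (h : xX i true k 3 ∈ p) :
    xX i true k 0 ∉ p ∧ xX i true k 2 ∉ p ∧
      ∃ σ, (O : Set K4) = locRing (RX 0 true false) (IVX 0 false σ) := by
  obtain ⟨τ, hτ⟩ := eq_IV O hd hO h
  obtain ⟨-, n0, n1, n2, -⟩ := V_prime τ (isDC_X i true k)
  have n0' : xX i true k 0 ∉ p := by rw [hτ]; exact n0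
  have n2' : xX i true k 2 ∉ p := by rw [hτ]; exact n2
  refine ⟨n0', n2', ?_⟩
  obtain ⟨hz, hz'⟩ := z0_info (p := p) (fun _ => n0')
  have h1 : ll 0 true false / ll i true k ∉ locMax (RX i true k) p := by
    rw [l_ratio_V]
    refine not_locMax_mul ((locSub _ p).pow_mem hz 2) ?_ (not_locMax_pow hz hz' 2) ?_
    · split_ifs
      · exact x_mem_loc 2
      · exact (locSub (RX i true k) p).one_mem
    · split_ifs
      · rw [x_locMax]; exact n2'
      · exact one_not_mem_locMax
  obtain ⟨q, hq, hO', hm⟩ := moveX O hO 0 true false h1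
  have h3 : xX 0 true false 3 ∈ q := by
    rw [← x_locMax, ← hm]
    have h4 : xc 0 true false 3 = (zz 0 / zz i) ^ 2 * xc i true k 3 := by
      show zz 0 ^ 2 / uu = (zz 0 / zz i) ^ 2 * (zz i ^ 2 / uu)
      have := zz_ne i
      field_simp
    rw [h4]
    exact locMax_mul ((locSub _ p).pow_mem hz 2) ((x_locMax 3).2 h)
  obtain ⟨σ, hσ⟩ := eq_IV O hd hO' h3
  exact ⟨σ, by rw [hO', hσ]⟩

/-- `t = 0` -/
lemma case_T {i : Fin 3} {j : Bool} {p : Ideal (RX i j true)} [hp : p.IsPrime]
    (hO : (O : Set K4) = locRing (RX i j true) p) (h : xX i j true 2 ∈ p) :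
    xX i j true 0 ∉ p ∧ (O : Set K4) = locRing (RX 0 false true) (IT 0 false) := by
  have hT := eq_IT O hd hO h
  obtain ⟨-, n0, n1, n3⟩ := T_prime (isDC_X i j true)
  have n0' : xX i j true 0 ∉ p := by rw [hT]; exact n0
  have n3' : xX i j true 3 ∉ p := by rw [hT]; exact n3
  refine ⟨n0', ?_⟩
  obtain ⟨hz, hz'⟩ := z0_info (p := p) (fun _ => n0')
  have h1 : ll 0 false true / ll i j true ∉ locMax (RX i j true) p := by
    rw [l_ratio_T]
    refine not_locMax_mul ((locSub _ p).pow_mem hz 3) ?_ (not_locMax_pow hz hz' 3) ?_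
    · split_ifs
      · exact x_mem_loc 3
      · exact (locSub (RX i j true) p).one_mem
    · split_ifs
      · rw [x_locMax]; exact n3'
      · exact one_not_mem_locMax
  obtain ⟨q, hq, hO', hm⟩ := moveX O hO 0 false true h1
  have h3 : xX 0 false true 2 ∈ q := by
    rw [← x_locMax, ← hm]
    have h4 : xc 0 false true 2 = (zz 0 / zz i) * xc i j true 2 := by
      show zz 0 / rr = (zz 0 / zz i) * (zz i / rr)
      have := zz_ne i
      field_simp
    rw [h4]
    exact locMax_mul hz ((x_locMax 2).2 h)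
  rw [hO', eq_IT O hd hO' h3]

/-- `z 0 = 0` -/
lemma case_Z {i : Fin 3} (hi : i ≠ 0) {j k : Bool} {p : Ideal (RX i j k)} [hp : p.IsPrime]
    (hO : (O : Set K4) = locRing (RX i j k) p) (h : xX i j k 0 ∈ p) :
    (O : Set K4) = locRing (RX 1 false false) (IZ 1) := by
  have h1 : ll i false false / ll i j k ∉ locMax (RX i j k) p := by
    rw [l_ratio_z]
    refine not_locMax_mul ?_ ?_ ?_ ?_
    · split_ifs
      · exact x_mem_loc 3
      · exact (locSub (RX i j k) p).one_mem
    · split_ifs
      · exact x_mem_loc 2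
      · exact (locSub (RX i j k) p).one_mem
    · cases j
      · exact one_not_mem_locMax
      · rw [if_pos rfl, x_locMax]
        intro h3
        exact (case_V O hd hO h3).1 h
    · cases k
      · exact one_not_mem_locMax
      · rw [if_pos rfl, x_locMax]
        intro h3
        exact (case_T O hd hO h3).1 h
  obtain ⟨q, hq, hO', hm⟩ := moveX O hO i false false h1
  have h3 : xX i false false 0 ∈ q := by
    rw [← x_locMax, ← hm]
    have h4 : xc i false false 0 = xc i j k 0 := rfl
    rw [h4, x_locMax]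
    exact h
  have hqZ := eq_IZ O hd hO' h3
  obtain ⟨-, n1, n2, n3⟩ := Z_prime (isDC_X i false false)
  have n1' : xX i false false 1 ∉ q := by rw [hqZ]; exact n1
  have hb : zz 1 / zz i ∈ locRing (RX i false false) q ∧
      zz 1 / zz i ∉ locMax (RX i false false) q := by
    fin_cases i
    · exact absurd rfl hi
    · show zz 1 / zz 1 ∈ _ ∧ zz 1 / zz 1 ∉ _
      rw [div_self (zz_ne _)]
      exact ⟨(locSub (RX _ false false) q).one_mem, one_not_mem_locMax⟩
    · exact ⟨x_mem_loc 1, fun h5 => n1' ((x_locMax 1).1 h5)⟩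
  have h5 : ll 1 false false / ll i false false ∉ locMax (RX i false false) q := by
    rw [l_ratio_1]
    exact not_locMax_pow hb.1 hb.2 4
  obtain ⟨q', hq', hO'', hm'⟩ := moveX O hO' 1 false false h5
  have h6 : xX 1 false false 0 ∈ q' := by
    rw [← x_locMax, ← hm']
    have h4 : xc 1 false false 0 = (zz 1 / zz i)⁻¹ * xc i false false 0 := by
      rw [z0_eq i hi]
      show zz 0 / zz 1 = _
      have := zz_ne i
      have := zz_ne 1
      field_simp
    rw [h4]
    exact locMax_mul ((locMax_or_unit hb.1).resolve_left hb.2).2 ((x_locMax 0).2 h3)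
  rw [hO'', eq_IZ O hd hO'' h6]

lemma allX (i : Fin 3) (j k : Bool)
    (p : Ideal (RX i j k)) (hp : p.IsPrime) (hO : (O : Set K4) = locRing (RX i j k) p) :
    (O : Set K4) = locRing (RX 1 false false) (IZ 1) ∨
    (O : Set K4) = locRing (RX 0 false true) (IT 0 false) ∨
    (∃ σ, (O : Set K4) = locRing (RX 0 true false) (IVX 0 false σ)) ∨
    ∃ q : Ideal (RX 0 false false), q.IsPrime ∧ (O : Set K4) = locRing (RX 0 false false) q := by
  by_cases hz : i ≠ 0 ∧ xX i j k 0 ∈ p
  · exact Or.inl (case_Z O hd hz.1 hO hz.2)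
  by_cases hT : k = true ∧ xX i j k 2 ∈ p
  · obtain ⟨rfl, h⟩ := hT
    exact Or.inr (Or.inl (case_T O hd hO h).2)
  by_cases hV : j = true ∧ xX i j k 3 ∈ p
  · obtain ⟨rfl, h⟩ := hV
    exact Or.inr (Or.inr (Or.inl (case_V O hd hO h).2.2))
  obtain ⟨h1, h2⟩ := z0_info (p := p) (fun hi h => hz ⟨hi, h⟩)
  have h3 : ll 0 false false / ll i j k ∉ locMax (RX i j k) p := by
    rw [l_ratio]
    refine not_locMax_mul ((locSub _ p).pow_mem h1 4) ?_ (not_locMax_pow h1 h2 4) ?_
    · refine loc_mul ?_ ?_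
      · split_ifs
        · exact x_mem_loc 3
        · exact (locSub (RX i j k) p).one_mem
      · split_ifs
        · exact x_mem_loc 2
        · exact (locSub (RX i j k) p).one_mem
    · refine not_locMax_mul ?_ ?_ ?_ ?_
      · split_ifs
        · exact x_mem_loc 3
        · exact (locSub (RX i j k) p).one_mem
      · split_ifs
        · exact x_mem_loc 2
        · exact (locSub (RX i j k) p).one_mem
      · split_ifs with h
        · rw [x_locMax]
          exact fun h' => hV ⟨h, h'⟩
        · exact one_not_mem_locMax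
      · split_ifs with h
        · rw [x_locMax]
          exact fun h' => hT ⟨h, h'⟩
        · exact one_not_mem_locMax
  obtain ⟨q, hq, hO', _⟩ := moveX O hO 0 false false h3
  exact Or.inr (Or.inr (Or.inr ⟨q, hq, hO'⟩))

end cases

instance prT (i : Fin 3) (j : Bool) : (IT i j).IsPrime := (T_prime (isDC_X i j true)).1
instance prZ (i : Fin 3) : (IZ i).IsPrime := (Z_prime (isDC_X i false false)).1
instance prV (i : Fin 3) (k σ : Bool) : (IVX i k σ).IsPrime := (V_prime σ (isDC_X i true k)).1

lemma exists_OT : ∃ O : ValuationSubring K4, IsDiscreteValuationRing O ∧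
    (O : Set K4) = locRing (RX 0 false true) (IT 0 false) := by
  refine exists_dvr (noethX _ _ _) (fracX _ _ _) _ (ϖ := xX 0 false true 2)
    (Ideal.mem_span_singleton_self _) (xX_ne _ _ _ _) ?_
  intro f hf
  exact ⟨1, one_not_mem, by rw [one_mul]; exact Ideal.mem_span_singleton.1 hf⟩

lemma exists_OZ : ∃ O : ValuationSubring K4, IsDiscreteValuationRing O ∧
    (O : Set K4) = locRing (RX 1 false false) (IZ 1) := by
  refine exists_dvr (noethX _ _ _) (fracX _ _ _) _ (ϖ := xX 1 false false 0)
    (Ideal.mem_span_singleton_self _) (xX_ne _ _ _ _) ?_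
  intro f hf
  exact ⟨1, one_not_mem, by rw [one_mul]; exact Ideal.mem_span_singleton.1 hf⟩

lemma exists_OV (σ : Bool) : ∃ O : ValuationSubring K4, IsDiscreteValuationRing O ∧
    (O : Set K4) = locRing (RX 0 true false) (IVX 0 false σ) := by
  refine exists_dvr (noethX _ _ _) (fracX _ _ _) _ (ϖ := xX 0 true false 3)
    (Ideal.subset_span (by simp)) (xX_ne _ _ _ _) ?_
  intro f hf
  obtain ⟨-, -, -, -, hs⟩ := V_prime σ (isDC_X 0 true false)
  refine ⟨_, hs, ?_⟩
  obtain ⟨c, hc⟩ := V_split' σ (isDC_X 0 true false)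
  rw [IVX, IV, Ideal.mem_span_pair] at hf
  obtain ⟨a, b, rfl⟩ := hf
  refine ⟨(wX 0 true false - sg (!σ) * cV false (xX 0 true false 2)) * a + b * c, ?_⟩
  linear_combination b * hc

lemma coe_not_mem {R : Subalgebra ℂ K4} {p : Ideal R} [p.IsPrime] {a b : K4}
    (ha : a ∈ locRing R p) (hb : b ∈ locMax R p) : a * b ≠ 1 := by
  intro h
  have := locMax_mul ha hb
  rw [h] at this
  exact one_not_mem_locMax this

/-- `x` is regular on the charts with `i = 0`. -/
lemma x_reg (j k : Bool) (p : Ideal (RX 0 j k)) [p.IsPrime] : zz 1 ∈ locRing (RX 0 j k) p := by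
  have h3 := x_mem_loc (i := 0) (j := j) (k := k) (p := p) 0
  have h4 : xc 0 j k 0 = zz 1 := by
    show zz 1 / zz 0 = zz 1
    exact div_one _
  rw [h4] at h3
  exact h3

lemma locZ_ne (j k : Bool) (p : Ideal (RX 0 j k)) [p.IsPrime] :
    locRing (RX 1 false false) (IZ 1) ≠ locRing (RX 0 j k) p := by
  intro h
  have h2 := x_reg j k p
  rw [← h] at h2
  have h5 : xc 1 false false 0 ∈ locMax (RX 1 false false) (IZ 1) := by
    rw [x_locMax]
    exact Ideal.mem_span_singleton_self _
  refine coe_not_mem h2 h5 ?_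
  show zz 1 * (zz 0 / zz 1) = 1
  have := zz_ne 1
  have h0 : zz 0 = 1 := rfl
  rw [h0]
  field_simp

lemma locT_ne_V (σ : Bool) :
    locRing (RX 0 false true) (IT 0 false) ≠ locRing (RX 0 true false) (IVX 0 false σ) := by
  intro h
  have h2 := x_mem_loc (i := 0) (j := false) (k := true) (p := IT 0 false) 3
  rw [h] at h2
  have h5 : xc 0 true false 3 ∈ locMax (RX 0 true false) (IVX 0 false σ) := by
    rw [x_locMax]
    exact Ideal.subset_span (by simp)
  refine coe_not_mem h2 h5 ?_
  show (uu / zz 0 ^ 2) * (zz 0 ^ 2 / uu) = 1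
  have := zz_ne 0
  have := uu_ne
  field_simp

lemma locV_ne : locRing (RX 0 true false) (IVX 0 false true) ≠
    locRing (RX 0 true false) (IVX 0 false false) := by
  intro h
  have h1 := eq_of_locRing h
  obtain ⟨-, -, -, -, hs⟩ := V_prime true (isDC_X 0 true false)
  apply hs
  have h2 : wX 0 true false - sg false * cV false (xX 0 true false 2) ∈ IVX 0 false false :=
    Ideal.subset_span (by simp)
  rw [← h1] at h2
  exact h2

lemma outX_Z (q : Ideal (RX 0 false false)) [q.IsPrime] :
    locRing (RX 1 false false) (IZ 1) ≠ locRing (RX 0 false false) q := locZ_ne false false q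

lemma outX_T (q : Ideal (RX 0 false false)) [q.IsPrime] :
    locRing (RX 0 false true) (IT 0 false) ≠ locRing (RX 0 false false) q := by
  apply not_on_chart (ll_mem _ _ _) (ll_ne _ _ _) (ll_ne _ _ _)
  rw [l_ratio, if_neg (by decide), if_pos rfl, div_self (zz_ne 0), one_pow, one_mul, one_mul,
    x_locMax]
  exact Ideal.mem_span_singleton_self _

lemma outX_V (σ : Bool) (q : Ideal (RX 0 false false)) [q.IsPrime] :
    locRing (RX 0 true false) (IVX 0 false σ) ≠ locRing (RX 0 false false) q := by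
  apply not_on_chart (ll_mem _ _ _) (ll_ne _ _ _) (ll_ne _ _ _)
  rw [l_ratio, if_neg (by decide : ¬ (false = true)), if_pos rfl, div_self (zz_ne 0), one_pow,
    one_mul, mul_one, x_locMax]
  exact Ideal.subset_span (by simp)

theorem picX : Nonempty (X4.Pic ≃+ (Fin 4 → ℤ)) := by
  obtain ⟨OZ, dZ, hZ⟩ := exists_OZ
  obtain ⟨OT, dT, hT⟩ := exists_OT
  obtain ⟨OP, dP, hP⟩ := exists_OV true
  obtain ⟨OM, dM, hM⟩ := exists_OV false
  let DZ : X4.PrimeDivisor := ⟨OZ, ⟨(1, false, false), IZ 1, prZ 1, hZ⟩, dZ⟩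
  let DT : X4.PrimeDivisor := ⟨OT, ⟨(0, false, true), IT 0 false, prT 0 false, hT⟩, dT⟩
  let DP : X4.PrimeDivisor := ⟨OP, ⟨(0, true, false), IVX 0 false true, prV 0 false true, hP⟩, dP⟩
  let DM : X4.PrimeDivisor := ⟨OM, ⟨(0, true, false), IVX 0 false false, prV 0 false false, hM⟩, dM⟩
  have nZT : DZ ≠ DT := by
    intro h
    have h1 : (OZ : Set K4) = OT := congrArg (fun D : X4.PrimeDivisor => (D.O : Set X4.K)) h
    rw [hZ, hT] at h1
    exact locZ_ne _ _ _ h1
  have nZP : DZ ≠ DP := by
    intro h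
    have h1 : (OZ : Set K4) = OP := congrArg (fun D : X4.PrimeDivisor => (D.O : Set X4.K)) h
    rw [hZ, hP] at h1
    exact locZ_ne _ _ _ h1
  have nZM : DZ ≠ DM := by
    intro h
    have h1 : (OZ : Set K4) = OM := congrArg (fun D : X4.PrimeDivisor => (D.O : Set X4.K)) h
    rw [hZ, hM] at h1
    exact locZ_ne _ _ _ h1
  have nTP : DT ≠ DP := by
    intro h
    have h1 : (OT : Set K4) = OP := congrArg (fun D : X4.PrimeDivisor => (D.O : Set X4.K)) h
    rw [hT, hP] at h1
    exact locT_ne_V _ h1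
  have nTM : DT ≠ DM := by
    intro h
    have h1 : (OT : Set K4) = OM := congrArg (fun D : X4.PrimeDivisor => (D.O : Set X4.K)) h
    rw [hT, hM] at h1
    exact locT_ne_V _ h1
  have nPM : DP ≠ DM := by
    intro h
    have h1 : (OP : Set K4) = OM := congrArg (fun D : X4.PrimeDivisor => (D.O : Set X4.K)) h
    rw [hP, hM] at h1
    exact locV_ne h1
  refine PicData.pic (X := X4) (n := 4)
    { c := (0, false, false)
      ufd := R0_ufm
      unit := R0_unit
      D := ![DZ, DT, DP, DM]
      inj := ?_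
      out := ?_
      all := ?_ }
  · intro a b hab
    fin_cases a <;> fin_cases b <;> first | rfl | exfalso
    · exact nZT hab
    · exact nZP hab
    · exact nZM hab
    · exact nZT hab.symm
    · exact nTP hab
    · exact nTM hab
    · exact nZP hab.symm
    · exact nTP hab.symm
    · exact nPM hab
    · exact nZM hab.symm
    · exact nTM hab.symm
    · exact nPM hab.symm
  · intro a q hq
    have hq' : Ideal.IsPrime (show Ideal (RX 0 false false) from q) := hq
    fin_cases a
    · show (OZ : Set K4) ≠ _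
      rw [hZ]
      exact @outX_Z q hq'
    · show (OT : Set K4) ≠ _
      rw [hT]
      exact @outX_T q hq'
    · show (OP : Set K4) ≠ _
      rw [hP]
      exact @outX_V true q hq'
    · show (OM : Set K4) ≠ _
      rw [hM]
      exact @outX_V false q hq'
  · intro D'
    obtain ⟨⟨i, j, k⟩, p, hp, hO⟩ := D'.isPoint
    rcases allX D'.O D'.dvr i j k p hp hO with h | h | ⟨σ, h⟩ | h
    · exact Or.inl ⟨0, pd_ext (h.trans hZ.symm)⟩
    · exact Or.inl ⟨1, pd_ext (h.trans hT.symm)⟩
    · cases σ
      · exact Or.inl ⟨3, pd_ext (h.trans hM.symm)⟩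
      · exact Or.inl ⟨2, pd_ext (h.trans hP.symm)⟩
    · exact Or.inr h

end Pool.Agent.H81
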