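import Mathlib
import Pool.Agent.H81.CBDefs
import Pool.Agent.H81.Fib1
import Pool.Agent.H81.PicX
import Pool.Agent.H81.PicY

/-! The conic bundle: the fibres. -/

set_option linter.unusedSimpArgs false
set_option linter.unusedSectionVars false

noncomputable section

namespace Pool.Agent.H81

open Pool.Agent.H945R2 MvPolynomial FanoFib.Tor

lemma maps_aux (i : Fin 3) (j k : Bool) {g : K3} (hg : g ∈ RY i j) : φ g ∈ RX i j k := by
  rw [RY, ringY_eq] at hg
  induction hg using Algebra.adjoin_induction with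
  | mem x hx =>
    obtain ⟨m, rfl⟩ := hx
    rw [φ_yc i j k]
    exact xc_mem i j k _
  | algebraMap r => rw [AlgHom.commutes]; exact Subalgebra.algebraMap_mem _ _
  | add x y _ _ hx hy => rw [map_add]; exact Subalgebra.add_mem _ hx hy
  | mul x y _ _ hx hy => rw [map_mul]; exact Subalgebra.mul_mem _ hx hy

/-- the homomorphism of the coordinate rings -/
def chi (i : Fin 3) (j k : Bool) : RY i j →ₐ[ℂ] RX i j k :=
  (φ.comp (RY i j).val).codRestrict (RX i j k) fun g => maps_aux i j k g.2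

lemma coe_chi (i : Fin 3) (j k : Bool) (g : RY i j) : (chi i j k g : K4) = φ g := rfl

/-- index of a coordinate -/
def sh : Fin 3 → Fin 4 := ![0, 1, 3]

lemma chi_X (i : Fin 3) (j k : Bool) (m : Fin 3) : chi i j k (eY i j (X m)) = xX i j k (sh m) := by
  apply Subtype.ext
  rw [coe_chi, eY_X, φ_yc i j k]
  rfl

lemma RY_ext {i : Fin 3} {j : Bool} {B : Type} [CommRing B] [Algebra ℂ B] {f g : RY i j →ₐ[ℂ] B}
    (h : ∀ m, f (eY i j (X m)) = g (eY i j (X m))) : f = g := by
  have h1 : f.comp (eY i j).toAlgHom = g.comp (eY i j).toAlgHom := by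
    apply MvPolynomial.algHom_ext
    intro m
    exact h m
  ext z
  have h2 := DFunLike.congr_fun h1 ((eY i j).symm z)
  have h3 : (eY i j).toAlgHom ((eY i j).symm z) = z := (eY i j).apply_symm_apply z
  rw [AlgHom.comp_apply, AlgHom.comp_apply, h3] at h2
  exact h2

lemma fib_mem {i : Fin 3} {j : Bool} (k : Bool) {m : Ideal (RY i j)} {ev : RY i j →ₐ[ℂ] ℂ}
    (hev : RingHom.ker ev = m) (l : Fin 3) :
    xX i j k (sh l) - algebraMap ℂ (RX i j k) (ev (eY i j (X l))) ∈
      m.map (chi i j k : RY i j →+* RX i j k) := by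
  have h1 : eY i j (X l) - algebraMap ℂ (RY i j) (ev (eY i j (X l))) ∈ m := by
    rw [← hev, RingHom.mem_ker, map_sub, AlgHom.commutes]
    exact sub_self _
  have h2 := Ideal.mem_map_of_mem (chi i j k : RY i j →+* RX i j k) h1
  rw [map_sub, RingHom.coe_coe, AlgHom.commutes, chi_X] at h2
  exact h2

lemma fib_kill {i : Fin 3} {j : Bool} (k : Bool) {m : Ideal (RY i j)} {ev : RY i j →ₐ[ℂ] ℂ}
    (hev : RingHom.ker ev = m) {B : Type} [CommRing B] [Algebra ℂ B] (ψ : RX i j k →ₐ[ℂ] B)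
    (h : ∀ l, ψ (xX i j k (sh l)) = algebraMap ℂ B (ev (eY i j (X l)))) {f : RX i j k}
    (hf : f ∈ m.map (chi i j k : RY i j →+* RX i j k)) : ψ f = 0 := by
  have h1 : ψ.comp (chi i j k) = (Algebra.ofId ℂ B).comp ev := by
    apply RY_ext
    intro l
    rw [AlgHom.comp_apply, chi_X, h]
    rfl
  have h2 : m.map (chi i j k : RY i j →+* RX i j k) ≤ RingHom.ker (ψ : RX i j k →+* B) := by
    rw [Ideal.map_le_iff_le_comap]
    intro z hz
    rw [← hev, RingHom.mem_ker] at hz
    show ψ (chi i j k z) = 0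
    have h3 := DFunLike.congr_fun h1 z
    rw [AlgHom.comp_apply, AlgHom.comp_apply] at h3
    rw [h3]
    have : ev z = 0 := hz
    rw [this, map_zero]
  exact h2 hf

lemma finiteY (i : Fin 3) (j : Bool) : Algebra.FiniteType ℂ (RY i j) :=
  Algebra.FiniteType.equiv inferInstance (eY i j)

theorem fibre_dimX (i : Fin 3) (j k : Bool) (m : Ideal (RY i j)) (hm : m.IsMaximal) :
    ringKrullDim (RX i j k ⧸ m.map (chi i j k : RY i j →+* RX i j k)) = 1 := by
  have := finiteY i j
  obtain ⟨ev, hev⟩ := exists_ev m hm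
  refine fibre_dim_aux (isDC_X i j k) (fib_mem k hev 0) (fib_mem k hev 1) (fib_mem k hev 2) ?_
  intro B _ _ ψ h0 h1 h2 f hf
  refine fib_kill k hev ψ ?_ hf
  intro l
  fin_cases l
  · exact h0
  · exact h1
  · exact h2

theorem exists_nonreduced : ∃ m : Ideal (RY 0 false), m.IsMaximal ∧
    ¬ IsReduced (RX 0 false false ⧸ m.map (chi 0 false false : RY 0 false →+* RX 0 false false)) := by
  obtain ⟨ζ, hζ⟩ := exists_zeta
  let ev : RY 0 false →ₐ[ℂ] ℂ := (aeval ![ζ, 0, 0]).comp (eY 0 false).symm.toAlgHom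
  have hev : ∀ l, ev (eY 0 false (X l)) = (![ζ, 0, 0] : Fin 3 → ℂ) l := by
    intro l
    show aeval ![ζ, 0, 0] ((eY 0 false).symm (eY 0 false (X l))) = _
    rw [AlgEquiv.symm_apply_apply, aeval_X]
  have e0 : ev (eY 0 false (X 0)) = ζ := hev 0
  have e1 : ev (eY 0 false (X 1)) = 0 := hev 1
  have e2 : ev (eY 0 false (X 2)) = 0 := hev 2
  have hsurj : Function.Surjective ev := fun c => ⟨algebraMap ℂ _ c, by rw [AlgHom.commutes]; rfl⟩
  refine ⟨RingHom.ker ev, RingHom.ker_isMaximal_of_surjective _ hsurj, ?_⟩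
  have h0 := fib_mem false (rfl : RingHom.ker ev = _) 0
  have h1 := fib_mem false (rfl : RingHom.ker ev = _) 1
  have h2 := fib_mem false (rfl : RingHom.ker ev = _) 2
  rw [e0] at h0
  rw [e1] at h1
  rw [e2] at h2
  refine not_reduced_aux (isDC_X 0 false false) hζ h0 h1 h2 ?_
  intro B _ _ ψ g0 g1 g2 f hf
  refine fib_kill false rfl ψ ?_ hf
  intro l
  fin_cases l
  · show _ = algebraMap ℂ B (ev (eY 0 false (X 0)))
    rw [e0]; exact g0
  · show _ = algebraMap ℂ B (ev (eY 0 false (X 1)))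
    rw [e1]; exact g1
  · show _ = algebraMap ℂ B (ev (eY 0 false (X 2)))
    rw [e2]; exact g2

end Pool.Agent.H81
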