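import Mathlib
import Pool.Agent.H81.Fib2

/-! The conic bundle: functions on the preimage of a chart. -/

set_option linter.unusedSimpArgs false
set_option linter.unusedSectionVars false

noncomputable section

namespace Pool.Agent.H81

open Pool.Agent.H945R2 MvPolynomial FanoFib.Tor

/-- the coordinate ring of the base of a chart -/
abbrev C3 : Type := MvPolynomial (Fin 3) ℂ

/-- a polynomial in four variables as a polynomial in one variable -/
def sharp : MvPolynomial (Fin 4) ℂ →ₐ[ℂ] Polynomial C3 :=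
  aeval ![Polynomial.C (X 0), Polynomial.C (X 1), Polynomial.X, Polynomial.C (X 2)]

/-- the inverse -/
def flat : Polynomial C3 →+* MvPolynomial (Fin 4) ℂ :=
  Polynomial.eval₂RingHom (aeval (fun l => X (sh l)) : C3 →ₐ[ℂ] MvPolynomial (Fin 4) ℂ) (X 2)

lemma sharp_flat (F : Polynomial C3) : sharp (flat F) = F := by
  have h : ((sharp : MvPolynomial (Fin 4) ℂ →+* Polynomial C3).comp flat) = RingHom.id _ := by
    apply Polynomial.ringHom_ext'
    · apply MvPolynomial.ringHom_ext
      · intro r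
        show sharp (Polynomial.eval₂ _ _ (Polynomial.C (C r))) = Polynomial.C (C r)
        rw [Polynomial.eval₂_C]
        show sharp (aeval _ (C r)) = _
        rw [aeval_C, AlgHom.commutes]
        rfl
      · intro l
        show sharp (Polynomial.eval₂ _ _ (Polynomial.C (X l))) = Polynomial.C (X l)
        rw [Polynomial.eval₂_C]
        show sharp (aeval _ (X l)) = _
        rw [aeval_X, sharp, aeval_X]
        fin_cases l <;> rfl
    · show sharp (Polynomial.eval₂ _ _ Polynomial.X) = Polynomial.X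
      rw [Polynomial.eval₂_X, sharp, aeval_X]
      rfl
  exact DFunLike.congr_fun h F

variable {K : Type} [Field K] [Algebra ℂ K]

lemma eval_sharp (x : Fin 4 → K) (P : MvPolynomial (Fin 4) ℂ) :
    Polynomial.eval₂ (aeval (fun l => x (sh l)) : C3 →ₐ[ℂ] K).toRingHom (x 2) (sharp P) =
      aeval x P := by
  have h : (Polynomial.eval₂RingHom (aeval (fun l => x (sh l)) : C3 →ₐ[ℂ] K).toRingHom (x 2)).comp
      (sharp : MvPolynomial (Fin 4) ℂ →+* Polynomial C3) = (aeval x : MvPolynomial (Fin 4) ℂ →ₐ[ℂ] K) := by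
    apply MvPolynomial.ringHom_ext
    · intro r
      show Polynomial.eval₂ _ _ (sharp (algebraMap ℂ _ r)) = aeval x (C r)
      rw [AlgHom.commutes, aeval_C]
      show Polynomial.eval₂ _ _ (Polynomial.C (C r)) = _
      rw [Polynomial.eval₂_C]
      show aeval _ (C r) = _
      rw [aeval_C]
    · intro l
      show Polynomial.eval₂ _ _ (sharp (X l)) = aeval x (X l)
      rw [sharp, aeval_X, aeval_X]
      fin_cases l
      · show Polynomial.eval₂ _ _ (Polynomial.C (X 0)) = _
        rw [Polynomial.eval₂_C]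
        show aeval _ (X 0) = _
        rw [aeval_X]
        rfl
      · show Polynomial.eval₂ _ _ (Polynomial.C (X 1)) = _
        rw [Polynomial.eval₂_C]
        show aeval _ (X 1) = _
        rw [aeval_X]
        rfl
      · show Polynomial.eval₂ _ _ Polynomial.X = _
        rw [Polynomial.eval₂_X]
        rfl
      · show Polynomial.eval₂ _ _ (Polynomial.C (X 2)) = _
        rw [Polynomial.eval₂_C]
        show aeval _ (X 2) = _
        rw [aeval_X]
        rfl
  exact DFunLike.congr_fun h P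

lemma aeval_flat (x : Fin 4 → K) (F : Polynomial C3) :
    aeval x (flat F) =
      Polynomial.eval₂ (aeval (fun l => x (sh l)) : C3 →ₐ[ℂ] K).toRingHom (x 2) F := by
  rw [← eval_sharp, sharp_flat]

lemma DC.lin' (A : DC 4 K) {F G : Polynomial C3}
    (h : Polynomial.eval₂ (aeval (fun l => A.x (sh l)) : C3 →ₐ[ℂ] K).toRingHom (A.x 2) F +
      Polynomial.eval₂ (aeval (fun l => A.x (sh l)) : C3 →ₐ[ℂ] K).toRingHom (A.x 2) G * A.w = 0) :
    F = 0 ∧ G = 0 := by
  rw [← aeval_flat, ← aeval_flat] at h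
  obtain ⟨h1, h2⟩ := A.lin h
  refine ⟨?_, ?_⟩
  · rw [← sharp_flat F, h1, map_zero]
  · rw [← sharp_flat G, h2, map_zero]

/-- A function regular for `q ≠ ∞` and for `q ≠ 0` does not depend on `q`. -/
theorem const_of_mem (A B : DC 4 K) (hsh : ∀ l, B.x (sh l) = A.x (sh l)) (hq0 : A.x 2 ≠ 0)
    (hq : B.x 2 = (A.x 2)⁻¹) (hw : B.w = A.w * (A.x 2)⁻¹) {h : K} (hA : h ∈ A.R) (hB : h ∈ B.R) :
    ∃ c : C3, h = aeval (fun l => A.x (sh l)) c := by
  set E : C3 →+* K := (aeval (fun l => A.x (sh l)) : C3 →ₐ[ℂ] K).toRingHom with hE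
  obtain ⟨f, g, e1⟩ := A.exists_rep hA
  obtain ⟨f', g', e2⟩ := B.exists_rep hB
  rw [← eval_sharp, ← eval_sharp, ← hE] at e1
  have hEB : (aeval (fun l => B.x (sh l)) : C3 →ₐ[ℂ] K).toRingHom = E := by
    rw [hE]
    congr 2
    funext l
    exact hsh l
  rw [← eval_sharp, ← eval_sharp, hEB, hw, hq] at e2
  set F := sharp f
  set G := sharp g
  set F' := sharp f'
  set G' := sharp g'
  set q := A.x 2 with hqdef
  obtain ⟨M, hM1, hM2⟩ : ∃ M, F'.natDegree ≤ M + 1 ∧ G'.natDegree ≤ M :=
    ⟨max F'.natDegree G'.natDegree, le_trans (le_max_left _ _) (Nat.le_succ _), le_max_right _ _⟩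
  let inv : Invertible (q⁻¹) := ⟨q, mul_inv_cancel₀ hq0, inv_mul_cancel₀ hq0⟩
  have key : ∀ (N : ℕ) (P : Polynomial C3), P.natDegree ≤ N →
      Polynomial.eval₂ E q⁻¹ P * q ^ N = Polynomial.eval₂ E q (P.reflect N) := by
    intro N P hP
    have h1 := Polynomial.eval₂_reflect_mul_pow E q⁻¹ N P hP
    have h2 : (⅟(q⁻¹) : K) = q := rfl
    rw [h2] at h1
    rw [← h1, mul_assoc, ← mul_pow, inv_mul_cancel₀ hq0, one_pow, mul_one]
  have h3 : Polynomial.eval₂ E q (Polynomial.X ^ (M + 1) * F - F'.reflect (M + 1)) +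
      Polynomial.eval₂ E q (Polynomial.X ^ (M + 1) * G - G'.reflect M) * A.w = 0 := by
    rw [Polynomial.eval₂_sub, Polynomial.eval₂_sub, Polynomial.eval₂_mul, Polynomial.eval₂_mul,
      Polynomial.eval₂_X_pow, ← key _ _ hM1, ← key _ _ hM2]
    have h4 : q ^ (M + 1) * (Polynomial.eval₂ E q F + Polynomial.eval₂ E q G * A.w) =
        (Polynomial.eval₂ E q⁻¹ F' + Polynomial.eval₂ E q⁻¹ G' * (A.w * q⁻¹)) * q ^ (M + 1) := by
      rw [← e1, ← e2, mul_comm]
    have h5 : q⁻¹ * q ^ (M + 1) = q ^ M := by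
      rw [pow_succ', ← mul_assoc, inv_mul_cancel₀ hq0, one_mul]
    linear_combination h4 + (Polynomial.eval₂ E q⁻¹ G' * A.w) * h5
  obtain ⟨h4, h5⟩ := A.lin' h3
  have hG : G = 0 := by
    by_contra hne
    have h6 : (Polynomial.X ^ (M + 1) * G).natDegree ≤ M := by
      rw [sub_eq_zero.1 h5]
      refine le_trans Polynomial.natDegree_reflect_le ?_
      simp [hM2]
    rw [Polynomial.natDegree_X_pow_mul (M + 1) hne] at h6
    omega
  have hF : F.natDegree = 0 := by
    by_cases hne : F = 0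
    · rw [hne, Polynomial.natDegree_zero]
    · have h6 : (Polynomial.X ^ (M + 1) * F).natDegree ≤ M + 1 := by
        rw [sub_eq_zero.1 h4]
        refine le_trans Polynomial.natDegree_reflect_le ?_
        simp [hM1]
      rw [Polynomial.natDegree_X_pow_mul (M + 1) hne] at h6
      omega
  obtain ⟨c, hc⟩ : ∃ c, F = Polynomial.C c := ⟨_, Polynomial.eq_C_of_natDegree_eq_zero hF⟩
  refine ⟨c, ?_⟩
  rw [e1, hc, hG, Polynomial.eval₂_C, Polynomial.eval₂_zero, zero_mul, add_zero]
  rfl

end Pool.Agent.H81
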