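import Mathlib
import Pool.Agent.H81.Fib3

/-! The conic bundle: conclusion. -/

set_option linter.unusedSimpArgs false
set_option linter.unusedSectionVars false

noncomputable section

namespace Pool.Agent.H81

open Pool.Agent.H945R2 MvPolynomial FanoFib.Tor

section lies

variable {K L : Type} [Field K] [Algebra ℂ K] [Field L] [Algebra ℂ L] (φ : K →ₐ[ℂ] L)
  {R : Subalgebra ℂ K} {S : Subalgebra ℂ L} (hmap : ∀ g ∈ R, φ g ∈ S)

lemma liesOver_aux {p : Ideal S} (hp : p.IsPrime) {q : Ideal R}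
    (hpq : ∀ g : R, (⟨φ g, hmap g g.2⟩ : S) ∈ p ↔ g ∈ q) :
    ∀ b ∈ locRing R q, φ b ∈ locRing S p ∧ ((φ b)⁻¹ ∈ locRing S p → b⁻¹ ∈ locRing R q) := by
  rintro b ⟨a, s, hs, hb⟩
  have hb' : φ b * φ s = φ a := by rw [← map_mul, hb]
  refine ⟨⟨⟨φ a, hmap a a.2⟩, ⟨φ s, hmap s s.2⟩, fun h => hs ((hpq s).1 h), hb'⟩, ?_⟩
  rintro ⟨c, t, ht, hc⟩
  by_cases hb0 : b = 0
  · rw [hb0, inv_zero]
    exact ⟨0, s, hs, by simp⟩
  · have ha : a ∉ q := by
      intro ha
      have h1 := (hpq a).2 ha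
      have h2 : c * ⟨φ a, hmap a a.2⟩ = t * ⟨φ s, hmap s s.2⟩ := by
        apply Subtype.ext
        show (c : L) * φ a = (t : L) * φ s
        rw [← hc, ← hb']
        have h3 : φ b ≠ 0 := (map_ne_zero φ).2 hb0
        field_simp
      have h3 : t * ⟨φ s, hmap s s.2⟩ ∈ p := h2 ▸ p.mul_mem_left c h1
      rcases hp.mem_or_mem h3 with h | h
      · exact ht h
      · exact hs ((hpq s).1 h)
    refine ⟨s, a, ha, ?_⟩
    rw [← hb, ← mul_assoc, inv_mul_cancel₀ hb0, one_mul]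

end lies

lemma exists_over (i : Fin 3) (j k : Bool) (q : Ideal (RY i j)) (hq : q.IsPrime) :
    ∃ p : Ideal (RX i j k), p.IsPrime ∧ ∀ g : RY i j, (⟨φ g, maps_aux i j k g.2⟩ : RX i j k) ∈ p ↔
      g ∈ q := by
  let L := AlgebraicClosure (FractionRing (RY i j ⧸ q))
  let θ : RY i j →ₐ[ℂ] L := ((IsScalarTower.toAlgHom ℂ (FractionRing (RY i j ⧸ q)) L).comp
    (IsScalarTower.toAlgHom ℂ (RY i j ⧸ q) (FractionRing (RY i j ⧸ q)))).comp
    (Ideal.Quotient.mkₐ ℂ q)
  have hθ : ∀ g, θ g = 0 ↔ g ∈ q := by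
    intro g
    rw [← Ideal.Quotient.eq_zero_iff_mem]
    have h1 : Function.Injective ((IsScalarTower.toAlgHom ℂ (FractionRing (RY i j ⧸ q)) L).comp
        (IsScalarTower.toAlgHom ℂ (RY i j ⧸ q) (FractionRing (RY i j ⧸ q)))) :=
      (algebraMap (FractionRing (RY i j ⧸ q)) L).injective.comp
        (IsFractionRing.injective (RY i j ⧸ q) (FractionRing (RY i j ⧸ q)))
    exact map_eq_zero_iff _ h1
  obtain ⟨v, hv⟩ := IsAlgClosed.exists_pow_nat_eq
    (phi j k (θ (eY i j (X 0))) (θ (eY i j (X 1))) 0 (θ (eY i j (X 2)))) (n := 2) (by norm_num)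
  obtain ⟨ψ, hψw, hψ⟩ := (isDC_X i j k).lift L
    ![θ (eY i j (X 0)), θ (eY i j (X 1)), 0, θ (eY i j (X 2))] v (by
      rw [aeval_Phi, hv]
      rfl)
  have hcomp : ψ.comp (chi i j k) = θ := by
    apply RY_ext
    intro l
    rw [AlgHom.comp_apply, chi_X, hψ]
    fin_cases l <;> rfl
  refine ⟨RingHom.ker (ψ : RX i j k →+* L), RingHom.ker_isPrime _, ?_⟩
  intro g
  rw [RingHom.mem_ker, ← hθ g, ← hcomp]
  rfl

lemma exists_under (i : Fin 3) (j k : Bool) (p : Ideal (RX i j k)) (hp : p.IsPrime) :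
    ∃ q : Ideal (RY i j), q.IsPrime ∧ ∀ g : RY i j, (⟨φ g, maps_aux i j k g.2⟩ : RX i j k) ∈ p ↔
      g ∈ q :=
  ⟨p.comap (chi i j k : RY i j →+* RX i j k), Ideal.comap_isPrime _ _, fun _ => Iff.rfl⟩

theorem push_aux (i : Fin 3) (j : Bool) {h : K4} (h0 : h ∈ RX i j false) (h1 : h ∈ RX i j true) :
    ∃ g ∈ RY i j, φ g = h := by
  rw [RX, ring_eq] at h0 h1
  have hz := zz_ne i
  have hr := rr_ne
  have hu := uu_ne
  obtain ⟨c, hc⟩ := const_of_mem (dcX i j false) (dcX i j true) (by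
      intro l
      fin_cases l <;> rfl) (by
      show qq i false ≠ 0
      exact div_ne_zero hr hz) (by
      show zz i / rr = (rr / zz i)⁻¹
      rw [inv_div]) (by
      show zz i ^ 2 * ww / ll i j true = zz i ^ 2 * ww / ll i j false * (rr / zz i)⁻¹
      cases j
      · simp only [ll]; field_simp
      · simp only [ll]; field_simp) h0 h1
  refine ⟨aeval (yc i j) c, ?_, ?_⟩
  · rw [RY, ringY_eq, Algebra.adjoin_range_eq_range_aeval]
    exact ⟨c, rfl⟩
  · rw [hc, comp_aeval_apply]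
    congr 2
    funext l
    exact φ_yc i j false l

lemma fib_ideal (i : Fin 3) (j k : Bool) (m : Ideal (RY i j)) :
    Ideal.span {a : RX i j k | ∃ g ∈ m, (a : K4) = φ (g : K3)} =
      m.map (chi i j k : RY i j →+* RX i j k) := by
  rw [Ideal.map]
  congr 1
  ext a
  constructor
  · rintro ⟨g, hg, h⟩
    exact ⟨g, hg, Subtype.ext h.symm⟩
  · rintro ⟨g, hg, h⟩
    exact ⟨g, hg, (congrArg Subtype.val h).symm⟩

lemma fibre_dimX' (i : Fin 3) (j k : Bool) (m : Ideal (RY i j)) (hm : m.IsMaximal) :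
    ringKrullDim (RX i j k ⧸ Ideal.span {a : RX i j k | ∃ g ∈ m, (a : K4) = φ (g : K3)}) = 1 := by
  rw [fib_ideal]
  exact fibre_dimX i j k m hm

lemma exists_nonreduced' : ∃ m : Ideal (RY 0 false), m.IsMaximal ∧
    ¬ IsReduced (RX 0 false false ⧸
      Ideal.span {a : RX 0 false false | ∃ g ∈ m, (a : K4) = φ (g : K3)}) := by
  obtain ⟨m, hm, h⟩ := exists_nonreduced
  refine ⟨m, hm, ?_⟩
  rw [fib_ideal]
  exact h

/-- The conic bundle. -/
def fXY : Morphism X4 Y3 where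
  φ := φ
  τ c := (c.1, c.2.1)
  maps := fun c _ hg => maps_aux c.1 c.2.1 c.2.2 hg

theorem isFCB : fXY.IsFanoConicBundle where
  fano := isFanoX
  projective := exists_embeddingY
  surjective := by
    rintro B ⟨⟨i, j⟩, q, hq, rfl⟩
    obtain ⟨p, hp, hpq⟩ := exists_over i j false q hq
    exact ⟨locRing (RX i j false) p, ⟨(i, j, false), p, hp, rfl⟩,
      liesOver_aux φ (fun _ hg => maps_aux i j false hg) hp hpq⟩
  pushforward := by
    rintro ⟨i, j⟩ h hh
    have key : ∀ k, h ∈ RX i j k := by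
      intro k
      apply mem_of_forall_loc
      intro p hp
      obtain ⟨q, hq, hpq⟩ := exists_under i j k p hp
      exact hh (locRing (RX i j k) p) ⟨(i, j, k), p, hp, rfl⟩
        ⟨q, hq, liesOver_aux φ (fun _ hg => maps_aux i j k hg) hp hpq⟩
    exact push_aux i j (key false) (key true)
  fibre_dim := by
    rintro ⟨i, j, k⟩ m hm _
    exact fibre_dimX' i j k m hm

theorem hasNonreduced : fXY.HasNonreducedFibre := by
  obtain ⟨m, hm, h⟩ := exists_nonreduced'
  exact ⟨((0 : Fin 3), false, false), m, hm, h⟩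

/-! ### the Picard number -/

lemma divisible_eq_bot {G : Type} [AddCommGroup G] {n : ℕ} (e : G ≃+ (Fin n → ℤ)) :
    divisibleElements G = ⊥ := by
  rw [eq_bot_iff]
  intro x hx
  rw [AddSubgroup.mem_bot]
  apply e.injective
  rw [map_zero]
  funext i
  obtain ⟨y, hy⟩ := hx ((e x i).natAbs + 1) (Nat.succ_pos _)
  have h1 : ((e x i).natAbs + 1 : ℕ) • e y i = e x i := by
    have := congrArg (fun z => e z i) hy
    simpa using this
  rw [nsmul_eq_mul] at h1
  by_contra hne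
  have h2 : ((e x i).natAbs + 1 : ℕ) ∣ (e x i).natAbs := by
    rw [← Int.natCast_dvd]
    exact ⟨_, h1.symm⟩
  have h3 := Nat.le_of_dvd (Int.natAbs_pos.2 hne) h2
  omega

lemma finrank_of_equiv {G : Type} [AddCommGroup G] {n : ℕ} (e : G ≃+ (Fin n → ℤ)) :
    Module.finrank ℤ (G ⧸ divisibleElements G) = n := by
  have h1 : (G ⧸ divisibleElements G) ≃+ (Fin n → ℤ) :=
    (QuotientAddGroup.quotientAddEquivOfEq (divisible_eq_bot e)).trans
      ((QuotientAddGroup.quotientBot (G := G)).trans e)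
  have h2 := LinearEquiv.finrank_eq h1.toIntLinearEquiv
  rw [h2]
  simp

lemma rhoX : picardNumber X4 = 4 := by
  obtain ⟨e⟩ := picX
  exact finrank_of_equiv e

lemma rhoY : picardNumber Y3 = 2 := by
  obtain ⟨e⟩ := picY
  exact finrank_of_equiv e

theorem main : ∃ (X Y : Variety) (f : Morphism X Y), f.IsFanoConicBundle ∧
    picardNumber X = picardNumber Y + 2 ∧ f.HasNonreducedFibre ∧ X.dim = 4 :=
  ⟨X4, Y3, fXY, isFCB, by rw [rhoX, rhoY], hasNonreduced, rfl⟩

end Pool.Agent.H81
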